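import Pool.Agent.Lib.MP_ddd95a_nt.Defs

set_option autoImplicit false

/-!
# The nonagonal lattice: upper bound for the volume of its empty boxes

The argument is the one for the heptagonal lattice, with the field of discriminant `81`.
-/

namespace Pool.Agent.Lib.MP_ddd95a_nt.Up9

open Pool.Agent.Lib.MP_ddd95a_nt

/-- value at `x` of the polynomial with coefficients `u` -/
noncomputable def e (x : ℝ) (u : Fin 3 → ℤ) : ℝ := u 0 + u 1 * x + u 2 * x ^ 2

/-- product modulo `x³ - 3x + 1` -/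
def mulv (v w : Fin 3 → ℤ) : Fin 3 → ℤ :=
  ![v 0 * w 0 - (v 1 * w 2 + v 2 * w 1),
    v 0 * w 1 + v 1 * w 0 + 3 * (v 1 * w 2 + v 2 * w 1) - v 2 * w 2,
    v 0 * w 2 + v 1 * w 1 + v 2 * w 0 + 3 * (v 2 * w 2)]

lemma e_mulv {x : ℝ} (hx : x ^ 3 - 3 * x + 1 = 0) (v w : Fin 3 → ℤ) :
    e x (mulv v w) = e x v * e x w := by
  simp only [e, mulv, Matrix.cons_val_zero, Matrix.cons_val_one, Matrix.cons_val_two,
    Matrix.head_cons, Matrix.tail_cons]
  push_cast
  linear_combination (-((v 1 : ℝ) * w 2 + v 2 * w 1) - (v 2 : ℝ) * w 2 * x) * hx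

def one3 : Fin 3 → ℤ := ![1, 0, 0]

lemma e_one3 (x : ℝ) : e x one3 = 1 := by simp [e, one3]

/-- powers -/
def powv (v : Fin 3 → ℤ) : ℕ → (Fin 3 → ℤ)
  | 0 => one3
  | n + 1 => mulv v (powv v n)

lemma e_powv {x : ℝ} (hx : x ^ 3 - 3 * x + 1 = 0) (v : Fin 3 → ℤ) (n : ℕ) :
    e x (powv v n) = e x v ^ n := by
  induction n with
  | zero => simp [powv, e_one3]
  | succ n ih => rw [powv, e_mulv hx, ih, pow_succ]; ring

/-- `2 cos (2 π / 9)` -/
noncomputable def c : ℝ := 2 * Real.cos (2 * Real.pi / 9)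

/-- The second minimum. -/
noncomputable def kap9 : ℝ := 8 / 9 * Real.cos (2 * Real.pi / 9) * Real.cos (Real.pi / 9) ^ 2

lemma c_lt_two : c < 2 := by
  have h : Real.cos (2 * Real.pi / 9) < 1 := by
    have h1 : Real.cos (2 * Real.pi / 9) < Real.cos 0 := by
      apply Real.cos_lt_cos_of_nonneg_of_le_pi le_rfl
      · have := Real.pi_pos; linarith
      · have := Real.pi_pos; positivity
    rwa [Real.cos_zero] at h1
  rw [c]; linarith

lemma c_gt_one : 1 < c := by
  have h : 1 / 2 < Real.cos (2 * Real.pi / 9) := by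
    rw [← Real.cos_pi_div_three]
    apply Real.cos_lt_cos_of_nonneg_of_le_pi
    · have := Real.pi_pos; positivity
    · have := Real.pi_pos; linarith
    · have := Real.pi_pos; linarith
  rw [c]; linarith

lemma c_root : c ^ 3 - 3 * c + 1 = 0 := by
  have h1 := Real.cos_three_mul (2 * Real.pi / 9)
  have h2 : 3 * (2 * Real.pi / 9) = Real.pi - Real.pi / 3 := by ring
  rw [h2, Real.cos_pi_sub, Real.cos_pi_div_three] at h1
  have hc : Real.cos (2 * Real.pi / 9) = c / 2 := by rw [c]; ring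
  rw [hc] at h1
  linear_combination -2 * h1

lemma c_lo : 1532088 / 1000000 < c := by
  by_contra h
  rw [not_lt] at h
  have h1 := c_gt_one
  have h2 := c_root
  have h3 : 0 < c ^ 2 + c * (1532088 / 1000000) + (1532088 / 1000000) ^ 2 - 3 := by nlinarith
  nlinarith [mul_nonneg (sub_nonneg.mpr h) h3.le]

lemma c_hi : c < 1532089 / 1000000 := by
  by_contra h
  rw [not_lt] at h
  have h1 := c_lt_two
  have h2 := c_root
  have h3 : 0 < c ^ 2 + c * (1532089 / 1000000) + (1532089 / 1000000) ^ 2 - 3 := by nlinarith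
  nlinarith [mul_nonneg (sub_nonneg.mpr h) h3.le]

lemma c_sq_lo : 2347293 / 1000000 < c ^ 2 := by have := c_lo; nlinarith
lemma c_sq_hi : c ^ 2 < 2347297 / 1000000 := by have := c_hi; have := c_lo; nlinarith

lemma kap9_eq : 9 * kap9 = c * (2 + c) := by
  have h : Real.cos (Real.pi / 9) ^ 2 = (1 + Real.cos (2 * Real.pi / 9)) / 2 := by
    have : 2 * Real.pi / 9 = 2 * (Real.pi / 9) := by ring
    rw [this, Real.cos_two_mul]; ring
  rw [kap9, h, c]
  ring

/-- the three conjugates -/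
noncomputable def rho : Fin 3 → ℝ := ![c, c ^ 2 - 2, 2 - c - c ^ 2]

lemma rho_root (i : Fin 3) : rho i ^ 3 - 3 * rho i + 1 = 0 := by
  have h := c_root
  fin_cases i
  · exact h
  · show (c ^ 2 - 2) ^ 3 - 3 * (c ^ 2 - 2) + 1 = 0
    linear_combination ((-1) * c ^ 0 + (-3) * c ^ 1 + (1) * c ^ 3) * h
  · show (2 - c - c ^ 2) ^ 3 - 3 * (2 - c - c ^ 2) + 1 = 0
    linear_combination ((3) * c ^ 0 + (-3) * c ^ 2 + (-1) * c ^ 3) * h

lemma rho0 : rho 0 = c := rfl
lemma rho1 : rho 1 = c ^ 2 - 2 := rfl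
lemma rho2 : rho 2 = 2 - c - c ^ 2 := rfl

/-- the units used in the descent -/
def al : Fin 3 → ℤ := ![-2, 1, 1]
def be : Fin 3 → ℤ := ![3, 0, -1]
def ga : Fin 3 → ℤ := ![-1, 1, 1]
def de : Fin 3 → ℤ := ![-1, 1, 0]

lemma e_al (x : ℝ) : e x al = x ^ 2 + x - 2 := by simp [e, al]; ring
lemma e_be (x : ℝ) : e x be = 3 - x ^ 2 := by simp [e, be]; ring
lemma e_ga (x : ℝ) : e x ga = x ^ 2 + x - 1 := by simp [e, ga]; ring
lemma e_de (x : ℝ) : e x de = x - 1 := by simp [e, de]; ring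

lemma abs_al0 : |e (rho 0) al| = (-2) * c ^ 0 + (1) * c ^ 1 + (1) * c ^ 2 := by
  have h : e (rho 0) al = (-2) * c ^ 0 + (1) * c ^ 1 + (1) * c ^ 2 := by
    rw [e_al, rho0]; linear_combination (0) * c_root
  rw [h, abs_of_pos]
  have := c_lo; have := c_hi; have := c_sq_lo; have := c_sq_hi; linarith

lemma abs_al1 : |e (rho 1) al| = (1) * c ^ 1 := by
  have h : e (rho 1) al = (-1) * c ^ 1 := by
    rw [e_al, rho1]; linear_combination ((1) * c ^ 1) * c_root
  rw [h, abs_of_neg]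
  · ring
  · have := c_lo; have := c_hi; have := c_sq_lo; have := c_sq_hi; linarith

lemma abs_al2 : |e (rho 2) al| = (-2) * c ^ 0 + (1) * c ^ 2 := by
  have h : e (rho 2) al = (2) * c ^ 0 + (-1) * c ^ 2 := by
    rw [e_al, rho2]; linear_combination ((2) * c ^ 0 + (1) * c ^ 1) * c_root
  rw [h, abs_of_neg]
  · ring
  · have := c_lo; have := c_hi; have := c_sq_lo; have := c_sq_hi; linarith

lemma abs_be0 : |e (rho 0) be| = (3) * c ^ 0 + (-1) * c ^ 2 := by
  have h : e (rho 0) be = (3) * c ^ 0 + (-1) * c ^ 2 := by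
    rw [e_be, rho0]; linear_combination (0) * c_root
  rw [h, abs_of_pos]
  have := c_lo; have := c_hi; have := c_sq_lo; have := c_sq_hi; linarith

lemma abs_be1 : |e (rho 1) be| = (-1) * c ^ 0 + (1) * c ^ 1 + (1) * c ^ 2 := by
  have h : e (rho 1) be = (-1) * c ^ 0 + (1) * c ^ 1 + (1) * c ^ 2 := by
    rw [e_be, rho1]; linear_combination ((-1) * c ^ 1) * c_root
  rw [h, abs_of_pos]
  have := c_lo; have := c_hi; have := c_sq_lo; have := c_sq_hi; linarith

lemma abs_be2 : |e (rho 2) be| = (-1) * c ^ 0 + (1) * c ^ 1 := by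
  have h : e (rho 2) be = (1) * c ^ 0 + (-1) * c ^ 1 := by
    rw [e_be, rho2]; linear_combination ((-2) * c ^ 0 + (-1) * c ^ 1) * c_root
  rw [h, abs_of_neg]
  · ring
  · have := c_lo; have := c_hi; have := c_sq_lo; have := c_sq_hi; linarith

lemma abs_ga0 : |e (rho 0) ga| = (-1) * c ^ 0 + (1) * c ^ 1 + (1) * c ^ 2 := by
  have h : e (rho 0) ga = (-1) * c ^ 0 + (1) * c ^ 1 + (1) * c ^ 2 := by
    rw [e_ga, rho0]; linear_combination (0) * c_root
  rw [h, abs_of_pos]
  have := c_lo; have := c_hi; have := c_sq_lo; have := c_sq_hi; linarith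

lemma abs_ga1 : |e (rho 1) ga| = (-1) * c ^ 0 + (1) * c ^ 1 := by
  have h : e (rho 1) ga = (1) * c ^ 0 + (-1) * c ^ 1 := by
    rw [e_ga, rho1]; linear_combination ((1) * c ^ 1) * c_root
  rw [h, abs_of_neg]
  · ring
  · have := c_lo; have := c_hi; have := c_sq_lo; have := c_sq_hi; linarith

lemma abs_ga2 : |e (rho 2) ga| = (3) * c ^ 0 + (-1) * c ^ 2 := by
  have h : e (rho 2) ga = (3) * c ^ 0 + (-1) * c ^ 2 := by
    rw [e_ga, rho2]; linear_combination ((2) * c ^ 0 + (1) * c ^ 1) * c_root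
  rw [h, abs_of_pos]
  have := c_lo; have := c_hi; have := c_sq_lo; have := c_sq_hi; linarith

lemma abs_de0 : |e (rho 0) de| = (-1) * c ^ 0 + (1) * c ^ 1 := by
  have h : e (rho 0) de = (-1) * c ^ 0 + (1) * c ^ 1 := by
    rw [e_de, rho0]; linear_combination (0) * c_root
  rw [h, abs_of_pos]
  have := c_lo; have := c_hi; have := c_sq_lo; have := c_sq_hi; linarith

lemma abs_de1 : |e (rho 1) de| = (3) * c ^ 0 + (-1) * c ^ 2 := by
  have h : e (rho 1) de = (-3) * c ^ 0 + (1) * c ^ 2 := by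
    rw [e_de, rho1]; linear_combination (0) * c_root
  rw [h, abs_of_neg]
  · ring
  · have := c_lo; have := c_hi; have := c_sq_lo; have := c_sq_hi; linarith

lemma abs_de2 : |e (rho 2) de| = (-1) * c ^ 0 + (1) * c ^ 1 + (1) * c ^ 2 := by
  have h : e (rho 2) de = (1) * c ^ 0 + (-1) * c ^ 1 + (-1) * c ^ 2 := by
    rw [e_de, rho2]; linear_combination (0) * c_root
  rw [h, abs_of_neg]
  · ring
  · have := c_lo; have := c_hi; have := c_sq_lo; have := c_sq_hi; linarith

/-- absolute norm -/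
noncomputable def nm (u : Fin 3 → ℤ) : ℝ := |e (rho 0) u| * |e (rho 1) u| * |e (rho 2) u|

lemma nm_mulv (v w : Fin 3 → ℤ) : nm (mulv v w) = nm v * nm w := by
  simp only [nm, e_mulv (rho_root _), abs_mul]
  ring

lemma nm_al : nm al = 1 := by
  rw [nm, abs_al0, abs_al1, abs_al2]
  linear_combination ((-1) * c ^ 0 + (1) * c ^ 1 + (1) * c ^ 2) * c_root
lemma nm_be : nm be = 1 := by
  rw [nm, abs_be0, abs_be1, abs_be2]
  linear_combination ((2) * c ^ 0 + (-1) * c ^ 2) * c_root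
lemma nm_ga : nm ga = 1 := by
  rw [nm, abs_ga0, abs_ga1, abs_ga2]
  linear_combination ((2) * c ^ 0 + (-1) * c ^ 2) * c_root
lemma nm_de : nm de = 1 := by
  rw [nm, abs_de0, abs_de1, abs_de2]
  linear_combination ((2) * c ^ 0 + (-1) * c ^ 2) * c_root

/-- the units below a given size in the first two places -/
def S (t : Fin 3 → ℝ) : Set (Fin 3 → ℤ) :=
  {u | nm u = 1 ∧ |e (rho 0) u| ≤ t 0 ∧ |e (rho 1) u| ≤ t 1}

lemma S_nonempty (t : Fin 3 → ℝ) (ht : ∀ i, 0 < t i) : (S t).Nonempty := by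
  have hc1 := c_sq_lo
  have hc2 := c_sq_hi
  have hc3 := c_lo
  have hc4 := c_hi
  have b0 : |e (rho 0) de| < 1 := by rw [abs_de0]; linarith
  have b1 : |e (rho 1) de| < 1 := by rw [abs_de1]; linarith
  obtain ⟨n0, hn0⟩ := exists_pow_lt_of_lt_one (ht 0) b0
  obtain ⟨n1, hn1⟩ := exists_pow_lt_of_lt_one (ht 1) b1
  refine ⟨powv de (n0 + n1), ?_, ?_, ?_⟩
  · have h : ∀ n, nm (powv de n) = 1 := by
      intro n
      induction n with
      | zero => simp [powv, nm, e_one3]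
      | succ n ih => rw [powv, nm_mulv, ih, nm_de, mul_one]
    exact h _
  · rw [e_powv (rho_root 0), abs_pow]
    exact (pow_le_pow_of_le_one (abs_nonneg _) b0.le (Nat.le_add_right _ _)).trans hn0.le
  · rw [e_powv (rho_root 1), abs_pow]
    exact (pow_le_pow_of_le_one (abs_nonneg _) b1.le (Nat.le_add_left _ _)).trans hn1.le

lemma S_pos {t : Fin 3 → ℝ} {u : Fin 3 → ℤ} (hu : u ∈ S t) (i : Fin 3) :
    0 < |e (rho i) u| := by
  have h : nm u = 1 := hu.1
  rw [nm] at h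
  rw [abs_pos]
  intro h0
  fin_cases i
  · have h0' : e (rho 0) u = 0 := h0
    simp [h0'] at h
  · have h0' : e (rho 1) u = 0 := h0
    simp [h0'] at h
  · have h0' : e (rho 2) u = 0 := h0
    simp [h0'] at h

/-- a nearly minimal element -/
lemma exists_min (t : Fin 3 → ℝ) (ht : ∀ i, 0 < t i) :
    ∃ u ∈ S t, ∀ v ∈ S t, 0.81 * |e (rho 2) u| < |e (rho 2) v| := by
  by_contra hcon
  push Not at hcon
  have hstep : ∀ n : ℕ, ∀ u ∈ S t, ∃ v ∈ S t, |e (rho 2) v| ≤ 0.81 ^ n * |e (rho 2) u| := by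
    intro n
    induction n with
    | zero => intro u hu; exact ⟨u, hu, by simp⟩
    | succ n ih =>
      intro u hu
      obtain ⟨v, hv, hv'⟩ := ih u hu
      obtain ⟨w, hw, hw'⟩ := hcon v hv
      refine ⟨w, hw, hw'.trans ?_⟩
      rw [pow_succ]
      nlinarith
  obtain ⟨u, hu⟩ := S_nonempty t ht
  have hlow : ∀ v ∈ S t, 1 / (t 0 * t 1) ≤ |e (rho 2) v| := by
    intro v hv
    have h0 := S_pos hv 0
    have h1 := S_pos hv 1
    have h2 := S_pos hv 2
    have hn : |e (rho 0) v| * |e (rho 1) v| * |e (rho 2) v| = 1 := hv.1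
    rw [div_le_iff₀ (mul_pos (ht 0) (ht 1)), ← hn]
    have : |e (rho 0) v| * |e (rho 1) v| ≤ t 0 * t 1 :=
      mul_le_mul hv.2.1 hv.2.2 h1.le (ht 0).le
    nlinarith
  have hpos : 0 < 1 / (t 0 * t 1) := by have := ht 0; have := ht 1; positivity
  have h2 := S_pos hu 2
  obtain ⟨n, hn⟩ := exists_pow_lt_of_lt_one (show 0 < 1 / (t 0 * t 1) / |e (rho 2) u| by positivity)
    (show (0.81 : ℝ) < 1 by norm_num)
  obtain ⟨v, hv, hv'⟩ := hstep n u hu
  have := hlow v hv
  rw [lt_div_iff₀ h2] at hn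
  linarith

lemma core (t : Fin 3 → ℝ) (ht : ∀ i, 0 < t i)
    (hempty : ∀ u : Fin 3 → ℤ, (∀ i, |e (rho i) u| ≤ t i) → u = 0) :
    t 0 * t 1 * t 2 < c * (2 + c) := by
  have hc1 := c_sq_lo
  have hc2 := c_sq_hi
  have hc3 := c_lo
  have hc4 := c_hi
  have hr := c_root
  obtain ⟨u, hu, hmin⟩ := exists_min t ht
  have hx0 := S_pos hu 0
  have hx1 := S_pos hu 1
  have hx2 := S_pos hu 2
  have hn : |e (rho 0) u| * |e (rho 1) u| * |e (rho 2) u| = 1 := hu.1
  have ht0 : |e (rho 0) u| ≤ t 0 := hu.2.1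
  have ht1 : |e (rho 1) u| ≤ t 1 := hu.2.2
  -- third coordinate is large
  have ht2 : t 2 < |e (rho 2) u| := by
    by_contra h
    rw [not_lt] at h
    have h0 : u = 0 := by
      apply hempty
      intro i
      fin_cases i
      · exact ht0
      · exact ht1
      · exact h
    subst h0
    have : e (rho 0) 0 = 0 := by simp [e]
    rw [this] at hx0
    simp at hx0
  -- moves leave `S`
  have hmove : ∀ v : Fin 3 → ℤ, nm v = 1 → |e (rho 2) v| ≤ 0.81 →
      |e (rho 0) v| * |e (rho 0) u| ≤ t 0 → |e (rho 1) v| * |e (rho 1) u| ≤ t 1 → False := by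
    intro v hv hv2 h0 h1
    have hmem : mulv v u ∈ S t := by
      refine ⟨?_, ?_, ?_⟩
      · rw [nm_mulv, hv, one_mul]; exact hn
      · rw [e_mulv (rho_root 0), abs_mul]; exact h0
      · rw [e_mulv (rho_root 1), abs_mul]; exact h1
    have h3 := hmin _ hmem
    rw [e_mulv (rho_root 2), abs_mul] at h3
    nlinarith
  have hb : t 1 < (c ^ 2 + c - 1) * |e (rho 1) u| := by
    by_contra h
    rw [not_lt] at h
    apply hmove be nm_be
    · rw [abs_be2]; linarith
    · rw [abs_be0]; nlinarith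
    · rw [abs_be1]; linarith
  have hg : t 0 < (c ^ 2 + c - 1) * |e (rho 0) u| := by
    by_contra h
    rw [not_lt] at h
    apply hmove ga nm_ga
    · rw [abs_ga2]; linarith
    · rw [abs_ga0]; linarith
    · rw [abs_ga1]; nlinarith
  have ha : t 0 < (c ^ 2 + c - 2) * |e (rho 0) u| ∨ t 1 < c * |e (rho 1) u| := by
    by_contra h
    rw [not_or, not_lt, not_lt] at h
    apply hmove al nm_al
    · rw [abs_al2]; linarith
    · rw [abs_al0]; linarith [h.1]
    · rw [abs_al1]; linarith [h.2]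
  have p0 := ht 0
  have p1 := ht 1
  have p2 := ht 2
  rcases ha with ha | ha
  · calc t 0 * t 1 * t 2
        < ((c ^ 2 + c - 2) * |e (rho 0) u|) * ((c ^ 2 + c - 1) * |e (rho 1) u|) *
            |e (rho 2) u| :=
          mul_lt_mul'' (mul_lt_mul'' ha hb p0.le p1.le) ht2 (mul_nonneg p0.le p1.le) p2.le
      _ = (c ^ 2 + c - 2) * (c ^ 2 + c - 1) *
            (|e (rho 0) u| * |e (rho 1) u| * |e (rho 2) u|) := by ring
      _ = c * (2 + c) := by rw [hn]; linear_combination (c + 2) * hr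
  · calc t 0 * t 1 * t 2
        < ((c ^ 2 + c - 1) * |e (rho 0) u|) * (c * |e (rho 1) u|) * |e (rho 2) u| :=
          mul_lt_mul'' (mul_lt_mul'' hg ha p0.le p1.le) ht2 (mul_nonneg p0.le p1.le) p2.le
      _ = (c ^ 2 + c - 1) * c * (|e (rho 0) u| * |e (rho 1) u| * |e (rho 2) u|) := by ring
      _ ≤ c * (2 + c) := by rw [hn]; nlinarith

end Pool.Agent.Lib.MP_ddd95a_nt.Up9
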