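import Pool.Agent.Lib.MP_ddd95a_nt.Mg.G012
import Pool.Agent.Lib.MP_ddd95a_nt.Mg.G016

set_option autoImplicit false

/-!
# The unit cube of the nonagonal lattice
-/

namespace Pool.Agent.Lib.MP_ddd95a_nt.Sec

open Pool.Agent.Lib.MP_ddd95a_nt Pool.Agent.Lib.MP_ddd95a_nt.Iso

open scoped BigOperators

/-- Rounded entries of the special matrix, times `10 ^ 6`. -/
def aV9 : Fin 3 → Fin 3 → ℤ :=
  ![![1000000, 347295, 532088], ![-532088, 1000000, 347295], ![-347295, -532088, 1000000]]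

/-- The vectors to be tested. -/
def cubeT9 (v : ℤ × ℤ × ℤ) : Bool :=
  decide (v = (1, 0, 0)) || decide (v = (0, 1, 0)) || decide (v = (0, 0, 1)) ||
    decide (∃ j : Fin 3, 1000000 + 3 * (|v.1| + |v.2.1| + |v.2.2|) ≤
      |v.1 * aV9 0 j + v.2.1 * aV9 1 j + v.2.2 * aV9 2 j|)

lemma cubeT9_half : ∀ v ∈ half, cubeT9 v = true := by
  decide +kernel

lemma w9_lo : 347293 / 1000000 ≤ w9 := by
  have h : w9 = (-2) * Up9.c ^ 0 + (1) * Up9.c ^ 2 := rfl
  have := c9_sq_lo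
  rw [h]; linarith

lemma w9_hi : w9 ≤ 347297 / 1000000 := by
  have h : w9 = (-2) * Up9.c ^ 0 + (1) * Up9.c ^ 2 := rfl
  have := c9_sq_hi
  rw [h]; linarith

lemma v9_lo : 532088 / 1000000 ≤ v9 := by
  have h : v9 = (-1) * Up9.c ^ 0 + (1) * Up9.c ^ 1 := rfl
  have := c9_lo
  rw [h]; linarith

lemma v9_hi : v9 ≤ 532089 / 1000000 := by
  have h : v9 = (-1) * Up9.c ^ 0 + (1) * Up9.c ^ 1 := rfl
  have := c9_hi
  rw [h]; linarith

lemma aV9_near (i j : Fin 3) : |1000000 * Vs w9 v9 i j - (aV9 i j : ℝ)| ≤ 3 := by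
  have h1 := w9_lo
  have h2 := w9_hi
  have h3 := v9_lo
  have h4 := v9_hi
  rw [abs_le]
  fin_cases i <;> fin_cases j <;>
    simp only [aV9, Vs, Matrix.of_apply, Matrix.cons_val', Matrix.cons_val_fin_one,
      Matrix.cons_val_zero, Matrix.cons_val_one,
      Matrix.cons_val, Fin.zero_eta, Fin.mk_one, Fin.reduceFinMk,
      Fin.isValue, Int.cast_neg, Int.cast_ofNat] <;>
    constructor <;> linarith

lemma crd_near9 (v : ℤ × ℤ × ℤ) (j : Fin 3)
    (hv : 1000000 + 3 * (|v.1| + |v.2.1| + |v.2.2|) ≤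
      |v.1 * aV9 0 j + v.2.1 * aV9 1 j + v.2.2 * aV9 2 j|) :
    1 ≤ |(v.1 : ℝ) * Vs w9 v9 0 j + (v.2.1 : ℝ) * Vs w9 v9 1 j + (v.2.2 : ℝ) * Vs w9 v9 2 j| := by
  have hv' : (1000000 : ℝ) + 3 * (|(v.1 : ℝ)| + |(v.2.1 : ℝ)| + |(v.2.2 : ℝ)|) ≤
      |(v.1 : ℝ) * aV9 0 j + v.2.1 * aV9 1 j + v.2.2 * aV9 2 j| := by
    exact_mod_cast hv
  have n0 := aV9_near 0 j
  have n1 := aV9_near 1 j
  have n2 := aV9_near 2 j
  generalize Vs w9 v9 = W at *
  set x : ℝ := (v.1 : ℝ) * W 0 j + (v.2.1 : ℝ) * W 1 j + (v.2.2 : ℝ) * W 2 j with hx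
  have e : (v.1 : ℝ) * aV9 0 j + v.2.1 * aV9 1 j + v.2.2 * aV9 2 j =
      1000000 * x - ((v.1 : ℝ) * (1000000 * W 0 j - aV9 0 j) +
        (v.2.1 : ℝ) * (1000000 * W 1 j - aV9 1 j)
        + (v.2.2 : ℝ) * (1000000 * W 2 j - aV9 2 j)) := by
    rw [hx]; ring
  have b : |(v.1 : ℝ) * (1000000 * W 0 j - aV9 0 j) + (v.2.1 : ℝ) * (1000000 * W 1 j - aV9 1 j)
        + (v.2.2 : ℝ) * (1000000 * W 2 j - aV9 2 j)| ≤
      3 * (|(v.1 : ℝ)| + |(v.2.1 : ℝ)| + |(v.2.2 : ℝ)|) := by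
    refine (abs_add_three _ _ _).trans ?_
    rw [abs_mul, abs_mul, abs_mul]
    have := mul_le_mul_of_nonneg_left n0 (abs_nonneg (v.1 : ℝ))
    have := mul_le_mul_of_nonneg_left n1 (abs_nonneg (v.2.1 : ℝ))
    have := mul_le_mul_of_nonneg_left n2 (abs_nonneg (v.2.2 : ℝ))
    linarith
  rw [e] at hv'
  have h1 := hv'.trans (abs_sub _ _)
  rw [abs_mul, abs_of_pos (by norm_num : (0 : ℝ) < 1000000)] at h1
  linarith

lemma det9 : (Vs w9 v9).det * (Up9.c * (2 + Up9.c)) = 9 := by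
  have h := Up9.c_root
  rw [Matrix.det_fin_three]
  unfold Vs w9 v9
  generalize Up9.c = c at *
  simp only [Matrix.of_apply, Matrix.cons_val', Matrix.cons_val_zero, Matrix.cons_val_one,
    Matrix.cons_val, Matrix.cons_val_fin_one, Fin.isValue]
  linear_combination ((-9) * c ^ 0 + (1) * c ^ 1 + (11) * c ^ 2 + (3) * c ^ 3 + (-2) * c ^ 4 + (-1) * c ^ 5) * h

lemma det9_pos : 0 < (Vs w9 v9).det := by
  have h := det9
  have h1 := c9_lo
  have h2 : 0 < Up9.c * (2 + Up9.c) := by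
    have : (0 : ℝ) < Up9.c := by linarith
    positivity
  by_contra hcon
  push Not at hcon
  nlinarith

/-- The special matrix is normalised. -/
theorem nrm9 : Nrm (Vs w9 v9) := by
  have h1 := w9_lo
  have h2 := w9_hi
  have h3 := v9_lo
  have h4 := v9_hi
  have hd : ∀ i, Vs w9 v9 i i = 1 := Vs_diag w9 v9
  have hle : ∀ i j, |Vs w9 v9 i j| ≤ 1 := by
    intro i j
    rw [abs_le]
    fin_cases i <;> fin_cases j <;>
      simp only [Vs, Matrix.of_apply, Matrix.cons_val', Matrix.cons_val_fin_one,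
        Matrix.cons_val_zero, Matrix.cons_val_one,
        Matrix.cons_val, Fin.zero_eta, Fin.mk_one, Fin.reduceFinMk, Fin.isValue] <;>
      constructor <;> linarith
  refine ⟨hd, hle, ?_, det9_pos.ne'⟩
  intro n hn
  have hn' : (n 0, n 1, n 2) ≠ ((0, 0, 0) : ℤ × ℤ × ℤ) := by
    intro h
    apply hn
    funext i
    simp only [Prod.mk.injEq] at h
    fin_cases i
    · exact h.1
    · exact h.2.1
    · exact h.2.2
  have key := half_complete (a := fun i j => Vs w9 v9 i j) (T := fun _ => 1) (fun _ => one_pos)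
    (fun i j => by have := hle i j; linarith) (fun v hv => by
      have ht := cubeT9_half v hv
      simp only [cubeT9, Bool.or_eq_true, decide_eq_true_eq] at ht
      rcases ht with ((ht | ht) | ht) | ⟨j, hj⟩
      · refine ⟨0, ?_⟩
        rw [ht]
        simp [hd]
      · refine ⟨1, ?_⟩
        rw [ht]
        simp [hd]
      · refine ⟨2, ?_⟩
        rw [ht]
        simp [hd]
      · exact ⟨j, crd_near9 v j hj⟩) (n 0, n 1, n 2) hn'
  obtain ⟨j, hj⟩ := key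
  refine ⟨j, ?_⟩
  unfold crd
  rw [Fin.sum_univ_three]
  exact hj

/-- The unit cube is an empty box of volume `kap9` times the determinant. -/
theorem good9 : Good Up9.kap9 (Vs w9 v9) := by
  refine ⟨fun _ => 1, fun _ => one_pos, nrm9.empty, ?_⟩
  rw [abs_of_pos det9_pos, Finset.prod_const_one]
  have h1 := Up9.kap9_eq
  have h2 := det9
  have : 9 * (Up9.kap9 * (Vs w9 v9).det) = 9 := by
    rw [← mul_assoc, h1, mul_comm, h2]
  linarith

end Pool.Agent.Lib.MP_ddd95a_nt.Sec
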