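import Pool.Agent.Lib.MP_ddd95a_nt.Sec.Step
import Pool.Agent.Lib.MP_ddd95a_nt.Upper
import Pool.Agent.Lib.MP_ddd95a_nt.Sec.Up9

set_option autoImplicit false
set_option linter.unusedSimpArgs false

/-!
# The flow near the heptagonal lattice
-/

namespace Pool.Agent.Lib.MP_ddd95a_nt.Sec

open Pool.Agent.Lib.MP_ddd95a_nt Pool.Agent.Lib.MP_ddd95a_nt.Iso

open scoped BigOperators

noncomputable def w7 : ℝ := (2) * Upper.c ^ 0 + (-1) * Upper.c ^ 2
noncomputable def v7 : ℝ := (-2) * Upper.c ^ 0 + (1) * Upper.c ^ 1 + (1) * Upper.c ^ 2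
noncomputable def p7 : ℝ := (1/7) * Upper.c ^ 0 + (1/7) * Upper.c ^ 1 + (1/7) * Upper.c ^ 2
noncomputable def q7 : ℝ := (1/7) * Upper.c ^ 0 + (-2/7) * Upper.c ^ 1 + (-1/7) * Upper.c ^ 2
noncomputable def r7 : ℝ := (-2/7) * Upper.c ^ 0 + (-1/7) * Upper.c ^ 1 + (1/7) * Upper.c ^ 2

/-- The conjugates of the unit. -/
noncomputable def th7 : Fin 3 → ℝ := ![(1) * Upper.c ^ 1, (-2) * Upper.c ^ 0 + (1) * Upper.c ^ 2, (1) * Upper.c ^ 0 + (-1) * Upper.c ^ 1 + (-1) * Upper.c ^ 2]

/-- Their inverses. -/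
noncomputable def ti7 : Fin 3 → ℝ := ![(-2) * Upper.c ^ 0 + (1) * Upper.c ^ 1 + (1) * Upper.c ^ 2, (-1) * Upper.c ^ 0 + (-1) * Upper.c ^ 1, (1) * Upper.c ^ 0 + (-1) * Upper.c ^ 2]

lemma c7_lo : 12469796 / 10000000 ≤ Upper.c := by
  have h1 := Upper.c_lo
  have h2 := Upper.c_hi
  have h3 := Upper.c_root
  generalize Upper.c = c at *
  by_contra h
  rw [not_le] at h
  have h4 : (12469796 / 10000000 - c) * (c ^ 2 + (1 + 12469796 / 10000000) * c +
      ((12469796 / 10000000) ^ 2 + 12469796 / 10000000 - 2)) > 0 := by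
    apply mul_pos (by linarith)
    nlinarith
  nlinarith

lemma c7_hi : Upper.c ≤ 12469797 / 10000000 := by
  have h1 := Upper.c_lo
  have h2 := Upper.c_hi
  have h3 := Upper.c_root
  generalize Upper.c = c at *
  by_contra h
  rw [not_le] at h
  have h4 : (c - 12469797 / 10000000) * (c ^ 2 + (1 + 12469797 / 10000000) * c +
      ((12469797 / 10000000) ^ 2 + 12469797 / 10000000 - 2)) > 0 := by
    apply mul_pos (by linarith)
    nlinarith
  nlinarith

lemma c7_sq_lo : 1554958 / 1000000 ≤ Upper.c ^ 2 := by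
  have := c7_lo
  nlinarith

lemma c7_sq_hi : Upper.c ^ 2 ≤ 1554959 / 1000000 := by
  have := c7_lo
  have := c7_hi
  nlinarith

lemma inv7 : Bs p7 q7 r7 * Vs w7 v7 = 1 := by
  have h := Upper.c_root
  unfold Bs Vs p7 q7 r7 w7 v7
  generalize Upper.c = c at *
  ext i j
  fin_cases i <;> fin_cases j <;>
    simp only [Matrix.mul_apply, Fin.sum_univ_three, Matrix.of_apply, Matrix.cons_val',
      Matrix.cons_val_zero, Matrix.cons_val_one, Matrix.cons_val, Matrix.cons_val_fin_one,
      Matrix.one_apply, Fin.zero_eta, Fin.mk_one, Fin.reduceFinMk, Fin.isValue, Fin.reduceEq,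
      if_true, if_false]
  · linear_combination ((2/7) * c ^ 1) * h
  · linear_combination ((1/7) * c ^ 0 + (-2/7) * c ^ 1) * h
  · linear_combination ((2/7) * c ^ 0 + (2/7) * c ^ 1) * h
  · linear_combination ((-2/7) * c ^ 0 + (-2/7) * c ^ 1) * h
  · linear_combination ((2/7) * c ^ 1) * h
  · linear_combination ((1/7) * c ^ 0 + (-2/7) * c ^ 1) * h
  · linear_combination ((-1/7) * c ^ 0 + (2/7) * c ^ 1) * h
  · linear_combination ((-2/7) * c ^ 0 + (-2/7) * c ^ 1) * h
  · linear_combination ((2/7) * c ^ 1) * h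

lemma th_ti7 (i : Fin 3) : th7 i * ti7 i = 1 := by
  have h := Upper.c_root
  unfold th7 ti7
  generalize Upper.c = c at *
  fin_cases i <;>
    simp only [Matrix.cons_val_zero, Matrix.cons_val_one, Matrix.cons_val, Fin.zero_eta,
      Fin.mk_one, Fin.reduceFinMk, Fin.isValue]
  · linear_combination ((1) * c ^ 0) * h
  · linear_combination ((-1) * c ^ 0) * h
  · linear_combination ((1) * c ^ 1) * h

lemma ratio7 : 4 ≤ |th7 2 * ti7 1| := by
  have h := Upper.c_root
  have h1 := c7_lo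
  have h2 := c7_hi
  have h3 := c7_sq_lo
  have h4 := c7_sq_hi
  have e : th7 2 * ti7 1 = ((2) * Upper.c ^ 1 + (1) * Upper.c ^ 2) := by
    unfold th7 ti7
    generalize Upper.c = c at *
    simp only [Matrix.cons_val_zero, Matrix.cons_val_one, Matrix.cons_val, Fin.isValue]
    linear_combination ((1) * c ^ 0) * h
  rw [e]
  refine le_trans ?_ (le_abs_self _)
  linarith

/-- Integer matrices of the units. -/
def EM7 : Fin 3 → Matrix (Fin 3) (Fin 3) ℤ :=
  ![Matrix.of ![![0, -1, -1], ![-1, 0, 0], ![-1, 0, -1]],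
    Matrix.of ![![0, 0, 1], ![0, -1, 1], ![1, 1, 0]],
    Matrix.of ![![-1, 1, 0], ![1, 0, -1], ![0, -1, 0]]]

/-- Integer matrices of the units. -/
def EI7 : Fin 3 → Matrix (Fin 3) (Fin 3) ℤ :=
  ![Matrix.of ![![0, -1, 0], ![-1, -1, 1], ![0, 1, -1]],
    Matrix.of ![![-1, 1, 1], ![1, -1, 0], ![1, 0, 0]],
    Matrix.of ![![-1, 0, -1], ![0, 0, -1], ![-1, -1, -1]]]

lemma EM_EI7 (k : Fin 3) : EM7 k * EI7 k = 1 := by
  revert k
  decide

lemma EM_unit7 (k : Fin 3) : IsUnit (EM7 k).det := by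
  have := congrArg Matrix.det (EM_EI7 k)
  rw [Matrix.det_mul, Matrix.det_one] at this
  exact IsUnit.of_mul_eq_one _ this

lemma EI_unit7 (k : Fin 3) : IsUnit (EI7 k).det := by
  have := congrArg Matrix.det (EM_EI7 k)
  rw [Matrix.det_mul, Matrix.det_one, mul_comm] at this
  exact IsUnit.of_mul_eq_one _ this

lemma EM_B7 (k i l : Fin 3) : ∑ m, Bs p7 q7 r7 i m * (EM7 k m l : ℝ) =
    th7 (i + k) * Bs p7 q7 r7 i l := by
  have h := Upper.c_root
  unfold Bs EM7 th7 p7 q7 r7
  generalize Upper.c = c at *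
  fin_cases k <;> fin_cases i <;> fin_cases l <;>
    simp only [Fin.sum_univ_three, Matrix.of_apply, Matrix.cons_val',
      Matrix.cons_val_zero, Matrix.cons_val_one, Matrix.cons_val, Matrix.cons_val_fin_one,
      Fin.zero_eta, Fin.mk_one, Fin.reduceFinMk, Fin.isValue, Fin.reduceAdd, Int.cast_zero,
      Int.cast_one, Int.cast_neg, Int.cast_ofNat]
  · linear_combination ((-1/7) * c ^ 0) * h
  · linear_combination ((1/7) * c ^ 0) * h
  · linear_combination ((-1/7) * c ^ 0) * h
  · linear_combination ((-2/7) * c ^ 0 + (1/7) * c ^ 1) * h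
  · linear_combination ((-1/7) * c ^ 1) * h
  · linear_combination ((1/7) * c ^ 0 + (1/7) * c ^ 1) * h
  · linear_combination ((2/7) * c ^ 0 + (1/7) * c ^ 1) * h
  · linear_combination ((1/7) * c ^ 0 + (-1/7) * c ^ 1) * h
  · linear_combination ((1/7) * c ^ 0 + (1/7) * c ^ 1) * h
  · linear_combination ((-1/7) * c ^ 1) * h
  · linear_combination ((1/7) * c ^ 0 + (1/7) * c ^ 1) * h
  · linear_combination ((2/7) * c ^ 0 + (-1/7) * c ^ 1) * h
  · linear_combination ((1/7) * c ^ 0 + (-1/7) * c ^ 1) * h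
  · linear_combination ((1/7) * c ^ 0 + (1/7) * c ^ 1) * h
  · linear_combination ((-2/7) * c ^ 0 + (-1/7) * c ^ 1) * h
  · linear_combination ((-1/7) * c ^ 0) * h
  · linear_combination ((1/7) * c ^ 0) * h
  · linear_combination ((-1/7) * c ^ 0) * h
  · linear_combination ((1/7) * c ^ 0 + (1/7) * c ^ 1) * h
  · linear_combination ((-2/7) * c ^ 0 + (-1/7) * c ^ 1) * h
  · linear_combination ((-1/7) * c ^ 0 + (1/7) * c ^ 1) * h
  · linear_combination ((1/7) * c ^ 0) * h
  · linear_combination ((-1/7) * c ^ 0) * h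
  · linear_combination ((1/7) * c ^ 0) * h
  · linear_combination ((-1/7) * c ^ 0 + (-1/7) * c ^ 1) * h
  · linear_combination ((-2/7) * c ^ 0 + (1/7) * c ^ 1) * h
  · linear_combination ((-1/7) * c ^ 1) * h

lemma EI_B7 (k i l : Fin 3) : ∑ m, Bs p7 q7 r7 i m * (EI7 k m l : ℝ) =
    ti7 (i + k) * Bs p7 q7 r7 i l := by
  have h := Upper.c_root
  unfold Bs EI7 ti7 p7 q7 r7
  generalize Upper.c = c at *
  fin_cases k <;> fin_cases i <;> fin_cases l <;>
    simp only [Fin.sum_univ_three, Matrix.of_apply, Matrix.cons_val',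
      Matrix.cons_val_zero, Matrix.cons_val_one, Matrix.cons_val, Matrix.cons_val_fin_one,
      Fin.zero_eta, Fin.mk_one, Fin.reduceFinMk, Fin.isValue, Fin.reduceAdd, Int.cast_zero,
      Int.cast_one, Int.cast_neg, Int.cast_ofNat]
  · linear_combination ((-1/7) * c ^ 0 + (-1/7) * c ^ 1) * h
  · linear_combination ((2/7) * c ^ 0 + (1/7) * c ^ 1) * h
  · linear_combination ((1/7) * c ^ 0 + (-1/7) * c ^ 1) * h
  · linear_combination ((-1/7) * c ^ 0) * h
  · linear_combination ((1/7) * c ^ 0) * h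
  · linear_combination ((-1/7) * c ^ 0) * h
  · linear_combination ((1/7) * c ^ 0 + (1/7) * c ^ 1) * h
  · linear_combination ((2/7) * c ^ 0 + (-1/7) * c ^ 1) * h
  · linear_combination ((1/7) * c ^ 1) * h
  · linear_combination ((1/7) * c ^ 0) * h
  · linear_combination ((-1/7) * c ^ 0) * h
  · linear_combination ((1/7) * c ^ 0) * h
  · linear_combination ((2/7) * c ^ 0 + (-1/7) * c ^ 1) * h
  · linear_combination ((1/7) * c ^ 1) * h
  · linear_combination ((-1/7) * c ^ 0 + (-1/7) * c ^ 1) * h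
  · linear_combination ((-2/7) * c ^ 0 + (-1/7) * c ^ 1) * h
  · linear_combination ((-1/7) * c ^ 0 + (1/7) * c ^ 1) * h
  · linear_combination ((-1/7) * c ^ 0 + (-1/7) * c ^ 1) * h
  · linear_combination ((1/7) * c ^ 1) * h
  · linear_combination ((-1/7) * c ^ 0 + (-1/7) * c ^ 1) * h
  · linear_combination ((-2/7) * c ^ 0 + (1/7) * c ^ 1) * h
  · linear_combination ((-1/7) * c ^ 0 + (1/7) * c ^ 1) * h
  · linear_combination ((-1/7) * c ^ 0 + (-1/7) * c ^ 1) * h
  · linear_combination ((2/7) * c ^ 0 + (1/7) * c ^ 1) * h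
  · linear_combination ((1/7) * c ^ 0) * h
  · linear_combination ((-1/7) * c ^ 0) * h
  · linear_combination ((1/7) * c ^ 0) * h

lemma stEM7_0 {V : Matrix (Fin 3) (Fin 3) ℝ} (hV : Nrm V) (hc : InE0 V) :
    (∀ j, crd V (EM7 0 j) j ≠ 0) ∧ Nrm (nz V (EM7 0)) ∧ Pat (3 / 5) (1) (nz V (EM7 0)) ∧
      Big (3 / 4) (nz V (EM7 0)) := by
  have a0 := hc.a0; have b0 := hc.b0; have a1 := hc.a1; have b1 := hc.b1
  have a2 := hc.a2; have b2 := hc.b2; have a3 := hc.a3; have b3 := hc.b3
  have a4 := hc.a4; have b4 := hc.b4; have a5 := hc.a5; have b5 := hc.b5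
  norm_num at a0 b0 a1 b1 a2 b2 a3 b3 a4 b4 a5 b5
  have h00 : (1 : ℝ) * crd V (EM7 0 0) 0 = (-1) * V 1 0 + (-1) * V 2 0 := by
    rw [crd_three]
    simp only [EM7, Matrix.of_apply, Matrix.cons_val', Matrix.cons_val_zero,
      Matrix.cons_val_one, Matrix.cons_val, Matrix.cons_val_fin_one, Fin.isValue, Int.cast_zero,
      Int.cast_one, Int.cast_neg, Int.cast_ofNat]
    linear_combination (0) * hV.diag 0
  have h10 : (1 : ℝ) * crd V (EM7 0 1) 0 = (-1) := by
    rw [crd_three]
    simp only [EM7, Matrix.of_apply, Matrix.cons_val', Matrix.cons_val_zero,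
      Matrix.cons_val_one, Matrix.cons_val, Matrix.cons_val_fin_one, Fin.isValue, Int.cast_zero,
      Int.cast_one, Int.cast_neg, Int.cast_ofNat]
    linear_combination (-1) * hV.diag 0
  have h20 : (1 : ℝ) * crd V (EM7 0 2) 0 = (-1) + (-1) * V 2 0 := by
    rw [crd_three]
    simp only [EM7, Matrix.of_apply, Matrix.cons_val', Matrix.cons_val_zero,
      Matrix.cons_val_one, Matrix.cons_val, Matrix.cons_val_fin_one, Fin.isValue, Int.cast_zero,
      Int.cast_one, Int.cast_neg, Int.cast_ofNat]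
    linear_combination (-1) * hV.diag 0
  have h01 : (-1 : ℝ) * crd V (EM7 0 0) 1 = (1) + (1) * V 2 1 := by
    rw [crd_three]
    simp only [EM7, Matrix.of_apply, Matrix.cons_val', Matrix.cons_val_zero,
      Matrix.cons_val_one, Matrix.cons_val, Matrix.cons_val_fin_one, Fin.isValue, Int.cast_zero,
      Int.cast_one, Int.cast_neg, Int.cast_ofNat]
    linear_combination (1) * hV.diag 1
  have h11 : (-1 : ℝ) * crd V (EM7 0 1) 1 = (1) * V 0 1 := by
    rw [crd_three]
    simp only [EM7, Matrix.of_apply, Matrix.cons_val', Matrix.cons_val_zero,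
      Matrix.cons_val_one, Matrix.cons_val, Matrix.cons_val_fin_one, Fin.isValue, Int.cast_zero,
      Int.cast_one, Int.cast_neg, Int.cast_ofNat]
    linear_combination (0) * hV.diag 1
  have h21 : (-1 : ℝ) * crd V (EM7 0 2) 1 = (1) * V 0 1 + (1) * V 2 1 := by
    rw [crd_three]
    simp only [EM7, Matrix.of_apply, Matrix.cons_val', Matrix.cons_val_zero,
      Matrix.cons_val_one, Matrix.cons_val, Matrix.cons_val_fin_one, Fin.isValue, Int.cast_zero,
      Int.cast_one, Int.cast_neg, Int.cast_ofNat]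
    linear_combination (0) * hV.diag 1
  have h02 : (-1 : ℝ) * crd V (EM7 0 0) 2 = (1) * V 1 2 + (1) := by
    rw [crd_three]
    simp only [EM7, Matrix.of_apply, Matrix.cons_val', Matrix.cons_val_zero,
      Matrix.cons_val_one, Matrix.cons_val, Matrix.cons_val_fin_one, Fin.isValue, Int.cast_zero,
      Int.cast_one, Int.cast_neg, Int.cast_ofNat]
    linear_combination (1) * hV.diag 2
  have h12 : (-1 : ℝ) * crd V (EM7 0 1) 2 = (1) * V 0 2 := by
    rw [crd_three]
    simp only [EM7, Matrix.of_apply, Matrix.cons_val', Matrix.cons_val_zero,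
      Matrix.cons_val_one, Matrix.cons_val, Matrix.cons_val_fin_one, Fin.isValue, Int.cast_zero,
      Int.cast_one, Int.cast_neg, Int.cast_ofNat]
    linear_combination (0) * hV.diag 2
  have h22 : (-1 : ℝ) * crd V (EM7 0 2) 2 = (1) * V 0 2 + (1) := by
    rw [crd_three]
    simp only [EM7, Matrix.of_apply, Matrix.cons_val', Matrix.cons_val_zero,
      Matrix.cons_val_one, Matrix.cons_val, Matrix.cons_val_fin_one, Fin.isValue, Int.cast_zero,
      Int.cast_one, Int.cast_neg, Int.cast_ofNat]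
    linear_combination (1) * hV.diag 2
  have g0 : crd V ![0, -1, -1] 0 = (-1) * V 1 0 + (-1) * V 2 0 := by
    rw [crd_three]
    simp only [Matrix.cons_val_zero, Matrix.cons_val_one, Matrix.cons_val, Fin.isValue,
      Int.cast_zero, Int.cast_one, Int.cast_neg, Int.cast_ofNat]
    linear_combination (0) * hV.diag 0
  have g1 : crd V ![1, 0, 0] 1 = (1) * V 0 1 := by
    rw [crd_three]
    simp only [Matrix.cons_val_zero, Matrix.cons_val_one, Matrix.cons_val, Fin.isValue,
      Int.cast_zero, Int.cast_one, Int.cast_neg, Int.cast_ofNat]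
    linear_combination (0) * hV.diag 1
  have g2 : crd V ![1, 0, 1] 2 = (1) * V 0 2 + (1) := by
    rw [crd_three]
    simp only [Matrix.cons_val_zero, Matrix.cons_val_one, Matrix.cons_val, Fin.isValue,
      Int.cast_zero, Int.cast_one, Int.cast_neg, Int.cast_ofNat]
    linear_combination (1) * hV.diag 2
  have p0 : 0 < (-1) * V 1 0 + (-1) * V 2 0 := by linarith
  have p1 : 0 < (1) * V 0 1 := by linarith
  have p2 : 0 < (1) * V 0 2 + (1) := by linarith
  have hE := box_empty hV hc (c := 393451486758021885434994933348881596418)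
    (by norm_num) (by norm_num) (by norm_num) (by norm_num) (by norm_num) (by norm_num)
    (by norm_num) (by norm_num) (by norm_num) (by norm_num) (by norm_num) (by norm_num)
    (w0 := 0) (w1 := 146) (w2 := 147) (n0 := ![0, -1, -1]) (n1 := ![1, 0, 0]) (n2 := ![1, 0, 1])
    (by decide +kernel) (by decide +kernel) (by decide +kernel) (by decide +kernel)
    (by decide +kernel) (by decide +kernel) (by decide +kernel) g0 g1 g2 p0 p1 p2
  refine step_of hV.det_ne (EM_unit7 0) (by norm_num) (by norm_num)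
    (Or.inl rfl) (Or.inr rfl) (Or.inr rfl) h00 h10 h20 h01 h11 h21 h02 h12 h22 p0 p1 p2 hE
    ?_ ?_ ?_ ?_ ?_ ?_ ?_ ?_ ?_ ?_ ?_ ?_ (Or.inl ?_)
  all_goals linarith

lemma stEM7_1 {V : Matrix (Fin 3) (Fin 3) ℝ} (hV : Nrm V) (hc : InE0 V) :
    (∀ j, crd V (EM7 1 j) j ≠ 0) ∧ Nrm (nz V (EM7 1)) ∧ Pat (3 / 5) (1) (nz V (EM7 1)) ∧
      Big (3 / 4) (nz V (EM7 1)) := by
  have a0 := hc.a0; have b0 := hc.b0; have a1 := hc.a1; have b1 := hc.b1
  have a2 := hc.a2; have b2 := hc.b2; have a3 := hc.a3; have b3 := hc.b3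
  have a4 := hc.a4; have b4 := hc.b4; have a5 := hc.a5; have b5 := hc.b5
  norm_num at a0 b0 a1 b1 a2 b2 a3 b3 a4 b4 a5 b5
  have h00 : (-1 : ℝ) * crd V (EM7 1 0) 0 = (-1) * V 2 0 := by
    rw [crd_three]
    simp only [EM7, Matrix.of_apply, Matrix.cons_val', Matrix.cons_val_zero,
      Matrix.cons_val_one, Matrix.cons_val, Matrix.cons_val_fin_one, Fin.isValue, Int.cast_zero,
      Int.cast_one, Int.cast_neg, Int.cast_ofNat]
    linear_combination (0) * hV.diag 0
  have h10 : (-1 : ℝ) * crd V (EM7 1 1) 0 = (1) * V 1 0 + (-1) * V 2 0 := by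
    rw [crd_three]
    simp only [EM7, Matrix.of_apply, Matrix.cons_val', Matrix.cons_val_zero,
      Matrix.cons_val_one, Matrix.cons_val, Matrix.cons_val_fin_one, Fin.isValue, Int.cast_zero,
      Int.cast_one, Int.cast_neg, Int.cast_ofNat]
    linear_combination (0) * hV.diag 0
  have h20 : (-1 : ℝ) * crd V (EM7 1 2) 0 = (-1) + (-1) * V 1 0 := by
    rw [crd_three]
    simp only [EM7, Matrix.of_apply, Matrix.cons_val', Matrix.cons_val_zero,
      Matrix.cons_val_one, Matrix.cons_val, Matrix.cons_val_fin_one, Fin.isValue, Int.cast_zero,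
      Int.cast_one, Int.cast_neg, Int.cast_ofNat]
    linear_combination (-1) * hV.diag 0
  have h01 : (-1 : ℝ) * crd V (EM7 1 0) 1 = (-1) * V 2 1 := by
    rw [crd_three]
    simp only [EM7, Matrix.of_apply, Matrix.cons_val', Matrix.cons_val_zero,
      Matrix.cons_val_one, Matrix.cons_val, Matrix.cons_val_fin_one, Fin.isValue, Int.cast_zero,
      Int.cast_one, Int.cast_neg, Int.cast_ofNat]
    linear_combination (0) * hV.diag 1
  have h11 : (-1 : ℝ) * crd V (EM7 1 1) 1 = (1) + (-1) * V 2 1 := by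
    rw [crd_three]
    simp only [EM7, Matrix.of_apply, Matrix.cons_val', Matrix.cons_val_zero,
      Matrix.cons_val_one, Matrix.cons_val, Matrix.cons_val_fin_one, Fin.isValue, Int.cast_zero,
      Int.cast_one, Int.cast_neg, Int.cast_ofNat]
    linear_combination (1) * hV.diag 1
  have h21 : (-1 : ℝ) * crd V (EM7 1 2) 1 = (-1) * V 0 1 + (-1) := by
    rw [crd_three]
    simp only [EM7, Matrix.of_apply, Matrix.cons_val', Matrix.cons_val_zero,
      Matrix.cons_val_one, Matrix.cons_val, Matrix.cons_val_fin_one, Fin.isValue, Int.cast_zero,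
      Int.cast_one, Int.cast_neg, Int.cast_ofNat]
    linear_combination (-1) * hV.diag 1
  have h02 : (1 : ℝ) * crd V (EM7 1 0) 2 = (1) := by
    rw [crd_three]
    simp only [EM7, Matrix.of_apply, Matrix.cons_val', Matrix.cons_val_zero,
      Matrix.cons_val_one, Matrix.cons_val, Matrix.cons_val_fin_one, Fin.isValue, Int.cast_zero,
      Int.cast_one, Int.cast_neg, Int.cast_ofNat]
    linear_combination (1) * hV.diag 2
  have h12 : (1 : ℝ) * crd V (EM7 1 1) 2 = (-1) * V 1 2 + (1) := by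
    rw [crd_three]
    simp only [EM7, Matrix.of_apply, Matrix.cons_val', Matrix.cons_val_zero,
      Matrix.cons_val_one, Matrix.cons_val, Matrix.cons_val_fin_one, Fin.isValue, Int.cast_zero,
      Int.cast_one, Int.cast_neg, Int.cast_ofNat]
    linear_combination (1) * hV.diag 2
  have h22 : (1 : ℝ) * crd V (EM7 1 2) 2 = (1) * V 0 2 + (1) * V 1 2 := by
    rw [crd_three]
    simp only [EM7, Matrix.of_apply, Matrix.cons_val', Matrix.cons_val_zero,
      Matrix.cons_val_one, Matrix.cons_val, Matrix.cons_val_fin_one, Fin.isValue, Int.cast_zero,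
      Int.cast_one, Int.cast_neg, Int.cast_ofNat]
    linear_combination (0) * hV.diag 2
  have g0 : crd V ![0, 0, -1] 0 = (-1) * V 2 0 := by
    rw [crd_three]
    simp only [Matrix.cons_val_zero, Matrix.cons_val_one, Matrix.cons_val, Fin.isValue,
      Int.cast_zero, Int.cast_one, Int.cast_neg, Int.cast_ofNat]
    linear_combination (0) * hV.diag 0
  have g1 : crd V ![0, 1, -1] 1 = (1) + (-1) * V 2 1 := by
    rw [crd_three]
    simp only [Matrix.cons_val_zero, Matrix.cons_val_one, Matrix.cons_val, Fin.isValue,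
      Int.cast_zero, Int.cast_one, Int.cast_neg, Int.cast_ofNat]
    linear_combination (1) * hV.diag 1
  have g2 : crd V ![1, 1, 0] 2 = (1) * V 0 2 + (1) * V 1 2 := by
    rw [crd_three]
    simp only [Matrix.cons_val_zero, Matrix.cons_val_one, Matrix.cons_val, Fin.isValue,
      Int.cast_zero, Int.cast_one, Int.cast_neg, Int.cast_ofNat]
    linear_combination (0) * hV.diag 2
  have p0 : 0 < (-1) * V 2 0 := by linarith
  have p1 : 0 < (1) + (-1) * V 2 1 := by linarith
  have p2 : 0 < (1) * V 0 2 + (1) * V 1 2 := by linarith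
  have hE := box_empty hV hc (c := 7975367980396282292972551277191954434)
    (by norm_num) (by norm_num) (by norm_num) (by norm_num) (by norm_num) (by norm_num)
    (by norm_num) (by norm_num) (by norm_num) (by norm_num) (by norm_num) (by norm_num)
    (w0 := 145) (w1 := 146) (w2 := 2) (n0 := ![0, 0, -1]) (n1 := ![0, 1, -1]) (n2 := ![1, 1, 0])
    (by decide +kernel) (by decide +kernel) (by decide +kernel) (by decide +kernel)
    (by decide +kernel) (by decide +kernel) (by decide +kernel) g0 g1 g2 p0 p1 p2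
  refine step_of hV.det_ne (EM_unit7 1) (by norm_num) (by norm_num)
    (Or.inr rfl) (Or.inr rfl) (Or.inl rfl) h00 h10 h20 h01 h11 h21 h02 h12 h22 p0 p1 p2 hE
    ?_ ?_ ?_ ?_ ?_ ?_ ?_ ?_ ?_ ?_ ?_ ?_ (Or.inr (Or.inr ?_))
  all_goals linarith

lemma stEM7_2 {V : Matrix (Fin 3) (Fin 3) ℝ} (hV : Nrm V) (hc : InE0 V) :
    (∀ j, crd V (EM7 2 j) j ≠ 0) ∧ Nrm (nz V (EM7 2)) ∧ Pat (3 / 5) (1) (nz V (EM7 2)) ∧
      Big (3 / 4) (nz V (EM7 2)) := by
  have a0 := hc.a0; have b0 := hc.b0; have a1 := hc.a1; have b1 := hc.b1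
  have a2 := hc.a2; have b2 := hc.b2; have a3 := hc.a3; have b3 := hc.b3
  have a4 := hc.a4; have b4 := hc.b4; have a5 := hc.a5; have b5 := hc.b5
  norm_num at a0 b0 a1 b1 a2 b2 a3 b3 a4 b4 a5 b5
  have h00 : (-1 : ℝ) * crd V (EM7 2 0) 0 = (1) + (-1) * V 1 0 := by
    rw [crd_three]
    simp only [EM7, Matrix.of_apply, Matrix.cons_val', Matrix.cons_val_zero,
      Matrix.cons_val_one, Matrix.cons_val, Matrix.cons_val_fin_one, Fin.isValue, Int.cast_zero,
      Int.cast_one, Int.cast_neg, Int.cast_ofNat]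
    linear_combination (1) * hV.diag 0
  have h10 : (-1 : ℝ) * crd V (EM7 2 1) 0 = (-1) + (1) * V 2 0 := by
    rw [crd_three]
    simp only [EM7, Matrix.of_apply, Matrix.cons_val', Matrix.cons_val_zero,
      Matrix.cons_val_one, Matrix.cons_val, Matrix.cons_val_fin_one, Fin.isValue, Int.cast_zero,
      Int.cast_one, Int.cast_neg, Int.cast_ofNat]
    linear_combination (-1) * hV.diag 0
  have h20 : (-1 : ℝ) * crd V (EM7 2 2) 0 = (1) * V 1 0 := by
    rw [crd_three]
    simp only [EM7, Matrix.of_apply, Matrix.cons_val', Matrix.cons_val_zero,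
      Matrix.cons_val_one, Matrix.cons_val, Matrix.cons_val_fin_one, Fin.isValue, Int.cast_zero,
      Int.cast_one, Int.cast_neg, Int.cast_ofNat]
    linear_combination (0) * hV.diag 0
  have h01 : (1 : ℝ) * crd V (EM7 2 0) 1 = (-1) * V 0 1 + (1) := by
    rw [crd_three]
    simp only [EM7, Matrix.of_apply, Matrix.cons_val', Matrix.cons_val_zero,
      Matrix.cons_val_one, Matrix.cons_val, Matrix.cons_val_fin_one, Fin.isValue, Int.cast_zero,
      Int.cast_one, Int.cast_neg, Int.cast_ofNat]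
    linear_combination (1) * hV.diag 1
  have h11 : (1 : ℝ) * crd V (EM7 2 1) 1 = (1) * V 0 1 + (-1) * V 2 1 := by
    rw [crd_three]
    simp only [EM7, Matrix.of_apply, Matrix.cons_val', Matrix.cons_val_zero,
      Matrix.cons_val_one, Matrix.cons_val, Matrix.cons_val_fin_one, Fin.isValue, Int.cast_zero,
      Int.cast_one, Int.cast_neg, Int.cast_ofNat]
    linear_combination (0) * hV.diag 1
  have h21 : (1 : ℝ) * crd V (EM7 2 2) 1 = (-1) := by
    rw [crd_three]
    simp only [EM7, Matrix.of_apply, Matrix.cons_val', Matrix.cons_val_zero,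
      Matrix.cons_val_one, Matrix.cons_val, Matrix.cons_val_fin_one, Fin.isValue, Int.cast_zero,
      Int.cast_one, Int.cast_neg, Int.cast_ofNat]
    linear_combination (-1) * hV.diag 1
  have h02 : (-1 : ℝ) * crd V (EM7 2 0) 2 = (1) * V 0 2 + (-1) * V 1 2 := by
    rw [crd_three]
    simp only [EM7, Matrix.of_apply, Matrix.cons_val', Matrix.cons_val_zero,
      Matrix.cons_val_one, Matrix.cons_val, Matrix.cons_val_fin_one, Fin.isValue, Int.cast_zero,
      Int.cast_one, Int.cast_neg, Int.cast_ofNat]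
    linear_combination (0) * hV.diag 2
  have h12 : (-1 : ℝ) * crd V (EM7 2 1) 2 = (-1) * V 0 2 + (1) := by
    rw [crd_three]
    simp only [EM7, Matrix.of_apply, Matrix.cons_val', Matrix.cons_val_zero,
      Matrix.cons_val_one, Matrix.cons_val, Matrix.cons_val_fin_one, Fin.isValue, Int.cast_zero,
      Int.cast_one, Int.cast_neg, Int.cast_ofNat]
    linear_combination (1) * hV.diag 2
  have h22 : (-1 : ℝ) * crd V (EM7 2 2) 2 = (1) * V 1 2 := by
    rw [crd_three]
    simp only [EM7, Matrix.of_apply, Matrix.cons_val', Matrix.cons_val_zero,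
      Matrix.cons_val_one, Matrix.cons_val, Matrix.cons_val_fin_one, Fin.isValue, Int.cast_zero,
      Int.cast_one, Int.cast_neg, Int.cast_ofNat]
    linear_combination (0) * hV.diag 2
  have g0 : crd V ![1, -1, 0] 0 = (1) + (-1) * V 1 0 := by
    rw [crd_three]
    simp only [Matrix.cons_val_zero, Matrix.cons_val_one, Matrix.cons_val, Fin.isValue,
      Int.cast_zero, Int.cast_one, Int.cast_neg, Int.cast_ofNat]
    linear_combination (1) * hV.diag 0
  have g1 : crd V ![1, 0, -1] 1 = (1) * V 0 1 + (-1) * V 2 1 := by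
    rw [crd_three]
    simp only [Matrix.cons_val_zero, Matrix.cons_val_one, Matrix.cons_val, Fin.isValue,
      Int.cast_zero, Int.cast_one, Int.cast_neg, Int.cast_ofNat]
    linear_combination (0) * hV.diag 1
  have g2 : crd V ![0, 1, 0] 2 = (1) * V 1 2 := by
    rw [crd_three]
    simp only [Matrix.cons_val_zero, Matrix.cons_val_one, Matrix.cons_val, Fin.isValue,
      Int.cast_zero, Int.cast_one, Int.cast_neg, Int.cast_ofNat]
    linear_combination (0) * hV.diag 2
  have p0 : 0 < (1) + (-1) * V 1 0 := by linarith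
  have p1 : 0 < (1) * V 0 1 + (-1) * V 2 1 := by linarith
  have p2 : 0 < (1) * V 1 2 := by linarith
  have hE := box_empty hV hc (c := 393451486752412469632064714835758342146)
    (by norm_num) (by norm_num) (by norm_num) (by norm_num) (by norm_num) (by norm_num)
    (by norm_num) (by norm_num) (by norm_num) (by norm_num) (by norm_num) (by norm_num)
    (w0 := 145) (w1 := 1) (w2 := 147) (n0 := ![1, -1, 0]) (n1 := ![1, 0, -1]) (n2 := ![0, 1, 0])
    (by decide +kernel) (by decide +kernel) (by decide +kernel) (by decide +kernel)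
    (by decide +kernel) (by decide +kernel) (by decide +kernel) g0 g1 g2 p0 p1 p2
  refine step_of hV.det_ne (EM_unit7 2) (by norm_num) (by norm_num)
    (Or.inr rfl) (Or.inl rfl) (Or.inr rfl) h00 h10 h20 h01 h11 h21 h02 h12 h22 p0 p1 p2 hE
    ?_ ?_ ?_ ?_ ?_ ?_ ?_ ?_ ?_ ?_ ?_ ?_ (Or.inr (Or.inl ?_))
  all_goals linarith

lemma stEI7_0 {V : Matrix (Fin 3) (Fin 3) ℝ} (hV : Nrm V) (hc : InE0 V) :
    (∀ j, crd V (EI7 0 j) j ≠ 0) ∧ Nrm (nz V (EI7 0)) ∧ Pat (3 / 5) (1) (nz V (EI7 0)) ∧
      Big (3 / 4) (nz V (EI7 0)) := by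
  have a0 := hc.a0; have b0 := hc.b0; have a1 := hc.a1; have b1 := hc.b1
  have a2 := hc.a2; have b2 := hc.b2; have a3 := hc.a3; have b3 := hc.b3
  have a4 := hc.a4; have b4 := hc.b4; have a5 := hc.a5; have b5 := hc.b5
  norm_num at a0 b0 a1 b1 a2 b2 a3 b3 a4 b4 a5 b5
  have h00 : (1 : ℝ) * crd V (EI7 0 0) 0 = (-1) * V 1 0 := by
    rw [crd_three]
    simp only [EI7, Matrix.of_apply, Matrix.cons_val', Matrix.cons_val_zero,
      Matrix.cons_val_one, Matrix.cons_val, Matrix.cons_val_fin_one, Fin.isValue, Int.cast_zero,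
      Int.cast_one, Int.cast_neg, Int.cast_ofNat]
    linear_combination (0) * hV.diag 0
  have h10 : (1 : ℝ) * crd V (EI7 0 1) 0 = (-1) + (-1) * V 1 0 + (1) * V 2 0 := by
    rw [crd_three]
    simp only [EI7, Matrix.of_apply, Matrix.cons_val', Matrix.cons_val_zero,
      Matrix.cons_val_one, Matrix.cons_val, Matrix.cons_val_fin_one, Fin.isValue, Int.cast_zero,
      Int.cast_one, Int.cast_neg, Int.cast_ofNat]
    linear_combination (-1) * hV.diag 0
  have h20 : (1 : ℝ) * crd V (EI7 0 2) 0 = (1) * V 1 0 + (-1) * V 2 0 := by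
    rw [crd_three]
    simp only [EI7, Matrix.of_apply, Matrix.cons_val', Matrix.cons_val_zero,
      Matrix.cons_val_one, Matrix.cons_val, Matrix.cons_val_fin_one, Fin.isValue, Int.cast_zero,
      Int.cast_one, Int.cast_neg, Int.cast_ofNat]
    linear_combination (0) * hV.diag 0
  have h01 : (-1 : ℝ) * crd V (EI7 0 0) 1 = (1) := by
    rw [crd_three]
    simp only [EI7, Matrix.of_apply, Matrix.cons_val', Matrix.cons_val_zero,
      Matrix.cons_val_one, Matrix.cons_val, Matrix.cons_val_fin_one, Fin.isValue, Int.cast_zero,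
      Int.cast_one, Int.cast_neg, Int.cast_ofNat]
    linear_combination (1) * hV.diag 1
  have h11 : (-1 : ℝ) * crd V (EI7 0 1) 1 = (1) * V 0 1 + (1) + (-1) * V 2 1 := by
    rw [crd_three]
    simp only [EI7, Matrix.of_apply, Matrix.cons_val', Matrix.cons_val_zero,
      Matrix.cons_val_one, Matrix.cons_val, Matrix.cons_val_fin_one, Fin.isValue, Int.cast_zero,
      Int.cast_one, Int.cast_neg, Int.cast_ofNat]
    linear_combination (1) * hV.diag 1
  have h21 : (-1 : ℝ) * crd V (EI7 0 2) 1 = (-1) + (1) * V 2 1 := by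
    rw [crd_three]
    simp only [EI7, Matrix.of_apply, Matrix.cons_val', Matrix.cons_val_zero,
      Matrix.cons_val_one, Matrix.cons_val, Matrix.cons_val_fin_one, Fin.isValue, Int.cast_zero,
      Int.cast_one, Int.cast_neg, Int.cast_ofNat]
    linear_combination (-1) * hV.diag 1
  have h02 : (-1 : ℝ) * crd V (EI7 0 0) 2 = (1) * V 1 2 := by
    rw [crd_three]
    simp only [EI7, Matrix.of_apply, Matrix.cons_val', Matrix.cons_val_zero,
      Matrix.cons_val_one, Matrix.cons_val, Matrix.cons_val_fin_one, Fin.isValue, Int.cast_zero,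
      Int.cast_one, Int.cast_neg, Int.cast_ofNat]
    linear_combination (0) * hV.diag 2
  have h12 : (-1 : ℝ) * crd V (EI7 0 1) 2 = (1) * V 0 2 + (1) * V 1 2 + (-1) := by
    rw [crd_three]
    simp only [EI7, Matrix.of_apply, Matrix.cons_val', Matrix.cons_val_zero,
      Matrix.cons_val_one, Matrix.cons_val, Matrix.cons_val_fin_one, Fin.isValue, Int.cast_zero,
      Int.cast_one, Int.cast_neg, Int.cast_ofNat]
    linear_combination (-1) * hV.diag 2
  have h22 : (-1 : ℝ) * crd V (EI7 0 2) 2 = (-1) * V 1 2 + (1) := by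
    rw [crd_three]
    simp only [EI7, Matrix.of_apply, Matrix.cons_val', Matrix.cons_val_zero,
      Matrix.cons_val_one, Matrix.cons_val, Matrix.cons_val_fin_one, Fin.isValue, Int.cast_zero,
      Int.cast_one, Int.cast_neg, Int.cast_ofNat]
    linear_combination (1) * hV.diag 2
  have g0 : crd V ![0, -1, 0] 0 = (-1) * V 1 0 := by
    rw [crd_three]
    simp only [Matrix.cons_val_zero, Matrix.cons_val_one, Matrix.cons_val, Fin.isValue,
      Int.cast_zero, Int.cast_one, Int.cast_neg, Int.cast_ofNat]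
    linear_combination (0) * hV.diag 0
  have g1 : crd V ![1, 1, -1] 1 = (1) * V 0 1 + (1) + (-1) * V 2 1 := by
    rw [crd_three]
    simp only [Matrix.cons_val_zero, Matrix.cons_val_one, Matrix.cons_val, Fin.isValue,
      Int.cast_zero, Int.cast_one, Int.cast_neg, Int.cast_ofNat]
    linear_combination (1) * hV.diag 1
  have g2 : crd V ![0, -1, 1] 2 = (-1) * V 1 2 + (1) := by
    rw [crd_three]
    simp only [Matrix.cons_val_zero, Matrix.cons_val_one, Matrix.cons_val, Fin.isValue,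
      Int.cast_zero, Int.cast_one, Int.cast_neg, Int.cast_ofNat]
    linear_combination (1) * hV.diag 2
  have p0 : 0 < (-1) * V 1 0 := by linarith
  have p1 : 0 < (1) * V 0 1 + (1) + (-1) * V 2 1 := by linarith
  have p2 : 0 < (-1) * V 1 2 + (1) := by linarith
  have hE := box_empty hV hc (c := 393451486758021885434994935693398966274)
    (by norm_num) (by norm_num) (by norm_num) (by norm_num) (by norm_num) (by norm_num)
    (by norm_num) (by norm_num) (by norm_num) (by norm_num) (by norm_num) (by norm_num)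
    (w0 := 0) (w1 := 146) (w2 := 147) (n0 := ![0, -1, 0]) (n1 := ![1, 1, -1]) (n2 := ![0, -1, 1])
    (by decide +kernel) (by decide +kernel) (by decide +kernel) (by decide +kernel)
    (by decide +kernel) (by decide +kernel) (by decide +kernel) g0 g1 g2 p0 p1 p2
  refine step_of hV.det_ne (EI_unit7 0) (by norm_num) (by norm_num)
    (Or.inl rfl) (Or.inr rfl) (Or.inr rfl) h00 h10 h20 h01 h11 h21 h02 h12 h22 p0 p1 p2 hE
    ?_ ?_ ?_ ?_ ?_ ?_ ?_ ?_ ?_ ?_ ?_ ?_ (Or.inr (Or.inr ?_))
  all_goals linarith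

lemma stEI7_1 {V : Matrix (Fin 3) (Fin 3) ℝ} (hV : Nrm V) (hc : InE0 V) :
    (∀ j, crd V (EI7 1 j) j ≠ 0) ∧ Nrm (nz V (EI7 1)) ∧ Pat (3 / 5) (1) (nz V (EI7 1)) ∧
      Big (3 / 4) (nz V (EI7 1)) := by
  have a0 := hc.a0; have b0 := hc.b0; have a1 := hc.a1; have b1 := hc.b1
  have a2 := hc.a2; have b2 := hc.b2; have a3 := hc.a3; have b3 := hc.b3
  have a4 := hc.a4; have b4 := hc.b4; have a5 := hc.a5; have b5 := hc.b5
  norm_num at a0 b0 a1 b1 a2 b2 a3 b3 a4 b4 a5 b5
  have h00 : (-1 : ℝ) * crd V (EI7 1 0) 0 = (1) + (-1) * V 1 0 + (-1) * V 2 0 := by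
    rw [crd_three]
    simp only [EI7, Matrix.of_apply, Matrix.cons_val', Matrix.cons_val_zero,
      Matrix.cons_val_one, Matrix.cons_val, Matrix.cons_val_fin_one, Fin.isValue, Int.cast_zero,
      Int.cast_one, Int.cast_neg, Int.cast_ofNat]
    linear_combination (1) * hV.diag 0
  have h10 : (-1 : ℝ) * crd V (EI7 1 1) 0 = (-1) + (1) * V 1 0 := by
    rw [crd_three]
    simp only [EI7, Matrix.of_apply, Matrix.cons_val', Matrix.cons_val_zero,
      Matrix.cons_val_one, Matrix.cons_val, Matrix.cons_val_fin_one, Fin.isValue, Int.cast_zero,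
      Int.cast_one, Int.cast_neg, Int.cast_ofNat]
    linear_combination (-1) * hV.diag 0
  have h20 : (-1 : ℝ) * crd V (EI7 1 2) 0 = (-1) := by
    rw [crd_three]
    simp only [EI7, Matrix.of_apply, Matrix.cons_val', Matrix.cons_val_zero,
      Matrix.cons_val_one, Matrix.cons_val, Matrix.cons_val_fin_one, Fin.isValue, Int.cast_zero,
      Int.cast_one, Int.cast_neg, Int.cast_ofNat]
    linear_combination (-1) * hV.diag 0
  have h01 : (-1 : ℝ) * crd V (EI7 1 0) 1 = (1) * V 0 1 + (-1) + (-1) * V 2 1 := by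
    rw [crd_three]
    simp only [EI7, Matrix.of_apply, Matrix.cons_val', Matrix.cons_val_zero,
      Matrix.cons_val_one, Matrix.cons_val, Matrix.cons_val_fin_one, Fin.isValue, Int.cast_zero,
      Int.cast_one, Int.cast_neg, Int.cast_ofNat]
    linear_combination (-1) * hV.diag 1
  have h11 : (-1 : ℝ) * crd V (EI7 1 1) 1 = (-1) * V 0 1 + (1) := by
    rw [crd_three]
    simp only [EI7, Matrix.of_apply, Matrix.cons_val', Matrix.cons_val_zero,
      Matrix.cons_val_one, Matrix.cons_val, Matrix.cons_val_fin_one, Fin.isValue, Int.cast_zero,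
      Int.cast_one, Int.cast_neg, Int.cast_ofNat]
    linear_combination (1) * hV.diag 1
  have h21 : (-1 : ℝ) * crd V (EI7 1 2) 1 = (-1) * V 0 1 := by
    rw [crd_three]
    simp only [EI7, Matrix.of_apply, Matrix.cons_val', Matrix.cons_val_zero,
      Matrix.cons_val_one, Matrix.cons_val, Matrix.cons_val_fin_one, Fin.isValue, Int.cast_zero,
      Int.cast_one, Int.cast_neg, Int.cast_ofNat]
    linear_combination (0) * hV.diag 1
  have h02 : (1 : ℝ) * crd V (EI7 1 0) 2 = (-1) * V 0 2 + (1) * V 1 2 + (1) := by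
    rw [crd_three]
    simp only [EI7, Matrix.of_apply, Matrix.cons_val', Matrix.cons_val_zero,
      Matrix.cons_val_one, Matrix.cons_val, Matrix.cons_val_fin_one, Fin.isValue, Int.cast_zero,
      Int.cast_one, Int.cast_neg, Int.cast_ofNat]
    linear_combination (1) * hV.diag 2
  have h12 : (1 : ℝ) * crd V (EI7 1 1) 2 = (1) * V 0 2 + (-1) * V 1 2 := by
    rw [crd_three]
    simp only [EI7, Matrix.of_apply, Matrix.cons_val', Matrix.cons_val_zero,
      Matrix.cons_val_one, Matrix.cons_val, Matrix.cons_val_fin_one, Fin.isValue, Int.cast_zero,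
      Int.cast_one, Int.cast_neg, Int.cast_ofNat]
    linear_combination (0) * hV.diag 2
  have h22 : (1 : ℝ) * crd V (EI7 1 2) 2 = (1) * V 0 2 := by
    rw [crd_three]
    simp only [EI7, Matrix.of_apply, Matrix.cons_val', Matrix.cons_val_zero,
      Matrix.cons_val_one, Matrix.cons_val, Matrix.cons_val_fin_one, Fin.isValue, Int.cast_zero,
      Int.cast_one, Int.cast_neg, Int.cast_ofNat]
    linear_combination (0) * hV.diag 2
  have g0 : crd V ![1, -1, -1] 0 = (1) + (-1) * V 1 0 + (-1) * V 2 0 := by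
    rw [crd_three]
    simp only [Matrix.cons_val_zero, Matrix.cons_val_one, Matrix.cons_val, Fin.isValue,
      Int.cast_zero, Int.cast_one, Int.cast_neg, Int.cast_ofNat]
    linear_combination (1) * hV.diag 0
  have g1 : crd V ![-1, 1, 0] 1 = (-1) * V 0 1 + (1) := by
    rw [crd_three]
    simp only [Matrix.cons_val_zero, Matrix.cons_val_one, Matrix.cons_val, Fin.isValue,
      Int.cast_zero, Int.cast_one, Int.cast_neg, Int.cast_ofNat]
    linear_combination (1) * hV.diag 1
  have g2 : crd V ![1, 0, 0] 2 = (1) * V 0 2 := by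
    rw [crd_three]
    simp only [Matrix.cons_val_zero, Matrix.cons_val_one, Matrix.cons_val, Fin.isValue,
      Int.cast_zero, Int.cast_one, Int.cast_neg, Int.cast_ofNat]
    linear_combination (0) * hV.diag 2
  have p0 : 0 < (1) + (-1) * V 1 0 + (-1) * V 2 0 := by linarith
  have p1 : 0 < (-1) * V 0 1 + (1) := by linarith
  have p2 : 0 < (1) * V 0 2 := by linarith
  have hE := box_empty hV hc (c := 7975367980396282292972549069612441602)
    (by norm_num) (by norm_num) (by norm_num) (by norm_num) (by norm_num) (by norm_num)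
    (by norm_num) (by norm_num) (by norm_num) (by norm_num) (by norm_num) (by norm_num)
    (w0 := 145) (w1 := 146) (w2 := 2) (n0 := ![1, -1, -1]) (n1 := ![-1, 1, 0]) (n2 := ![1, 0, 0])
    (by decide +kernel) (by decide +kernel) (by decide +kernel) (by decide +kernel)
    (by decide +kernel) (by decide +kernel) (by decide +kernel) g0 g1 g2 p0 p1 p2
  refine step_of hV.det_ne (EI_unit7 1) (by norm_num) (by norm_num)
    (Or.inr rfl) (Or.inr rfl) (Or.inl rfl) h00 h10 h20 h01 h11 h21 h02 h12 h22 p0 p1 p2 hE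
    ?_ ?_ ?_ ?_ ?_ ?_ ?_ ?_ ?_ ?_ ?_ ?_ (Or.inr (Or.inl ?_))
  all_goals linarith

lemma stEI7_2 {V : Matrix (Fin 3) (Fin 3) ℝ} (hV : Nrm V) (hc : InE0 V) :
    (∀ j, crd V (EI7 2 j) j ≠ 0) ∧ Nrm (nz V (EI7 2)) ∧ Pat (3 / 5) (1) (nz V (EI7 2)) ∧
      Big (3 / 4) (nz V (EI7 2)) := by
  have a0 := hc.a0; have b0 := hc.b0; have a1 := hc.a1; have b1 := hc.b1
  have a2 := hc.a2; have b2 := hc.b2; have a3 := hc.a3; have b3 := hc.b3
  have a4 := hc.a4; have b4 := hc.b4; have a5 := hc.a5; have b5 := hc.b5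
  norm_num at a0 b0 a1 b1 a2 b2 a3 b3 a4 b4 a5 b5
  have h00 : (-1 : ℝ) * crd V (EI7 2 0) 0 = (1) + (1) * V 2 0 := by
    rw [crd_three]
    simp only [EI7, Matrix.of_apply, Matrix.cons_val', Matrix.cons_val_zero,
      Matrix.cons_val_one, Matrix.cons_val, Matrix.cons_val_fin_one, Fin.isValue, Int.cast_zero,
      Int.cast_one, Int.cast_neg, Int.cast_ofNat]
    linear_combination (1) * hV.diag 0
  have h10 : (-1 : ℝ) * crd V (EI7 2 1) 0 = (1) * V 2 0 := by
    rw [crd_three]
    simp only [EI7, Matrix.of_apply, Matrix.cons_val', Matrix.cons_val_zero,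
      Matrix.cons_val_one, Matrix.cons_val, Matrix.cons_val_fin_one, Fin.isValue, Int.cast_zero,
      Int.cast_one, Int.cast_neg, Int.cast_ofNat]
    linear_combination (0) * hV.diag 0
  have h20 : (-1 : ℝ) * crd V (EI7 2 2) 0 = (1) + (1) * V 1 0 + (1) * V 2 0 := by
    rw [crd_three]
    simp only [EI7, Matrix.of_apply, Matrix.cons_val', Matrix.cons_val_zero,
      Matrix.cons_val_one, Matrix.cons_val, Matrix.cons_val_fin_one, Fin.isValue, Int.cast_zero,
      Int.cast_one, Int.cast_neg, Int.cast_ofNat]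
    linear_combination (1) * hV.diag 0
  have h01 : (1 : ℝ) * crd V (EI7 2 0) 1 = (-1) * V 0 1 + (-1) * V 2 1 := by
    rw [crd_three]
    simp only [EI7, Matrix.of_apply, Matrix.cons_val', Matrix.cons_val_zero,
      Matrix.cons_val_one, Matrix.cons_val, Matrix.cons_val_fin_one, Fin.isValue, Int.cast_zero,
      Int.cast_one, Int.cast_neg, Int.cast_ofNat]
    linear_combination (0) * hV.diag 1
  have h11 : (1 : ℝ) * crd V (EI7 2 1) 1 = (-1) * V 2 1 := by
    rw [crd_three]
    simp only [EI7, Matrix.of_apply, Matrix.cons_val', Matrix.cons_val_zero,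
      Matrix.cons_val_one, Matrix.cons_val, Matrix.cons_val_fin_one, Fin.isValue, Int.cast_zero,
      Int.cast_one, Int.cast_neg, Int.cast_ofNat]
    linear_combination (0) * hV.diag 1
  have h21 : (1 : ℝ) * crd V (EI7 2 2) 1 = (-1) * V 0 1 + (-1) + (-1) * V 2 1 := by
    rw [crd_three]
    simp only [EI7, Matrix.of_apply, Matrix.cons_val', Matrix.cons_val_zero,
      Matrix.cons_val_one, Matrix.cons_val, Matrix.cons_val_fin_one, Fin.isValue, Int.cast_zero,
      Int.cast_one, Int.cast_neg, Int.cast_ofNat]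
    linear_combination (-1) * hV.diag 1
  have h02 : (-1 : ℝ) * crd V (EI7 2 0) 2 = (1) * V 0 2 + (1) := by
    rw [crd_three]
    simp only [EI7, Matrix.of_apply, Matrix.cons_val', Matrix.cons_val_zero,
      Matrix.cons_val_one, Matrix.cons_val, Matrix.cons_val_fin_one, Fin.isValue, Int.cast_zero,
      Int.cast_one, Int.cast_neg, Int.cast_ofNat]
    linear_combination (1) * hV.diag 2
  have h12 : (-1 : ℝ) * crd V (EI7 2 1) 2 = (1) := by
    rw [crd_three]
    simp only [EI7, Matrix.of_apply, Matrix.cons_val', Matrix.cons_val_zero,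
      Matrix.cons_val_one, Matrix.cons_val, Matrix.cons_val_fin_one, Fin.isValue, Int.cast_zero,
      Int.cast_one, Int.cast_neg, Int.cast_ofNat]
    linear_combination (1) * hV.diag 2
  have h22 : (-1 : ℝ) * crd V (EI7 2 2) 2 = (1) * V 0 2 + (1) * V 1 2 + (1) := by
    rw [crd_three]
    simp only [EI7, Matrix.of_apply, Matrix.cons_val', Matrix.cons_val_zero,
      Matrix.cons_val_one, Matrix.cons_val, Matrix.cons_val_fin_one, Fin.isValue, Int.cast_zero,
      Int.cast_one, Int.cast_neg, Int.cast_ofNat]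
    linear_combination (1) * hV.diag 2
  have g0 : crd V ![1, 0, 1] 0 = (1) + (1) * V 2 0 := by
    rw [crd_three]
    simp only [Matrix.cons_val_zero, Matrix.cons_val_one, Matrix.cons_val, Fin.isValue,
      Int.cast_zero, Int.cast_one, Int.cast_neg, Int.cast_ofNat]
    linear_combination (1) * hV.diag 0
  have g1 : crd V ![0, 0, -1] 1 = (-1) * V 2 1 := by
    rw [crd_three]
    simp only [Matrix.cons_val_zero, Matrix.cons_val_one, Matrix.cons_val, Fin.isValue,
      Int.cast_zero, Int.cast_one, Int.cast_neg, Int.cast_ofNat]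
    linear_combination (0) * hV.diag 1
  have g2 : crd V ![1, 1, 1] 2 = (1) * V 0 2 + (1) * V 1 2 + (1) := by
    rw [crd_three]
    simp only [Matrix.cons_val_zero, Matrix.cons_val_one, Matrix.cons_val, Fin.isValue,
      Int.cast_zero, Int.cast_one, Int.cast_neg, Int.cast_ofNat]
    linear_combination (1) * hV.diag 2
  have p0 : 0 < (1) + (1) * V 2 0 := by linarith
  have p1 : 0 < (-1) * V 2 1 := by linarith
  have p2 : 0 < (1) * V 0 2 + (1) * V 1 2 + (1) := by linarith
  have hE := box_empty hV hc (c := 393451486752412469632064679513911517186)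
    (by norm_num) (by norm_num) (by norm_num) (by norm_num) (by norm_num) (by norm_num)
    (by norm_num) (by norm_num) (by norm_num) (by norm_num) (by norm_num) (by norm_num)
    (w0 := 145) (w1 := 1) (w2 := 147) (n0 := ![1, 0, 1]) (n1 := ![0, 0, -1]) (n2 := ![1, 1, 1])
    (by decide +kernel) (by decide +kernel) (by decide +kernel) (by decide +kernel)
    (by decide +kernel) (by decide +kernel) (by decide +kernel) g0 g1 g2 p0 p1 p2
  refine step_of hV.det_ne (EI_unit7 2) (by norm_num) (by norm_num)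
    (Or.inr rfl) (Or.inl rfl) (Or.inr rfl) h00 h10 h20 h01 h11 h21 h02 h12 h22 p0 p1 p2 hE
    ?_ ?_ ?_ ?_ ?_ ?_ ?_ ?_ ?_ ?_ ?_ ?_ (Or.inl ?_)
  all_goals linarith


lemma stEM7 (k : Fin 3) {V : Matrix (Fin 3) (Fin 3) ℝ} (hV : Nrm V) (hc : InE0 V) :
    (∀ j, crd V (EM7 k j) j ≠ 0) ∧ Nrm (nz V (EM7 k)) ∧ Pat (3 / 5) (1) (nz V (EM7 k)) ∧
      Big (3 / 4) (nz V (EM7 k)) := by
  fin_cases k
  · exact stEM7_0 hV hc
  · exact stEM7_1 hV hc
  · exact stEM7_2 hV hc

lemma stEI7 (k : Fin 3) {V : Matrix (Fin 3) (Fin 3) ℝ} (hV : Nrm V) (hc : InE0 V) :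
    (∀ j, crd V (EI7 k j) j ≠ 0) ∧ Nrm (nz V (EI7 k)) ∧ Pat (3 / 5) (1) (nz V (EI7 k)) ∧
      Big (3 / 4) (nz V (EI7 k)) := by
  fin_cases k
  · exact stEI7_0 hV hc
  · exact stEI7_1 hV hc
  · exact stEI7_2 hV hc

lemma th_ne7 (i : Fin 3) : th7 i ≠ 0 := left_ne_zero_of_mul_eq_one (th_ti7 i)
lemma ti_ne7 (i : Fin 3) : ti7 i ≠ 0 := right_ne_zero_of_mul_eq_one (th_ti7 i)

lemma th_div7 (i j : Fin 3) : th7 i / th7 j = th7 i * ti7 j := by
  rw [div_eq_iff (th_ne7 j), mul_assoc, mul_comm (ti7 j), th_ti7, mul_one]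

lemma ti_div7 (i j : Fin 3) : ti7 i / ti7 j = th7 j * ti7 i := by
  rw [div_eq_iff (ti_ne7 j), mul_comm (th7 j), mul_assoc, th_ti7, mul_one]

lemma exists_unit7 : ∀ a b : Fin 3, a ≠ b → ∃ k : Fin 3, (a + k = 2 ∧ b + k = 1) ∨
    (a + k = 1 ∧ b + k = 2) := by
  decide

lemma units7 (a c : Fin 3) (hac : a ≠ c) : UnitFor p7 q7 r7 (3 / 5) (1) (3 / 4) InE0 a c := by
  obtain ⟨k, ⟨h1, h2⟩ | ⟨h1, h2⟩⟩ := exists_unit7 a c hac
  · refine ⟨EM7 k, fun j => th7 (j + k), EM_unit7 k, fun i l => EM_B7 k i l, ?_,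
      fun V hV hc => stEM7 k hV hc⟩
    simp only [h1, h2]
    rw [th_div7]
    exact ratio7
  · refine ⟨EI7 k, fun j => ti7 (j + k), EI_unit7 k, fun i l => EI_B7 k i l, ?_,
      fun V hV hc => stEI7 k hV hc⟩
    simp only [h1, h2]
    rw [ti_div7]
    exact ratio7

lemma near7 {W : Matrix (Fin 3) (Fin 3) ℝ} (hW : Nrm W) (hc : InE0 W) (i j : Fin 3) :
    |W i j - Vs w7 v7 i j| ≤ 1 / 8 := by
  have a0 := hc.a0; have b0 := hc.b0; have a1 := hc.a1; have b1 := hc.b1
  have a2 := hc.a2; have b2 := hc.b2; have a3 := hc.a3; have b3 := hc.b3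
  have a4 := hc.a4; have b4 := hc.b4; have a5 := hc.a5; have b5 := hc.b5
  norm_num at a0 b0 a1 b1 a2 b2 a3 b3 a4 b4 a5 b5
  have h1 := c7_lo
  have h2 := c7_hi
  have h3 := c7_sq_lo
  have h4 := c7_sq_hi
  have hw : w7 = (2) * Upper.c ^ 0 + (-1) * Upper.c ^ 2 := rfl
  have hv : v7 = (-2) * Upper.c ^ 0 + (1) * Upper.c ^ 1 + (1) * Upper.c ^ 2 := rfl
  fin_cases i <;> fin_cases j
  · show |W 0 0 - 1| ≤ _
    rw [hW.diag, sub_self, abs_zero]; norm_num
  · show |W 0 1 - w7| ≤ _
    rw [hw, abs_le]; constructor <;> linarith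
  · show |W 0 2 - v7| ≤ _
    rw [hv, abs_le]; constructor <;> linarith
  · show |W 1 0 - -v7| ≤ _
    rw [hv, abs_le]; constructor <;> linarith
  · show |W 1 1 - 1| ≤ _
    rw [hW.diag, sub_self, abs_zero]; norm_num
  · show |W 1 2 - w7| ≤ _
    rw [hw, abs_le]; constructor <;> linarith
  · show |W 2 0 - -w7| ≤ _
    rw [hw, abs_le]; constructor <;> linarith
  · show |W 2 1 - -v7| ≤ _
    rw [hv, abs_le]; constructor <;> linarith
  · show |W 2 2 - 1| ≤ _
    rw [hW.diag, sub_self, abs_zero]; norm_num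

/-- The data of the flow. -/
theorem fam7 (hroot : Cov 0 128 0 128 64 128 0 128 64 128 0 128) :
    Fam w7 v7 p7 q7 r7 (3 / 5) (1) (3 / 4) InE0 where
  inv := inv7
  hp := by
    have h1 := c7_lo
    have h2 := c7_hi
    have h3 := c7_sq_lo
    have h4 := c7_sq_hi
    have h : p7 = (1/7) * Upper.c ^ 0 + (1/7) * Upper.c ^ 1 + (1/7) * Upper.c ^ 2 := rfl
    rw [h, abs_le]; constructor <;> linarith
  hq := by
    have h1 := c7_lo
    have h2 := c7_hi
    have h3 := c7_sq_lo
    have h4 := c7_sq_hi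
    have h : q7 = (1/7) * Upper.c ^ 0 + (-2/7) * Upper.c ^ 1 + (-1/7) * Upper.c ^ 2 := rfl
    rw [h, abs_le]; constructor <;> linarith
  hr := by
    have h1 := c7_lo
    have h2 := c7_hi
    have h3 := c7_sq_lo
    have h4 := c7_sq_hi
    have h : r7 = (-2/7) * Upper.c ^ 0 + (-1/7) * Upper.c ^ 1 + (1/7) * Upper.c ^ 2 := rfl
    rw [h, abs_le]; constructor <;> linarith
  near := fun W hW hc => near7 hW hc
  hs := by norm_num
  units := units7
  cov := by
    intro W hN hp hθ hs
    have q01 := hp.q01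
    have q02 := hp.q02
    rcases cov_root hroot hN hp hs with h | h | h | h | h
    · exact Or.inl h
    · exact Or.inr h
    · exfalso
      have := h.b4
      norm_num at this
      linarith
    · exfalso
      have := h.a2
      norm_num at this
      linarith
    · exfalso
      have := h.a2
      norm_num at this
      linarith

end Pool.Agent.Lib.MP_ddd95a_nt.Sec
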