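import Pool.Agent.Lib.MP_ddd95a_nt.Mg.G011
import Pool.Agent.Lib.MP_ddd95a_nt.Mg.G010
import Pool.Agent.Lib.MP_ddd95a_nt.Sec.Cert.Q01
import Pool.Agent.Lib.MP_ddd95a_nt.Sec.Cert.Q02
import Pool.Agent.Lib.MP_ddd95a_nt.Sec.Cert.Q03
import Pool.Agent.Lib.MP_ddd95a_nt.Sec.Cert.Q04
import Pool.Agent.Lib.MP_ddd95a_nt.Sec.Cert.Q05
import Pool.Agent.Lib.MP_ddd95a_nt.Sec.Cert.Q06
import Pool.Agent.Lib.MP_ddd95a_nt.Sec.Cert.Q07
import Pool.Agent.Lib.MP_ddd95a_nt.Sec.Cert.Q08
import Pool.Agent.Lib.MP_ddd95a_nt.Sec.Cert.Q09
import Pool.Agent.Lib.MP_ddd95a_nt.Sec.Cert.Q10
import Pool.Agent.Lib.MP_ddd95a_nt.Sec.Cert.Q11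
import Pool.Agent.Lib.MP_ddd95a_nt.Sec.Cert.Q12
import Pool.Agent.Lib.MP_ddd95a_nt.Sec.Cert.Q13
import Pool.Agent.Lib.MP_ddd95a_nt.Sec.Cert.Q14
import Pool.Agent.Lib.MP_ddd95a_nt.Sec.Cert.Q15
import Pool.Agent.Lib.MP_ddd95a_nt.Sec.Cert.Q16
import Pool.Agent.Lib.MP_ddd95a_nt.Sec.Cert.Q17
import Pool.Agent.Lib.MP_ddd95a_nt.Sec.Cert.Q18
import Pool.Agent.Lib.MP_ddd95a_nt.Sec.Cert.Q19
import Pool.Agent.Lib.MP_ddd95a_nt.Sec.Cert.Q20
import Pool.Agent.Lib.MP_ddd95a_nt.Sec.Cert.Q21
import Pool.Agent.Lib.MP_ddd95a_nt.Sec.Cert.Q22
import Pool.Agent.Lib.MP_ddd95a_nt.Sec.Cert.Q23
import Pool.Agent.Lib.MP_ddd95a_nt.Sec.Cert.Q24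
import Pool.Agent.Lib.MP_ddd95a_nt.Sec.Cert.Q25
import Pool.Agent.Lib.MP_ddd95a_nt.Sec.Cert.Q26
import Pool.Agent.Lib.MP_ddd95a_nt.Sec.Cert.Q27
import Pool.Agent.Lib.MP_ddd95a_nt.Sec.Cert.Q28
import Pool.Agent.Lib.MP_ddd95a_nt.Sec.Cert.Q29
import Pool.Agent.Lib.MP_ddd95a_nt.Sec.Cert.Q30
import Pool.Agent.Lib.MP_ddd95a_nt.Sec.Cert.Q31
import Pool.Agent.Lib.MP_ddd95a_nt.Sec.Cert.Q32
import Pool.Agent.Lib.MP_ddd95a_nt.Sec.Cert.Q33
import Pool.Agent.Lib.MP_ddd95a_nt.Sec.Cert.Q34
import Pool.Agent.Lib.MP_ddd95a_nt.Sec.Cert.Q35
import Pool.Agent.Lib.MP_ddd95a_nt.Sec.Cert.Q36
import Pool.Agent.Lib.MP_ddd95a_nt.Sec.Cert.Q37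
import Pool.Agent.Lib.MP_ddd95a_nt.Sec.Cert.Q38
import Pool.Agent.Lib.MP_ddd95a_nt.Sec.Cert.Q39
import Pool.Agent.Lib.MP_ddd95a_nt.Sec.Cert.Q40
import Pool.Agent.Lib.MP_ddd95a_nt.Sec.Cert.Q41
import Pool.Agent.Lib.MP_ddd95a_nt.Sec.Cert.Q42

/-!
# The whole cell is covered
-/

namespace Pool.Agent.Lib.MP_ddd95a_nt.Sec

open Pool.Agent.Lib.MP_ddd95a_nt

theorem root0 : Cov 0 32 0 32 80 96 0 32 112 128 16 32 :=
  (cov5 24
   (cov3 16
    (cov2 88
     (cov_of_check cc21 tt21)
     (cov_of_check cc22 tt22))
    (cov2 88
     (cov3 24
      (cov_of_check cc23 tt23)
      (cov0 16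
       (cov_of_check cc24 tt24)
       (cov0 24
        (cov_of_check cc25 tt25)
        (cov4 120
         (cov1 16
          (cov_of_check cc26 tt26)
          (cov0 28
           (cov5 20
            (cov_of_check cc27 tt27)
            (cov3 28
             (cov_of_check cc28 tt28)
             (cov4 116
              (cov_of_check cc29 tt29)
              (cov_of_check cc30 tt30))))
           (cov_of_check cc31 tt31)))
         (cov_of_check cc32 tt32)))))
     (cov_of_check cc33 tt33)))
   (cov3 16
    (cov_of_check cc34 tt34)
    (cov4 120
     (cov3 24
      (cov_of_check cc35 tt35)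
      (cov2 88
       (cov0 16
        (cov_of_check cc36 tt36)
        (cov_of_check cc37 tt37))
       (cov_of_check cc38 tt38)))
     (cov_of_check cc39 tt39))))

theorem root1 : Cov 0 32 0 32 64 96 0 32 96 128 0 32 :=
  (cov4 112
   (cov5 16
    (cov_of_check cc1 tt1)
    (cov5 24
     (cov_of_check cc2 tt2)
     (cov3 16
      (cov_of_check cc3 tt3)
      (cov4 104
       (cov_of_check cc4 tt4)
       (cov2 80
        (cov_of_check cc5 tt5)
        (cov3 24
         (cov_of_check cc6 tt6)
         (cov2 88
          (cov0 16
           (cov_of_check cc7 tt7)
           (cov1 16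
            (cov_of_check cc8 tt8)
            (cov_of_check cc9 tt9)))
          (cov_of_check cc10 tt10))))))))
   (cov5 16
    (cov_of_check cc11 tt11)
    (cov2 80
     (cov2 72
      (cov_of_check cc12 tt12)
      (cov5 24
       (cov3 16
        (cov_of_check cc13 tt13)
        (cov0 16
         (cov_of_check cc14 tt14)
         (cov3 24
          (cov_of_check cc15 tt15)
          (cov_of_check cc16 tt16))))
       (cov3 16
        (cov_of_check cc17 tt17)
        (cov0 16
         (cov_of_check cc18 tt18)
         (cov0 24
          (cov_of_check cc19 tt19)
          (cov_of_check cc20 tt20))))))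
     root0)))

theorem root2 : Cov 0 32 32 48 64 96 0 32 112 128 0 32 :=
  (cov5 16
   (cov_of_check cc41 tt41)
   (cov2 80
    (cov3 16
     (cov_of_check cc42 tt42)
     (cov2 72
      (cov_of_check cc43 tt43)
      (cov5 24
       (cov_of_check cc44 tt44)
       (cov0 16
        (cov5 28
         (cov_of_check cc45 tt45)
         (cov_of_check cc46 tt46))
        (cov_of_check cc47 tt47)))))
    (cov3 16
     (cov_of_check cc48 tt48)
     (cov3 24
      (cov_of_check cc49 tt49)
      (cov2 88
       (cov1 40
        (cov0 16
         (cov0 8
          (cov_of_check cc50 tt50)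
          (cov5 24
           (cov_of_check cc51 tt51)
           (cov4 120
            (cov5 28
             (cov_of_check cc52 tt52)
             (cov_of_check cc53 tt53))
            (cov_of_check cc54 tt54))))
         (cov_of_check cc55 tt55))
        (cov_of_check cc56 tt56))
       (cov_of_check cc57 tt57))))))

theorem root3 : Cov 32 64 0 16 64 96 0 32 96 128 16 32 :=
  (cov2 80
   (cov2 72
    (cov_of_check cc60 tt60)
    (cov3 16
     (cov_of_check cc61 tt61)
     (cov0 48
      (cov3 24
       (cov_of_check cc62 tt62)
       (cov0 40
        (cov5 24
         (cov_of_check cc63 tt63)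
         (cov_of_check cc64 tt64))
        (cov4 112
         (cov_of_check cc65 tt65)
         (cov2 76
          (cov_of_check cc66 tt66)
          (cov3 28
           (cov_of_check cc67 tt67)
           (cov_of_check cc68 tt68))))))
      (cov_of_check cc69 tt69))))
   (cov3 16
    (cov0 48
     (cov_of_check cc70 tt70)
     (cov_of_check cc71 tt71))
    (cov4 112
     (cov_of_check cc72 tt72)
     (cov1 8
      (cov_of_check cc73 tt73)
      (cov0 48
       (cov0 40
        (cov_of_check cc74 tt74)
        (cov3 24
         (cov_of_check cc75 tt75)
         (cov2 88
          (cov0 44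
           (cov_of_check cc76 tt76)
           (cov_of_check cc77 tt77))
          (cov_of_check cc78 tt78))))
       (cov_of_check cc79 tt79))))))

theorem root4 : Cov 0 64 0 64 64 96 0 32 96 128 0 32 :=
  (cov0 32
   (cov1 32
    root1
    (cov4 112
     (cov_of_check cc40 tt40)
     (cov1 48
      root2
      (cov_of_check cc58 tt58))))
   (cov1 32
    (cov1 16
     (cov5 16
      (cov_of_check cc59 tt59)
      root3)
     (cov0 48
      (cov4 112
       (cov_of_check cc80 tt80)
       (cov5 16
        (cov_of_check cc81 tt81)
        (cov5 24
         (cov4 120
          (cov3 16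
           (cov_of_check cc82 tt82)
           (cov2 80
            (cov_of_check cc83 tt83)
            (cov_of_check cc84 tt84)))
          (cov2 80
           (cov_of_check cc85 tt85)
           (cov_of_check cc86 tt86)))
         (cov1 24
          (cov0 40
           (cov_of_check cc87 tt87)
           (cov2 80
            (cov_of_check cc88 tt88)
            (cov2 88
             (cov_of_check cc89 tt89)
             (cov_of_check cc90 tt90))))
          (cov_of_check cc91 tt91)))))
      (cov_of_check cc92 tt92)))
    (cov_of_check cc93 tt93)))

theorem root5 : Cov 0 32 0 32 64 96 0 32 112 128 32 64 :=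
  (cov2 80
   (cov5 48
    (cov3 16
     (cov_of_check cc110 tt110)
     (cov2 72
      (cov_of_check cc111 tt111)
      (cov3 24
       (cov_of_check cc112 tt112)
       (cov1 16
        (cov_of_check cc113 tt113)
        (cov0 16
         (cov5 40
          (cov_of_check cc114 tt114)
          (cov_of_check cc115 tt115))
         (cov2 76
          (cov_of_check cc116 tt116)
          (cov_of_check cc117 tt117)))))))
    (cov_of_check cc118 tt118))
   (cov5 48
    (cov5 40
     (cov3 16
      (cov2 88
       (cov_of_check cc119 tt119)
       (cov_of_check cc120 tt120))
      (cov4 120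
       (cov0 16
        (cov_of_check cc121 tt121)
        (cov_of_check cc122 tt122))
       (cov_of_check cc123 tt123)))
     (cov3 16
      (cov_of_check cc124 tt124)
      (cov_of_check cc125 tt125)))
    (cov_of_check cc126 tt126)))

theorem root6 : Cov 0 32 0 32 64 96 0 32 96 128 32 64 :=
  (cov4 112
   (cov5 48
    (cov4 104
     (cov_of_check cc94 tt94)
     (cov3 16
      (cov_of_check cc95 tt95)
      (cov5 40
       (cov2 80
        (cov1 16
         (cov_of_check cc96 tt96)
         (cov2 72
          (cov_of_check cc97 tt97)
          (cov3 24
           (cov_of_check cc98 tt98)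
           (cov_of_check cc99 tt99))))
        (cov3 24
         (cov_of_check cc100 tt100)
         (cov_of_check cc101 tt101)))
       (cov_of_check cc102 tt102))))
    (cov2 80
     (cov1 16
      (cov_of_check cc103 tt103)
      (cov0 16
       (cov_of_check cc104 tt104)
       (cov3 16
        (cov_of_check cc105 tt105)
        (cov1 24
         (cov_of_check cc106 tt106)
         (cov0 24
          (cov_of_check cc107 tt107)
          (cov_of_check cc108 tt108))))))
     (cov_of_check cc109 tt109)))
   root5)

theorem root7 : Cov 0 32 32 48 64 96 16 32 112 128 32 48 :=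
  (cov2 80
   (cov2 72
    (cov_of_check cc145 tt145)
    (cov1 40
     (cov3 24
      (cov_of_check cc146 tt146)
      (cov0 16
       (cov0 8
        (cov_of_check cc147 tt147)
        (cov2 76
         (cov_of_check cc148 tt148)
         (cov_of_check cc149 tt149)))
       (cov0 24
        (cov1 36
         (cov_of_check cc150 tt150)
         (cov_of_check cc151 tt151))
        (cov_of_check cc152 tt152))))
     (cov3 24
      (cov_of_check cc153 tt153)
      (cov0 16
       (cov_of_check cc154 tt154)
       (cov_of_check cc155 tt155)))))
   (cov3 24
    (cov_of_check cc156 tt156)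
    (cov2 88
     (cov1 40
      (cov5 40
       (cov4 120
        (cov0 16
         (cov5 36
          (cov4 116
           (cov_of_check cc157 tt157)
           (cov_of_check cc158 tt158))
          (cov_of_check cc159 tt159))
         (cov_of_check cc160 tt160))
        (cov_of_check cc161 tt161))
       (cov_of_check cc162 tt162))
      (cov_of_check cc163 tt163))
     (cov_of_check cc164 tt164))))

theorem root8 : Cov 0 64 0 64 64 96 0 32 96 128 32 64 :=
  (cov1 32
   (cov0 32
    root6
    (cov4 112
     (cov5 48
      (cov_of_check cc127 tt127)
      (cov_of_check cc128 tt128))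
     (cov0 48
      (cov2 80
       (cov3 16
        (cov_of_check cc129 tt129)
        (cov5 48
         (cov2 72
          (cov_of_check cc130 tt130)
          (cov_of_check cc131 tt131))
         (cov_of_check cc132 tt132)))
       (cov5 48
        (cov5 40
         (cov_of_check cc133 tt133)
         (cov_of_check cc134 tt134))
        (cov_of_check cc135 tt135)))
      (cov_of_check cc136 tt136))))
   (cov0 32
    (cov3 16
     (cov5 48
      (cov1 48
       (cov1 40
        (cov2 80
         (cov_of_check cc137 tt137)
         (cov_of_check cc138 tt138))
        (cov_of_check cc139 tt139))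
       (cov_of_check cc140 tt140))
      (cov_of_check cc141 tt141))
     (cov4 112
      (cov5 48
       (cov_of_check cc142 tt142)
       (cov2 80
        (cov_of_check cc143 tt143)
        (cov_of_check cc144 tt144)))
      (cov1 48
       (cov5 48
        root7
        (cov_of_check cc165 tt165))
       (cov_of_check cc166 tt166))))
    (cov_of_check cc167 tt167)))

theorem root9 : Cov 16 32 0 32 64 96 32 48 112 128 0 32 :=
  (cov2 80
   (cov5 16
    (cov_of_check cc180 tt180)
    (cov2 72
     (cov_of_check cc181 tt181)
     (cov5 24
      (cov3 40
       (cov0 24
        (cov_of_check cc182 tt182)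
        (cov_of_check cc183 tt183))
       (cov_of_check cc184 tt184))
      (cov3 40
       (cov4 120
        (cov0 24
         (cov_of_check cc185 tt185)
         (cov_of_check cc186 tt186))
        (cov_of_check cc187 tt187))
       (cov_of_check cc188 tt188)))))
   (cov5 16
    (cov_of_check cc189 tt189)
    (cov3 40
     (cov2 88
      (cov5 24
       (cov1 16
        (cov_of_check cc190 tt190)
        (cov0 24
         (cov_of_check cc191 tt191)
         (cov0 28
          (cov5 20
           (cov_of_check cc192 tt192)
           (cov4 120
            (cov2 84
             (cov_of_check cc193 tt193)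
             (cov_of_check cc194 tt194))
            (cov_of_check cc195 tt195)))
          (cov_of_check cc196 tt196))))
       (cov1 16
        (cov_of_check cc197 tt197)
        (cov0 24
         (cov_of_check cc198 tt198)
         (cov_of_check cc199 tt199))))
      (cov_of_check cc200 tt200))
     (cov_of_check cc201 tt201))))

theorem root10 : Cov 0 32 0 32 64 96 32 64 96 128 0 32 :=
  (cov3 48
   (cov0 16
    (cov5 16
     (cov_of_check cc168 tt168)
     (cov5 24
      (cov_of_check cc169 tt169)
      (cov4 112
       (cov_of_check cc170 tt170)
       (cov_of_check cc171 tt171))))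
    (cov4 112
     (cov5 16
      (cov_of_check cc172 tt172)
      (cov5 24
       (cov_of_check cc173 tt173)
       (cov0 24
        (cov4 104
         (cov_of_check cc174 tt174)
         (cov2 80
          (cov_of_check cc175 tt175)
          (cov_of_check cc176 tt176)))
        (cov4 104
         (cov_of_check cc177 tt177)
         (cov2 80
          (cov_of_check cc178 tt178)
          (cov_of_check cc179 tt179))))))
     root9))
   (cov2 80
    (cov_of_check cc202 tt202)
    (cov0 16
     (cov5 16
      (cov_of_check cc203 tt203)
      (cov4 112
       (cov_of_check cc204 tt204)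
       (cov1 16
        (cov_of_check cc205 tt205)
        (cov1 24
         (cov_of_check cc206 tt206)
         (cov_of_check cc207 tt207)))))
     (cov5 16
      (cov_of_check cc208 tt208)
      (cov_of_check cc209 tt209)))))

theorem root11 : Cov 32 64 0 32 64 96 32 48 96 128 0 32 :=
  (cov4 112
   (cov_of_check cc210 tt210)
   (cov0 48
    (cov2 80
     (cov5 16
      (cov_of_check cc211 tt211)
      (cov2 72
       (cov_of_check cc212 tt212)
       (cov3 40
        (cov5 24
         (cov0 40
          (cov1 16
           (cov_of_check cc213 tt213)
           (cov_of_check cc214 tt214))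
          (cov4 120
           (cov_of_check cc215 tt215)
           (cov_of_check cc216 tt216)))
         (cov0 40
          (cov_of_check cc217 tt217)
          (cov4 120
           (cov1 16
            (cov_of_check cc218 tt218)
            (cov_of_check cc219 tt219))
           (cov_of_check cc220 tt220))))
        (cov_of_check cc221 tt221))))
     (cov5 16
      (cov_of_check cc222 tt222)
      (cov0 40
       (cov_of_check cc223 tt223)
       (cov4 120
        (cov_of_check cc224 tt224)
        (cov_of_check cc225 tt225)))))
    (cov_of_check cc226 tt226)))

theorem root12 : Cov 0 64 32 64 64 96 32 64 96 128 0 32 :=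
  (cov0 32
   (cov4 112
    (cov0 16
     (cov_of_check cc236 tt236)
     (cov2 80
      (cov_of_check cc237 tt237)
      (cov1 48
       (cov5 16
        (cov_of_check cc238 tt238)
        (cov_of_check cc239 tt239))
       (cov_of_check cc240 tt240))))
    (cov5 16
     (cov_of_check cc241 tt241)
     (cov1 48
      (cov3 48
       (cov2 80
        (cov_of_check cc242 tt242)
        (cov2 88
         (cov1 40
          (cov3 40
           (cov5 24
            (cov_of_check cc243 tt243)
            (cov0 16
             (cov3 36
              (cov_of_check cc244 tt244)
              (cov_of_check cc245 tt245))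
             (cov_of_check cc246 tt246)))
           (cov_of_check cc247 tt247))
          (cov_of_check cc248 tt248))
         (cov_of_check cc249 tt249)))
       (cov_of_check cc250 tt250))
      (cov_of_check cc251 tt251))))
   (cov_of_check cc252 tt252))

theorem root13 : Cov 0 32 0 32 64 96 32 64 96 112 32 64 :=
  (cov0 16
   (cov4 104
    (cov_of_check cc253 tt253)
    (cov5 48
     (cov2 80
      (cov_of_check cc254 tt254)
      (cov_of_check cc255 tt255))
     (cov_of_check cc256 tt256)))
   (cov1 16
    (cov_of_check cc257 tt257)
    (cov5 48
     (cov0 24
      (cov5 40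
       (cov1 24
        (cov_of_check cc258 tt258)
        (cov_of_check cc259 tt259))
       (cov_of_check cc260 tt260))
      (cov_of_check cc261 tt261))
     (cov2 80
      (cov0 24
       (cov3 48
        (cov2 72
         (cov_of_check cc262 tt262)
         (cov3 40
          (cov1 24
           (cov_of_check cc263 tt263)
           (cov3 36
            (cov_of_check cc264 tt264)
            (cov_of_check cc265 tt265)))
          (cov_of_check cc266 tt266)))
        (cov_of_check cc267 tt267))
       (cov_of_check cc268 tt268))
      (cov_of_check cc269 tt269)))))

theorem root14 : Cov 0 32 0 32 64 96 32 64 112 128 32 64 :=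
  (cov2 80
   (cov2 72
    (cov_of_check cc270 tt270)
    (cov0 16
     (cov5 48
      (cov3 48
       (cov_of_check cc271 tt271)
       (cov_of_check cc272 tt272))
      (cov_of_check cc273 tt273))
     (cov5 48
      (cov3 48
       (cov0 24
        (cov5 40
         (cov_of_check cc274 tt274)
         (cov1 16
          (cov_of_check cc275 tt275)
          (cov1 24
           (cov_of_check cc276 tt276)
           (cov2 76
            (cov_of_check cc277 tt277)
            (cov_of_check cc278 tt278)))))
        (cov_of_check cc279 tt279))
       (cov_of_check cc280 tt280))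
      (cov_of_check cc281 tt281))))
   (cov2 88
    (cov1 16
     (cov_of_check cc282 tt282)
     (cov0 16
      (cov3 48
       (cov_of_check cc283 tt283)
       (cov_of_check cc284 tt284))
      (cov5 48
       (cov0 24
        (cov3 48
         (cov1 24
          (cov_of_check cc285 tt285)
          (cov_of_check cc286 tt286))
         (cov_of_check cc287 tt287))
        (cov_of_check cc288 tt288))
       (cov_of_check cc289 tt289))))
    (cov1 16
     (cov_of_check cc290 tt290)
     (cov5 48
      (cov3 48
       (cov_of_check cc291 tt291)
       (cov_of_check cc292 tt292))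
      (cov_of_check cc293 tt293)))))

theorem root15 : Cov 0 32 32 48 64 96 32 64 112 128 32 64 :=
  (cov2 80
   (cov2 72
    (cov_of_check cc306 tt306)
    (cov3 48
     (cov4 120
      (cov5 48
       (cov3 40
        (cov5 40
         (cov_of_check cc307 tt307)
         (cov1 40
          (cov_of_check cc308 tt308)
          (cov_of_check cc309 tt309)))
        (cov_of_check cc310 tt310))
       (cov_of_check cc311 tt311))
      (cov5 48
       (cov5 40
        (cov_of_check cc312 tt312)
        (cov3 40
         (cov0 16
          (cov_of_check cc313 tt313)
          (cov_of_check cc314 tt314))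
         (cov_of_check cc315 tt315)))
       (cov_of_check cc316 tt316)))
     (cov_of_check cc317 tt317)))
   (cov3 48
    (cov3 40
     (cov5 48
      (cov2 88
       (cov1 40
        (cov0 16
         (cov0 8
          (cov_of_check cc318 tt318)
          (cov2 84
           (cov1 36
            (cov_of_check cc319 tt319)
            (cov_of_check cc320 tt320))
           (cov_of_check cc321 tt321)))
         (cov_of_check cc322 tt322))
        (cov_of_check cc323 tt323))
       (cov_of_check cc324 tt324))
      (cov_of_check cc325 tt325))
     (cov2 88
      (cov_of_check cc326 tt326)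
      (cov_of_check cc327 tt327)))
    (cov5 48
     (cov_of_check cc328 tt328)
     (cov_of_check cc329 tt329))))

theorem root16 : Cov 0 32 0 64 64 96 32 64 96 128 32 64 :=
  (cov1 32
   (cov4 112
    root13
    root14)
   (cov4 112
    (cov5 48
     (cov1 48
      (cov2 80
       (cov_of_check cc294 tt294)
       (cov1 40
        (cov_of_check cc295 tt295)
        (cov_of_check cc296 tt296)))
      (cov_of_check cc297 tt297))
     (cov1 48
      (cov3 48
       (cov2 80
        (cov0 16
         (cov_of_check cc298 tt298)
         (cov2 72
          (cov_of_check cc299 tt299)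
          (cov_of_check cc300 tt300)))
        (cov1 40
         (cov0 16
          (cov_of_check cc301 tt301)
          (cov_of_check cc302 tt302))
         (cov_of_check cc303 tt303)))
       (cov_of_check cc304 tt304))
      (cov_of_check cc305 tt305)))
    (cov1 48
     root15
     (cov5 48
      (cov_of_check cc330 tt330)
      (cov_of_check cc331 tt331)))))

theorem root17 : Cov 32 64 0 64 64 96 32 64 96 128 32 64 :=
  (cov1 32
   (cov2 80
    (cov3 48
     (cov0 48
      (cov4 112
       (cov_of_check cc332 tt332)
       (cov5 48
        (cov2 72
         (cov_of_check cc333 tt333)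
         (cov1 16
          (cov_of_check cc334 tt334)
          (cov2 76
           (cov_of_check cc335 tt335)
           (cov_of_check cc336 tt336))))
        (cov_of_check cc337 tt337)))
      (cov_of_check cc338 tt338))
     (cov_of_check cc339 tt339))
    (cov4 112
     (cov5 48
      (cov0 48
       (cov_of_check cc340 tt340)
       (cov_of_check cc341 tt341))
      (cov_of_check cc342 tt342))
     (cov0 48
      (cov5 48
       (cov3 48
        (cov3 40
         (cov_of_check cc343 tt343)
         (cov_of_check cc344 tt344))
        (cov_of_check cc345 tt345))
       (cov_of_check cc346 tt346))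
      (cov_of_check cc347 tt347))))
   (cov_of_check cc348 tt348))

theorem root18 : Cov 0 64 0 64 64 96 0 64 64 128 0 64 :=
  (cov4 96
   (cov_of_check cc0 tt0)
   (cov3 32
    (cov5 32
     root4
     root8)
    (cov5 32
     (cov1 32
      (cov0 32
       root10
       (cov3 48
        root11
        (cov2 80
         (cov_of_check cc227 tt227)
         (cov0 48
          (cov2 88
           (cov_of_check cc228 tt228)
           (cov1 16
            (cov_of_check cc229 tt229)
            (cov1 24
             (cov3 56
              (cov_of_check cc230 tt230)
              (cov0 40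
               (cov_of_check cc231 tt231)
               (cov_of_check cc232 tt232)))
             (cov0 40
              (cov_of_check cc233 tt233)
              (cov_of_check cc234 tt234)))))
          (cov_of_check cc235 tt235)))))
      root12)
     (cov0 32
      root16
      root17))))

theorem root19 : Cov 0 32 0 64 96 128 0 32 64 128 0 32 :=
  (cov1 32
   (cov4 96
    (cov_of_check cc349 tt349)
    (cov2 112
     (cov4 112
      (cov3 16
       (cov_of_check cc350 tt350)
       (cov3 24
        (cov_of_check cc351 tt351)
        (cov5 16
         (cov_of_check cc352 tt352)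
         (cov5 24
          (cov_of_check cc353 tt353)
          (cov2 104
           (cov_of_check cc354 tt354)
           (cov4 104
            (cov_of_check cc355 tt355)
            (cov0 16
             (cov_of_check cc356 tt356)
             (cov1 16
              (cov_of_check cc357 tt357)
              (cov5 28
               (cov_of_check cc358 tt358)
               (cov_of_check cc359 tt359))))))))))
      (cov3 16
       (cov_of_check cc360 tt360)
       (cov3 24
        (cov_of_check cc361 tt361)
        (cov_of_check cc362 tt362))))
     (cov4 112
      (cov_of_check cc363 tt363)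
      (cov_of_check cc364 tt364))))
   (cov4 96
    (cov_of_check cc365 tt365)
    (cov4 112
     (cov0 16
      (cov_of_check cc366 tt366)
      (cov5 16
       (cov_of_check cc367 tt367)
       (cov1 48
        (cov3 16
         (cov_of_check cc368 tt368)
         (cov5 24
          (cov_of_check cc369 tt369)
          (cov_of_check cc370 tt370)))
        (cov_of_check cc371 tt371))))
     (cov5 16
      (cov_of_check cc372 tt372)
      (cov1 48
       (cov5 24
        (cov4 120
         (cov_of_check cc373 tt373)
         (cov3 16
          (cov_of_check cc374 tt374)
          (cov_of_check cc375 tt375)))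
        (cov1 40
         (cov_of_check cc376 tt376)
         (cov_of_check cc377 tt377)))
       (cov_of_check cc378 tt378))))))

theorem root20 : Cov 0 32 0 32 96 128 0 32 96 128 32 64 :=
  (cov4 112
   (cov0 16
    (cov_of_check cc391 tt391)
    (cov4 104
     (cov_of_check cc392 tt392)
     (cov5 48
      (cov2 112
       (cov_of_check cc393 tt393)
       (cov_of_check cc394 tt394))
      (cov_of_check cc395 tt395))))
   (cov2 112
    (cov3 16
     (cov5 48
      (cov2 104
       (cov5 40
        (cov_of_check cc396 tt396)
        (cov_of_check cc397 tt397))
       (cov_of_check cc398 tt398))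
      (cov_of_check cc399 tt399))
     (cov3 24
      (cov_of_check cc400 tt400)
      (cov1 16
       (cov_of_check cc401 tt401)
       (cov5 48
        (cov2 104
         (cov_of_check cc402 tt402)
         (cov_of_check cc403 tt403))
        (cov_of_check cc404 tt404)))))
    (cov5 48
     (cov3 16
      (cov_of_check cc405 tt405)
      (cov3 24
       (cov2 120
        (cov_of_check cc406 tt406)
        (cov_of_check cc407 tt407))
       (cov2 120
        (cov5 40
         (cov_of_check cc408 tt408)
         (cov_of_check cc409 tt409))
        (cov_of_check cc410 tt410))))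
     (cov_of_check cc411 tt411))))

theorem root21 : Cov 0 32 32 64 96 128 0 32 112 128 32 64 :=
  (cov3 16
   (cov1 48
    (cov2 112
     (cov5 48
      (cov0 16
       (cov1 40
        (cov2 104
         (cov5 40
          (cov4 120
           (cov_of_check cc416 tt416)
           (cov4 124
            (cov_of_check cc417 tt417)
            (cov3 8
             (cov_of_check cc418 tt418)
             (cov_of_check cc419 tt419))))
          (cov_of_check cc420 tt420))
         (cov_of_check cc421 tt421))
        (cov3 8
         (cov_of_check cc422 tt422)
         (cov_of_check cc423 tt423)))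
       (cov_of_check cc424 tt424))
      (cov_of_check cc425 tt425))
     (cov_of_check cc426 tt426))
    (cov_of_check cc427 tt427))
   (cov5 48
    (cov2 112
     (cov1 48
      (cov3 24
       (cov_of_check cc428 tt428)
       (cov_of_check cc429 tt429))
      (cov_of_check cc430 tt430))
     (cov0 16
      (cov1 48
       (cov3 24
        (cov2 120
         (cov_of_check cc431 tt431)
         (cov_of_check cc432 tt432))
        (cov_of_check cc433 tt433))
       (cov_of_check cc434 tt434))
      (cov1 48
       (cov0 24
        (cov2 120
         (cov1 40
          (cov_of_check cc435 tt435)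
          (cov_of_check cc436 tt436))
         (cov_of_check cc437 tt437))
        (cov_of_check cc438 tt438))
       (cov_of_check cc439 tt439))))
    (cov_of_check cc440 tt440)))

theorem root22 : Cov 0 64 0 64 96 128 0 32 64 128 0 64 :=
  (cov5 32
   (cov0 32
    root19
    (cov1 32
     (cov4 96
      (cov_of_check cc379 tt379)
      (cov2 112
       (cov1 16
        (cov_of_check cc380 tt380)
        (cov3 16
         (cov_of_check cc381 tt381)
         (cov0 48
          (cov3 24
           (cov_of_check cc382 tt382)
           (cov1 24
            (cov_of_check cc383 tt383)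
            (cov_of_check cc384 tt384)))
          (cov_of_check cc385 tt385))))
       (cov3 16
        (cov_of_check cc386 tt386)
        (cov0 48
         (cov_of_check cc387 tt387)
         (cov_of_check cc388 tt388)))))
     (cov_of_check cc389 tt389)))
   (cov4 96
    (cov_of_check cc390 tt390)
    (cov0 32
     (cov1 32
      root20
      (cov4 112
       (cov5 48
        (cov5 40
         (cov2 112
          (cov_of_check cc412 tt412)
          (cov_of_check cc413 tt413))
         (cov_of_check cc414 tt414))
        (cov_of_check cc415 tt415))
       root21))
     (cov1 32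
      (cov2 112
       (cov4 112
        (cov_of_check cc441 tt441)
        (cov_of_check cc442 tt442))
       (cov3 16
        (cov_of_check cc443 tt443)
        (cov0 48
         (cov5 48
          (cov3 24
           (cov_of_check cc444 tt444)
           (cov_of_check cc445 tt445))
          (cov_of_check cc446 tt446))
         (cov_of_check cc447 tt447))))
      (cov_of_check cc448 tt448)))))

theorem root23 : Cov 0 32 0 32 96 128 32 64 96 128 0 32 :=
  (cov2 112
   (cov1 16
    (cov_of_check cc450 tt450)
    (cov2 104
     (cov4 112
      (cov5 16
       (cov_of_check cc451 tt451)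
       (cov_of_check cc452 tt452))
      (cov5 16
       (cov_of_check cc453 tt453)
       (cov3 48
        (cov_of_check cc454 tt454)
        (cov3 56
         (cov_of_check cc455 tt455)
         (cov_of_check cc456 tt456)))))
     (cov3 48
      (cov4 112
       (cov_of_check cc457 tt457)
       (cov_of_check cc458 tt458))
      (cov_of_check cc459 tt459))))
   (cov4 112
    (cov_of_check cc460 tt460)
    (cov3 48
     (cov5 16
      (cov_of_check cc461 tt461)
      (cov5 24
       (cov4 120
        (cov_of_check cc462 tt462)
        (cov_of_check cc463 tt463))
       (cov4 120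
        (cov3 40
         (cov_of_check cc464 tt464)
         (cov_of_check cc465 tt465))
        (cov_of_check cc466 tt466))))
     (cov_of_check cc467 tt467))))

theorem root24 : Cov 32 64 0 32 96 112 32 64 96 128 0 32 :=
  (cov3 48
   (cov3 40
    (cov0 48
     (cov5 16
      (cov_of_check cc468 tt468)
      (cov4 112
       (cov_of_check cc469 tt469)
       (cov_of_check cc470 tt470)))
     (cov_of_check cc471 tt471))
    (cov_of_check cc472 tt472))
   (cov4 112
    (cov4 104
     (cov_of_check cc473 tt473)
     (cov5 16
      (cov_of_check cc474 tt474)
      (cov0 48
       (cov2 104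
        (cov1 16
         (cov_of_check cc475 tt475)
         (cov2 100
          (cov_of_check cc476 tt476)
          (cov_of_check cc477 tt477)))
        (cov_of_check cc478 tt478))
       (cov_of_check cc479 tt479))))
    (cov0 48
     (cov5 16
      (cov_of_check cc480 tt480)
      (cov0 40
       (cov2 104
        (cov4 120
         (cov3 56
          (cov_of_check cc481 tt481)
          (cov1 16
           (cov_of_check cc482 tt482)
           (cov1 24
            (cov_of_check cc483 tt483)
            (cov_of_check cc484 tt484))))
         (cov_of_check cc485 tt485))
        (cov_of_check cc486 tt486))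
       (cov_of_check cc487 tt487)))
     (cov_of_check cc488 tt488))))

theorem root25 : Cov 0 64 0 64 96 128 32 64 96 128 0 32 :=
  (cov1 32
   (cov0 32
    root23
    (cov2 112
     root24
     (cov3 48
      (cov0 48
       (cov5 16
        (cov_of_check cc489 tt489)
        (cov4 112
         (cov_of_check cc490 tt490)
         (cov1 16
          (cov2 120
           (cov_of_check cc491 tt491)
           (cov_of_check cc492 tt492))
          (cov3 40
           (cov_of_check cc493 tt493)
           (cov5 24
            (cov1 24
             (cov4 120
              (cov_of_check cc494 tt494)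
              (cov0 40
               (cov_of_check cc495 tt495)
               (cov_of_check cc496 tt496)))
             (cov_of_check cc497 tt497))
            (cov_of_check cc498 tt498))))))
       (cov_of_check cc499 tt499))
      (cov_of_check cc500 tt500))))
   (cov0 32
    (cov4 112
     (cov3 48
      (cov5 16
       (cov_of_check cc501 tt501)
       (cov2 112
        (cov_of_check cc502 tt502)
        (cov_of_check cc503 tt503)))
      (cov_of_check cc504 tt504))
     (cov5 16
      (cov_of_check cc505 tt505)
      (cov3 48
       (cov1 48
        (cov5 24
         (cov4 120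
          (cov_of_check cc506 tt506)
          (cov3 40
           (cov2 112
            (cov_of_check cc507 tt507)
            (cov_of_check cc508 tt508))
           (cov_of_check cc509 tt509)))
         (cov1 40
          (cov_of_check cc510 tt510)
          (cov3 40
           (cov_of_check cc511 tt511)
           (cov_of_check cc512 tt512))))
        (cov_of_check cc513 tt513))
       (cov_of_check cc514 tt514))))
    (cov2 112
     (cov_of_check cc515 tt515)
     (cov_of_check cc516 tt516))))

theorem root26 : Cov 16 32 16 32 96 112 32 64 96 128 32 64 :=
  (cov4 112
   (cov3 48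
    (cov0 24
     (cov_of_check cc523 tt523)
     (cov_of_check cc524 tt524))
    (cov5 48
     (cov_of_check cc525 tt525)
     (cov0 24
      (cov1 24
       (cov5 56
        (cov5 52
         (cov_of_check cc526 tt526)
         (cov_of_check cc527 tt527))
        (cov3 56
         (cov_of_check cc528 tt528)
         (cov2 104
          (cov_of_check cc529 tt529)
          (cov_of_check cc530 tt530))))
       (cov1 28
        (cov3 56
         (cov_of_check cc531 tt531)
         (cov5 56
          (cov_of_check cc532 tt532)
          (cov_of_check cc533 tt533)))
        (cov_of_check cc534 tt534)))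
      (cov1 24
       (cov0 28
        (cov5 56
         (cov_of_check cc535 tt535)
         (cov_of_check cc536 tt536))
        (cov_of_check cc537 tt537))
       (cov_of_check cc538 tt538)))))
   (cov3 48
    (cov_of_check cc539 tt539)
    (cov5 48
     (cov_of_check cc540 tt540)
     (cov_of_check cc541 tt541))))

theorem root27 : Cov 0 32 0 64 96 128 32 64 96 128 32 64 :=
  (cov1 32
   (cov0 16
    (cov4 112
     (cov_of_check cc517 tt517)
     (cov3 48
      (cov1 16
       (cov_of_check cc518 tt518)
       (cov_of_check cc519 tt519))
      (cov5 48
       (cov_of_check cc520 tt520)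
       (cov_of_check cc521 tt521))))
    (cov1 16
     (cov_of_check cc522 tt522)
     (cov2 112
      root26
      (cov_of_check cc542 tt542))))
   (cov1 48
    (cov4 112
     (cov3 48
      (cov5 48
       (cov5 40
        (cov_of_check cc543 tt543)
        (cov_of_check cc544 tt544))
       (cov_of_check cc545 tt545))
      (cov5 48
       (cov_of_check cc546 tt546)
       (cov_of_check cc547 tt547)))
     (cov3 48
      (cov5 48
       (cov5 40
        (cov_of_check cc548 tt548)
        (cov_of_check cc549 tt549))
       (cov_of_check cc550 tt550))
      (cov_of_check cc551 tt551)))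
    (cov_of_check cc552 tt552)))

theorem root28 : Cov 0 32 0 32 64 96 0 16 96 128 64 96 :=
  (cov0 16
   (cov5 80
    (cov_of_check cc565 tt565)
    (cov1 16
     (cov_of_check cc566 tt566)
     (cov4 112
      (cov_of_check cc567 tt567)
      (cov2 80
       (cov2 72
        (cov_of_check cc568 tt568)
        (cov4 120
         (cov_of_check cc569 tt569)
         (cov_of_check cc570 tt570)))
       (cov5 88
        (cov5 84
         (cov_of_check cc571 tt571)
         (cov4 120
          (cov_of_check cc572 tt572)
          (cov_of_check cc573 tt573)))
        (cov1 24
         (cov4 120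
          (cov_of_check cc574 tt574)
          (cov_of_check cc575 tt575))
         (cov_of_check cc576 tt576)))))))
   (cov1 16
    (cov5 80
     (cov_of_check cc577 tt577)
     (cov5 88
      (cov1 8
       (cov_of_check cc578 tt578)
       (cov_of_check cc579 tt579))
      (cov1 8
       (cov_of_check cc580 tt580)
       (cov3 8
        (cov_of_check cc581 tt581)
        (cov2 80
         (cov_of_check cc582 tt582)
         (cov_of_check cc583 tt583))))))
    (cov5 80
     (cov_of_check cc584 tt584)
     (cov2 80
      (cov_of_check cc585 tt585)
      (cov0 24
       (cov5 88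
        (cov_of_check cc586 tt586)
        (cov_of_check cc587 tt587))
       (cov_of_check cc588 tt588))))))

theorem root29 : Cov 0 32 16 32 64 96 16 32 96 128 64 96 :=
  (cov5 80
   (cov0 16
    (cov_of_check cc592 tt592)
    (cov1 24
     (cov5 72
      (cov_of_check cc593 tt593)
      (cov_of_check cc594 tt594))
     (cov_of_check cc595 tt595)))
   (cov0 16
    (cov4 112
     (cov_of_check cc596 tt596)
     (cov2 80
      (cov2 72
       (cov_of_check cc597 tt597)
       (cov_of_check cc598 tt598))
      (cov3 24
       (cov5 88
        (cov_of_check cc599 tt599)
        (cov_of_check cc600 tt600))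
       (cov2 88
        (cov5 88
         (cov_of_check cc601 tt601)
         (cov_of_check cc602 tt602))
        (cov_of_check cc603 tt603)))))
    (cov1 24
     (cov5 88
      (cov0 24
       (cov_of_check cc604 tt604)
       (cov_of_check cc605 tt605))
      (cov_of_check cc606 tt606))
     (cov0 24
      (cov5 88
       (cov3 24
        (cov_of_check cc607 tt607)
        (cov_of_check cc608 tt608))
       (cov_of_check cc609 tt609))
      (cov_of_check cc610 tt610)))))

theorem root30 : Cov 0 32 0 32 64 96 32 64 96 128 64 96 :=
  (cov2 80
   (cov3 48
    (cov1 16
     (cov_of_check cc611 tt611)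
     (cov0 16
      (cov5 80
       (cov_of_check cc612 tt612)
       (cov5 88
        (cov_of_check cc613 tt613)
        (cov_of_check cc614 tt614)))
      (cov5 80
       (cov_of_check cc615 tt615)
       (cov1 24
        (cov3 40
         (cov2 72
          (cov_of_check cc616 tt616)
          (cov_of_check cc617 tt617))
         (cov_of_check cc618 tt618))
        (cov0 24
         (cov5 88
          (cov_of_check cc619 tt619)
          (cov4 112
           (cov_of_check cc620 tt620)
           (cov_of_check cc621 tt621)))
         (cov4 112
          (cov0 28
           (cov1 28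
            (cov_of_check cc622 tt622)
            (cov_of_check cc623 tt623))
           (cov_of_check cc624 tt624))
          (cov_of_check cc625 tt625)))))))
    (cov_of_check cc626 tt626))
   (cov0 16
    (cov_of_check cc627 tt627)
    (cov3 48
     (cov2 88
      (cov3 40
       (cov_of_check cc628 tt628)
       (cov_of_check cc629 tt629))
      (cov_of_check cc630 tt630))
     (cov1 16
      (cov_of_check cc631 tt631)
      (cov1 24
       (cov_of_check cc632 tt632)
       (cov_of_check cc633 tt633))))))

theorem root31 : Cov 0 32 0 32 64 96 0 32 96 128 96 128 :=
  (cov4 112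
   (cov1 16
    (cov_of_check cc634 tt634)
    (cov0 16
     (cov_of_check cc635 tt635)
     (cov1 24
      (cov_of_check cc636 tt636)
      (cov_of_check cc637 tt637))))
   (cov0 16
    (cov5 112
     (cov1 16
      (cov_of_check cc638 tt638)
      (cov1 24
       (cov2 80
        (cov_of_check cc639 tt639)
        (cov3 16
         (cov_of_check cc640 tt640)
         (cov_of_check cc641 tt641)))
       (cov0 8
        (cov_of_check cc642 tt642)
        (cov5 104
         (cov4 120
          (cov_of_check cc643 tt643)
          (cov_of_check cc644 tt644))
         (cov_of_check cc645 tt645)))))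
     (cov_of_check cc646 tt646))
    (cov5 112
     (cov5 104
      (cov4 120
       (cov1 16
        (cov_of_check cc647 tt647)
        (cov_of_check cc648 tt648))
       (cov_of_check cc649 tt649))
      (cov_of_check cc650 tt650))
     (cov_of_check cc651 tt651))))

theorem root32 : Cov 0 32 0 32 64 96 0 64 96 128 64 128 :=
  (cov5 96
   (cov3 32
    (cov3 16
     root28
     (cov1 16
      (cov0 16
       (cov_of_check cc589 tt589)
       (cov5 80
        (cov_of_check cc590 tt590)
        (cov_of_check cc591 tt591)))
      root29))
    root30)
   (cov3 32
    root31
    (cov3 48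
     (cov0 16
      (cov1 16
       (cov_of_check cc652 tt652)
       (cov5 112
        (cov2 80
         (cov_of_check cc653 tt653)
         (cov_of_check cc654 tt654))
        (cov_of_check cc655 tt655)))
      (cov1 16
       (cov_of_check cc656 tt656)
       (cov3 40
        (cov_of_check cc657 tt657)
        (cov1 24
         (cov_of_check cc658 tt658)
         (cov_of_check cc659 tt659)))))
     (cov2 80
      (cov_of_check cc660 tt660)
      (cov_of_check cc661 tt661)))))

theorem root33 : Cov 16 32 16 32 96 128 32 64 96 128 64 96 :=
  (cov0 24
   (cov_of_check cc687 tt687)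
   (cov3 48
    (cov1 24
     (cov5 80
      (cov_of_check cc688 tt688)
      (cov_of_check cc689 tt689))
     (cov_of_check cc690 tt690))
    (cov1 24
     (cov5 80
      (cov2 112
       (cov4 112
        (cov1 20
         (cov_of_check cc691 tt691)
         (cov_of_check cc692 tt692))
        (cov_of_check cc693 tt693))
       (cov_of_check cc694 tt694))
      (cov5 88
       (cov2 112
        (cov4 112
         (cov1 20
          (cov_of_check cc695 tt695)
          (cov0 28
           (cov_of_check cc696 tt696)
           (cov_of_check cc697 tt697)))
         (cov_of_check cc698 tt698))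
        (cov_of_check cc699 tt699))
       (cov_of_check cc700 tt700)))
     (cov5 80
      (cov_of_check cc701 tt701)
      (cov2 112
       (cov_of_check cc702 tt702)
       (cov_of_check cc703 tt703))))))

theorem root34 : Cov 0 32 0 32 96 128 0 64 64 128 64 96 :=
  (cov3 32
   (cov4 96
    (cov_of_check cc662 tt662)
    (cov4 112
     (cov0 16
      (cov_of_check cc663 tt663)
      (cov3 16
       (cov_of_check cc664 tt664)
       (cov_of_check cc665 tt665)))
     (cov5 80
      (cov1 16
       (cov_of_check cc666 tt666)
       (cov_of_check cc667 tt667))
      (cov1 16
       (cov_of_check cc668 tt668)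
       (cov3 16
        (cov2 112
         (cov0 16
          (cov5 88
           (cov_of_check cc669 tt669)
           (cov1 24
            (cov_of_check cc670 tt670)
            (cov_of_check cc671 tt671)))
          (cov_of_check cc672 tt672))
         (cov_of_check cc673 tt673))
        (cov_of_check cc674 tt674))))))
   (cov4 96
    (cov_of_check cc675 tt675)
    (cov0 16
     (cov1 16
      (cov_of_check cc676 tt676)
      (cov5 80
       (cov_of_check cc677 tt677)
       (cov1 24
        (cov_of_check cc678 tt678)
        (cov_of_check cc679 tt679))))
     (cov1 16
      (cov5 80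
       (cov5 72
        (cov_of_check cc680 tt680)
        (cov_of_check cc681 tt681))
       (cov5 88
        (cov3 48
         (cov0 24
          (cov_of_check cc682 tt682)
          (cov1 8
           (cov_of_check cc683 tt683)
           (cov_of_check cc684 tt684)))
         (cov_of_check cc685 tt685))
        (cov_of_check cc686 tt686)))
      root33))))

theorem root35 : Cov 0 32 0 32 96 128 0 32 64 128 96 128 :=
  (cov4 96
   (cov_of_check cc704 tt704)
   (cov4 112
    (cov_of_check cc705 tt705)
    (cov2 112
     (cov5 112
      (cov3 16
       (cov5 104
        (cov1 16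
         (cov_of_check cc706 tt706)
         (cov0 16
          (cov5 100
           (cov_of_check cc707 tt707)
           (cov4 120
            (cov_of_check cc708 tt708)
            (cov1 24
             (cov_of_check cc709 tt709)
             (cov_of_check cc710 tt710))))
          (cov_of_check cc711 tt711)))
        (cov0 16
         (cov1 16
          (cov_of_check cc712 tt712)
          (cov5 108
           (cov0 8
            (cov_of_check cc713 tt713)
            (cov_of_check cc714 tt714))
           (cov_of_check cc715 tt715)))
         (cov_of_check cc716 tt716)))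
       (cov1 16
        (cov_of_check cc717 tt717)
        (cov_of_check cc718 tt718)))
      (cov_of_check cc719 tt719))
     (cov_of_check cc720 tt720))))

theorem root36 : Cov 8 16 32 40 88 96 0 16 112 120 88 96 :=
  (cov3 8
   (cov_of_check cc748 tt748)
   (cov1 36
    (cov2 92
     (cov3 12
      (cov_of_check cc749 tt749)
      (cov4 116
       (cov_of_check cc750 tt750)
       (cov5 92
        (cov_of_check cc751 tt751)
        (cov0 12
         (cov_of_check cc752 tt752)
         (cov_of_check cc753 tt753)))))
     (cov5 92
      (cov_of_check cc754 tt754)
      (cov0 12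
       (cov4 116
        (cov_of_check cc755 tt755)
        (cov3 12
         (cov_of_check cc756 tt756)
         (cov_of_check cc757 tt757)))
       (cov3 12
        (cov_of_check cc758 tt758)
        (cov_of_check cc759 tt759)))))
    (cov2 92
     (cov3 12
      (cov_of_check cc760 tt760)
      (cov4 116
       (cov_of_check cc761 tt761)
       (cov_of_check cc762 tt762)))
     (cov3 12
      (cov_of_check cc763 tt763)
      (cov_of_check cc764 tt764)))))

theorem root37 : Cov 0 16 32 48 80 96 0 16 112 128 88 96 :=
  (cov0 8
   (cov_of_check cc740 tt740)
   (cov2 88
    (cov3 8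
     (cov_of_check cc741 tt741)
     (cov1 40
      (cov2 84
       (cov_of_check cc742 tt742)
       (cov3 12
        (cov_of_check cc743 tt743)
        (cov4 120
         (cov0 12
          (cov_of_check cc744 tt744)
          (cov_of_check cc745 tt745))
         (cov_of_check cc746 tt746))))
      (cov_of_check cc747 tt747)))
    (cov4 120
     (cov1 40
      root36
      (cov3 8
       (cov_of_check cc765 tt765)
       (cov1 44
        (cov2 92
         (cov_of_check cc766 tt766)
         (cov0 12
          (cov_of_check cc767 tt767)
          (cov1 42
           (cov_of_check cc768 tt768)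
           (cov3 12
            (cov_of_check cc769 tt769)
            (cov_of_check cc770 tt770)))))
        (cov_of_check cc771 tt771))))
     (cov_of_check cc772 tt772))))

theorem root38 : Cov 0 16 32 48 80 96 0 32 96 128 64 96 :=
  (cov3 16
   (cov4 112
    (cov_of_check cc731 tt731)
    (cov5 80
     (cov_of_check cc732 tt732)
     (cov5 88
      (cov4 120
       (cov5 84
        (cov_of_check cc733 tt733)
        (cov3 8
         (cov_of_check cc734 tt734)
         (cov2 88
          (cov_of_check cc735 tt735)
          (cov4 116
           (cov1 40
            (cov_of_check cc736 tt736)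
            (cov_of_check cc737 tt737))
           (cov_of_check cc738 tt738)))))
       (cov_of_check cc739 tt739))
      root37)))
   (cov5 80
    (cov_of_check cc773 tt773)
    (cov4 112
     (cov_of_check cc774 tt774)
     (cov0 8
      (cov_of_check cc775 tt775)
      (cov1 40
       (cov0 12
        (cov1 36
         (cov4 120
          (cov3 24
           (cov_of_check cc776 tt776)
           (cov_of_check cc777 tt777))
          (cov_of_check cc778 tt778))
         (cov_of_check cc779 tt779))
        (cov1 36
         (cov4 120
          (cov3 24
           (cov_of_check cc780 tt780)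
           (cov_of_check cc781 tt781))
          (cov_of_check cc782 tt782))
         (cov_of_check cc783 tt783)))
       (cov2 88
        (cov_of_check cc784 tt784)
        (cov_of_check cc785 tt785)))))))

theorem root39 : Cov 16 32 32 64 64 96 16 32 112 128 80 96 :=
  (cov2 80
   (cov4 120
    (cov2 72
     (cov5 88
      (cov_of_check cc813 tt813)
      (cov_of_check cc814 tt814))
     (cov_of_check cc815 tt815))
    (cov2 72
     (cov5 88
      (cov_of_check cc816 tt816)
      (cov_of_check cc817 tt817))
     (cov_of_check cc818 tt818)))
   (cov1 48
    (cov1 40
     (cov5 88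
      (cov_of_check cc819 tt819)
      (cov0 24
       (cov5 92
        (cov_of_check cc820 tt820)
        (cov_of_check cc821 tt821))
       (cov_of_check cc822 tt822)))
     (cov2 88
      (cov3 24
       (cov_of_check cc823 tt823)
       (cov3 28
        (cov_of_check cc824 tt824)
        (cov4 120
         (cov5 88
          (cov_of_check cc825 tt825)
          (cov_of_check cc826 tt826))
         (cov_of_check cc827 tt827))))
      (cov_of_check cc828 tt828)))
    (cov_of_check cc829 tt829)))

theorem root40 : Cov 16 32 32 64 64 96 0 32 96 128 80 96 :=
  (cov4 112
   (cov1 48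
    (cov3 16
     (cov1 40
      (cov_of_check cc792 tt792)
      (cov_of_check cc793 tt793))
     (cov2 80
      (cov_of_check cc794 tt794)
      (cov0 24
       (cov5 88
        (cov_of_check cc795 tt795)
        (cov1 40
         (cov_of_check cc796 tt796)
         (cov_of_check cc797 tt797)))
       (cov4 104
        (cov_of_check cc798 tt798)
        (cov_of_check cc799 tt799)))))
    (cov2 80
     (cov_of_check cc800 tt800)
     (cov_of_check cc801 tt801)))
   (cov3 16
    (cov1 48
     (cov2 80
      (cov_of_check cc802 tt802)
      (cov4 120
       (cov5 88
        (cov1 40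
         (cov_of_check cc803 tt803)
         (cov_of_check cc804 tt804))
        (cov5 92
         (cov_of_check cc805 tt805)
         (cov0 24
          (cov3 8
           (cov_of_check cc806 tt806)
           (cov1 40
            (cov_of_check cc807 tt807)
            (cov_of_check cc808 tt808)))
          (cov_of_check cc809 tt809))))
       (cov_of_check cc810 tt810)))
     (cov1 56
      (cov_of_check cc811 tt811)
      (cov_of_check cc812 tt812)))
    root39))

theorem root41 : Cov 0 16 32 64 80 96 0 32 112 128 96 112 :=
  (cov3 16
   (cov1 48
    (cov2 88
     (cov2 84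
      (cov_of_check cc842 tt842)
      (cov3 8
       (cov_of_check cc843 tt843)
       (cov5 104
        (cov_of_check cc844 tt844)
        (cov_of_check cc845 tt845))))
     (cov3 8
      (cov2 92
       (cov_of_check cc846 tt846)
       (cov_of_check cc847 tt847))
      (cov2 92
       (cov5 104
        (cov_of_check cc848 tt848)
        (cov_of_check cc849 tt849))
       (cov1 40
        (cov_of_check cc850 tt850)
        (cov_of_check cc851 tt851)))))
    (cov1 56
     (cov3 8
      (cov_of_check cc852 tt852)
      (cov1 52
       (cov2 88
        (cov_of_check cc853 tt853)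
        (cov_of_check cc854 tt854))
       (cov_of_check cc855 tt855)))
     (cov_of_check cc856 tt856)))
   (cov2 88
    (cov_of_check cc857 tt857)
    (cov_of_check cc858 tt858)))

theorem root42 : Cov 16 32 32 64 64 96 0 32 112 128 96 128 :=
  (cov2 80
   (cov5 112
    (cov3 16
     (cov_of_check cc860 tt860)
     (cov_of_check cc861 tt861))
    (cov_of_check cc862 tt862))
   (cov5 112
    (cov3 16
     (cov1 48
      (cov5 104
       (cov4 120
        (cov2 88
         (cov_of_check cc863 tt863)
         (cov3 8
          (cov_of_check cc864 tt864)
          (cov0 24
           (cov_of_check cc865 tt865)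
           (cov_of_check cc866 tt866))))
        (cov5 100
         (cov_of_check cc867 tt867)
         (cov2 88
          (cov_of_check cc868 tt868)
          (cov_of_check cc869 tt869))))
       (cov_of_check cc870 tt870))
      (cov1 56
       (cov_of_check cc871 tt871)
       (cov_of_check cc872 tt872)))
     (cov2 88
      (cov_of_check cc873 tt873)
      (cov1 48
       (cov5 104
        (cov_of_check cc874 tt874)
        (cov_of_check cc875 tt875))
       (cov_of_check cc876 tt876))))
    (cov_of_check cc877 tt877)))

theorem root43 : Cov 0 32 32 64 64 96 0 32 96 128 64 128 :=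
  (cov5 96
   (cov0 16
    (cov1 48
     (cov2 80
      (cov4 112
       (cov_of_check cc728 tt728)
       (cov2 72
        (cov_of_check cc729 tt729)
        (cov_of_check cc730 tt730)))
      root38)
     (cov5 80
      (cov_of_check cc786 tt786)
      (cov_of_check cc787 tt787)))
    (cov5 80
     (cov4 112
      (cov1 48
       (cov_of_check cc788 tt788)
       (cov0 24
        (cov_of_check cc789 tt789)
        (cov_of_check cc790 tt790)))
      (cov_of_check cc791 tt791))
     root40))
   (cov4 112
    (cov0 16
     (cov2 80
      (cov_of_check cc830 tt830)
      (cov_of_check cc831 tt831))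
     (cov1 48
      (cov5 112
       (cov5 104
        (cov2 80
         (cov_of_check cc832 tt832)
         (cov1 40
          (cov_of_check cc833 tt833)
          (cov_of_check cc834 tt834)))
        (cov_of_check cc835 tt835))
       (cov_of_check cc836 tt836))
      (cov0 24
       (cov5 112
        (cov_of_check cc837 tt837)
        (cov_of_check cc838 tt838))
       (cov2 80
        (cov_of_check cc839 tt839)
        (cov_of_check cc840 tt840)))))
    (cov0 16
     (cov2 80
      (cov_of_check cc841 tt841)
      (cov5 112
       root41
       (cov_of_check cc859 tt859)))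
     root42)))

theorem root44 : Cov 0 32 32 64 96 112 0 32 112 128 64 96 :=
  (cov3 16
   (cov1 48
    (cov5 80
     (cov5 72
      (cov_of_check cc888 tt888)
      (cov0 16
       (cov5 76
        (cov_of_check cc889 tt889)
        (cov1 40
         (cov4 120
          (cov_of_check cc890 tt890)
          (cov_of_check cc891 tt891))
         (cov_of_check cc892 tt892)))
       (cov_of_check cc893 tt893)))
     (cov0 16
      (cov1 40
       (cov2 104
        (cov_of_check cc894 tt894)
        (cov0 8
         (cov_of_check cc895 tt895)
         (cov3 8
          (cov_of_check cc896 tt896)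
          (cov_of_check cc897 tt897))))
       (cov1 44
        (cov0 8
         (cov_of_check cc898 tt898)
         (cov_of_check cc899 tt899))
        (cov_of_check cc900 tt900)))
      (cov1 40
       (cov_of_check cc901 tt901)
       (cov_of_check cc902 tt902))))
    (cov_of_check cc903 tt903))
   (cov2 104
    (cov1 48
     (cov3 24
      (cov1 40
       (cov_of_check cc904 tt904)
       (cov0 16
        (cov_of_check cc905 tt905)
        (cov_of_check cc906 tt906)))
      (cov_of_check cc907 tt907))
     (cov_of_check cc908 tt908))
    (cov1 48
     (cov1 40
      (cov_of_check cc909 tt909)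
      (cov_of_check cc910 tt910))
     (cov_of_check cc911 tt911))))

theorem root45 : Cov 0 32 32 64 96 128 0 32 96 128 64 96 :=
  (cov2 112
   (cov4 112
    (cov1 48
     (cov3 16
      (cov_of_check cc879 tt879)
      (cov2 104
       (cov3 24
        (cov1 40
         (cov_of_check cc880 tt880)
         (cov_of_check cc881 tt881))
        (cov_of_check cc882 tt882))
       (cov1 40
        (cov_of_check cc883 tt883)
        (cov_of_check cc884 tt884))))
     (cov3 16
      (cov_of_check cc885 tt885)
      (cov2 104
       (cov_of_check cc886 tt886)
       (cov_of_check cc887 tt887))))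
    root44)
   (cov4 112
    (cov3 16
     (cov_of_check cc912 tt912)
     (cov_of_check cc913 tt913))
    (cov5 80
     (cov3 16
      (cov_of_check cc914 tt914)
      (cov1 48
       (cov0 16
        (cov5 72
         (cov_of_check cc915 tt915)
         (cov0 8
          (cov_of_check cc916 tt916)
          (cov_of_check cc917 tt917)))
        (cov_of_check cc918 tt918))
       (cov_of_check cc919 tt919)))
     (cov3 16
      (cov_of_check cc920 tt920)
      (cov1 48
       (cov1 40
        (cov2 120
         (cov4 120
          (cov_of_check cc921 tt921)
          (cov_of_check cc922 tt922))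
         (cov_of_check cc923 tt923))
        (cov2 120
         (cov_of_check cc924 tt924)
         (cov_of_check cc925 tt925)))
       (cov_of_check cc926 tt926))))))

theorem root46 : Cov 0 32 32 64 64 128 0 32 64 128 64 128 :=
  (cov2 96
   (cov4 96
    (cov_of_check cc727 tt727)
    root43)
   (cov4 96
    (cov_of_check cc878 tt878)
    (cov5 96
     root45
     (cov3 16
      (cov4 112
       (cov_of_check cc927 tt927)
       (cov1 48
        (cov5 112
         (cov2 112
          (cov0 16
           (cov1 40
            (cov2 104
             (cov_of_check cc928 tt928)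
             (cov_of_check cc929 tt929))
            (cov2 104
             (cov_of_check cc930 tt930)
             (cov_of_check cc931 tt931)))
           (cov_of_check cc932 tt932))
          (cov_of_check cc933 tt933))
         (cov_of_check cc934 tt934))
        (cov_of_check cc935 tt935)))
      (cov4 112
       (cov_of_check cc936 tt936)
       (cov5 112
        (cov3 24
         (cov_of_check cc937 tt937)
         (cov_of_check cc938 tt938))
        (cov_of_check cc939 tt939)))))))

theorem root47 : Cov 0 16 32 64 64 80 32 48 96 128 64 96 :=
  (cov5 80
   (cov4 112
    (cov_of_check cc941 tt941)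
    (cov5 72
     (cov_of_check cc942 tt942)
     (cov_of_check cc943 tt943)))
   (cov4 112
    (cov_of_check cc944 tt944)
    (cov1 48
     (cov0 8
      (cov_of_check cc945 tt945)
      (cov2 72
       (cov3 40
        (cov5 88
         (cov_of_check cc946 tt946)
         (cov4 120
          (cov0 12
           (cov_of_check cc947 tt947)
           (cov_of_check cc948 tt948))
          (cov_of_check cc949 tt949)))
        (cov_of_check cc950 tt950))
       (cov3 40
        (cov4 120
         (cov0 12
          (cov_of_check cc951 tt951)
          (cov5 88
           (cov_of_check cc952 tt952)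
           (cov1 40
            (cov_of_check cc953 tt953)
            (cov_of_check cc954 tt954))))
         (cov_of_check cc955 tt955))
        (cov_of_check cc956 tt956))))
     (cov_of_check cc957 tt957))))

theorem root48 : Cov 16 32 32 64 64 80 32 48 96 128 80 96 :=
  (cov3 40
   (cov0 24
    (cov2 72
     (cov1 48
      (cov4 112
       (cov_of_check cc959 tt959)
       (cov_of_check cc960 tt960))
      (cov_of_check cc961 tt961))
     (cov1 48
      (cov5 88
       (cov_of_check cc962 tt962)
       (cov4 112
        (cov_of_check cc963 tt963)
        (cov4 120
         (cov1 40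
          (cov_of_check cc964 tt964)
          (cov_of_check cc965 tt965))
         (cov_of_check cc966 tt966))))
      (cov_of_check cc967 tt967)))
    (cov1 48
     (cov1 40
      (cov_of_check cc968 tt968)
      (cov2 72
       (cov_of_check cc969 tt969)
       (cov_of_check cc970 tt970)))
     (cov_of_check cc971 tt971)))
   (cov1 48
    (cov0 24
     (cov2 72
      (cov_of_check cc972 tt972)
      (cov5 88
       (cov_of_check cc973 tt973)
       (cov4 112
        (cov_of_check cc974 tt974)
        (cov_of_check cc975 tt975))))
     (cov_of_check cc976 tt976))
    (cov_of_check cc977 tt977)))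

theorem root49 : Cov 0 32 32 64 88 96 40 48 96 128 64 96 :=
  (cov0 16
   (cov1 48
    (cov1 40
     (cov_of_check cc993 tt993)
     (cov0 8
      (cov_of_check cc994 tt994)
      (cov5 80
       (cov_of_check cc995 tt995)
       (cov_of_check cc996 tt996))))
    (cov5 80
     (cov_of_check cc997 tt997)
     (cov_of_check cc998 tt998)))
   (cov1 48
    (cov1 40
     (cov_of_check cc999 tt999)
     (cov0 24
      (cov_of_check cc1000 tt1000)
      (cov5 80
       (cov_of_check cc1001 tt1001)
       (cov5 88
        (cov_of_check cc1002 tt1002)
        (cov_of_check cc1003 tt1003)))))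
    (cov5 80
     (cov_of_check cc1004 tt1004)
     (cov0 24
      (cov_of_check cc1005 tt1005)
      (cov1 56
       (cov5 88
        (cov_of_check cc1006 tt1006)
        (cov4 112
         (cov_of_check cc1007 tt1007)
         (cov_of_check cc1008 tt1008)))
       (cov_of_check cc1009 tt1009))))))

theorem root50 : Cov 0 32 32 64 64 96 32 48 96 128 64 96 :=
  (cov2 80
   (cov0 16
    root47
    (cov5 80
     (cov_of_check cc958 tt958)
     root48))
   (cov3 40
    (cov5 80
     (cov1 48
      (cov_of_check cc978 tt978)
      (cov_of_check cc979 tt979))
     (cov2 88
      (cov1 48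
       (cov0 16
        (cov_of_check cc980 tt980)
        (cov0 24
         (cov5 88
          (cov_of_check cc981 tt981)
          (cov_of_check cc982 tt982))
         (cov1 40
          (cov_of_check cc983 tt983)
          (cov4 112
           (cov_of_check cc984 tt984)
           (cov4 120
            (cov2 84
             (cov_of_check cc985 tt985)
             (cov_of_check cc986 tt986))
            (cov_of_check cc987 tt987))))))
       (cov_of_check cc988 tt988))
      (cov_of_check cc989 tt989)))
    (cov2 88
     (cov0 16
      (cov_of_check cc990 tt990)
      (cov0 24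
       (cov_of_check cc991 tt991)
       (cov_of_check cc992 tt992)))
     root49)))

theorem root51 : Cov 16 32 32 64 64 96 32 64 96 128 96 128 :=
  (cov4 112
   (cov5 112
    (cov5 104
     (cov3 48
      (cov4 104
       (cov2 80
        (cov_of_check cc1031 tt1031)
        (cov_of_check cc1032 tt1032))
       (cov2 80
        (cov3 40
         (cov_of_check cc1033 tt1033)
         (cov2 72
          (cov_of_check cc1034 tt1034)
          (cov_of_check cc1035 tt1035)))
        (cov_of_check cc1036 tt1036)))
      (cov_of_check cc1037 tt1037))
     (cov3 48
      (cov2 80
       (cov_of_check cc1038 tt1038)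
       (cov_of_check cc1039 tt1039))
      (cov_of_check cc1040 tt1040)))
    (cov_of_check cc1041 tt1041))
   (cov5 112
    (cov3 48
     (cov2 80
      (cov3 40
       (cov2 72
        (cov_of_check cc1042 tt1042)
        (cov_of_check cc1043 tt1043))
       (cov_of_check cc1044 tt1044))
      (cov3 40
       (cov_of_check cc1045 tt1045)
       (cov_of_check cc1046 tt1046)))
     (cov2 80
      (cov_of_check cc1047 tt1047)
      (cov_of_check cc1048 tt1048)))
    (cov_of_check cc1049 tt1049)))

theorem root52 : Cov 0 32 32 64 64 96 32 64 96 128 64 128 :=
  (cov5 96
   (cov3 48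
    root50
    (cov2 80
     (cov_of_check cc1010 tt1010)
     (cov0 16
      (cov3 56
       (cov2 88
        (cov_of_check cc1011 tt1011)
        (cov1 48
         (cov_of_check cc1012 tt1012)
         (cov4 112
          (cov_of_check cc1013 tt1013)
          (cov1 56
           (cov4 120
            (cov_of_check cc1014 tt1014)
            (cov_of_check cc1015 tt1015))
           (cov_of_check cc1016 tt1016)))))
       (cov_of_check cc1017 tt1017))
      (cov0 24
       (cov2 88
        (cov_of_check cc1018 tt1018)
        (cov_of_check cc1019 tt1019))
       (cov_of_check cc1020 tt1020)))))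
   (cov0 16
    (cov4 112
     (cov5 112
      (cov4 104
       (cov_of_check cc1021 tt1021)
       (cov2 80
        (cov_of_check cc1022 tt1022)
        (cov_of_check cc1023 tt1023)))
      (cov_of_check cc1024 tt1024))
     (cov5 112
      (cov2 80
       (cov3 48
        (cov2 72
         (cov_of_check cc1025 tt1025)
         (cov_of_check cc1026 tt1026))
        (cov_of_check cc1027 tt1027))
       (cov3 48
        (cov_of_check cc1028 tt1028)
        (cov_of_check cc1029 tt1029)))
      (cov_of_check cc1030 tt1030)))
    root51))

theorem root53 : Cov 0 32 32 64 96 112 32 48 96 128 64 96 :=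
  (cov2 104
   (cov3 40
    (cov_of_check cc1050 tt1050)
    (cov0 16
     (cov1 48
      (cov_of_check cc1051 tt1051)
      (cov_of_check cc1052 tt1052))
     (cov1 48
      (cov1 40
       (cov_of_check cc1053 tt1053)
       (cov0 24
        (cov_of_check cc1054 tt1054)
        (cov5 80
         (cov_of_check cc1055 tt1055)
         (cov5 88
          (cov_of_check cc1056 tt1056)
          (cov_of_check cc1057 tt1057)))))
      (cov5 80
       (cov0 24
        (cov_of_check cc1058 tt1058)
        (cov_of_check cc1059 tt1059))
       (cov4 112
        (cov_of_check cc1060 tt1060)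
        (cov3 44
         (cov_of_check cc1061 tt1061)
         (cov_of_check cc1062 tt1062)))))))
   (cov3 40
    (cov1 48
     (cov1 40
      (cov_of_check cc1063 tt1063)
      (cov4 112
       (cov5 80
        (cov_of_check cc1064 tt1064)
        (cov5 88
         (cov_of_check cc1065 tt1065)
         (cov_of_check cc1066 tt1066)))
       (cov_of_check cc1067 tt1067)))
     (cov5 80
      (cov_of_check cc1068 tt1068)
      (cov_of_check cc1069 tt1069)))
    (cov1 48
     (cov_of_check cc1070 tt1070)
     (cov_of_check cc1071 tt1071))))

theorem root54 : Cov 0 32 32 64 96 128 32 64 96 128 96 112 :=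
  (cov4 112
   (cov3 48
    (cov2 112
     (cov3 40
      (cov2 104
       (cov_of_check cc1083 tt1083)
       (cov4 104
        (cov_of_check cc1084 tt1084)
        (cov5 104
         (cov1 48
          (cov1 40
           (cov_of_check cc1085 tt1085)
           (cov0 16
            (cov_of_check cc1086 tt1086)
            (cov1 44
             (cov_of_check cc1087 tt1087)
             (cov_of_check cc1088 tt1088))))
          (cov_of_check cc1089 tt1089))
         (cov_of_check cc1090 tt1090))))
      (cov0 16
       (cov_of_check cc1091 tt1091)
       (cov_of_check cc1092 tt1092)))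
     (cov_of_check cc1093 tt1093))
    (cov3 56
     (cov2 112
      (cov0 16
       (cov_of_check cc1094 tt1094)
       (cov_of_check cc1095 tt1095))
      (cov_of_check cc1096 tt1096))
     (cov_of_check cc1097 tt1097)))
   (cov2 112
    (cov1 48
     (cov4 120
      (cov3 48
       (cov2 104
        (cov_of_check cc1098 tt1098)
        (cov_of_check cc1099 tt1099))
       (cov_of_check cc1100 tt1100))
      (cov_of_check cc1101 tt1101))
     (cov4 120
      (cov2 104
       (cov3 48
        (cov_of_check cc1102 tt1102)
        (cov_of_check cc1103 tt1103))
       (cov_of_check cc1104 tt1104))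
      (cov_of_check cc1105 tt1105)))
    (cov_of_check cc1106 tt1106)))

theorem root55 : Cov 0 32 32 64 96 128 32 64 96 128 64 128 :=
  (cov5 96
   (cov2 112
    (cov3 48
     root53
     (cov0 16
      (cov1 48
       (cov1 40
        (cov_of_check cc1072 tt1072)
        (cov_of_check cc1073 tt1073))
       (cov5 80
        (cov_of_check cc1074 tt1074)
        (cov_of_check cc1075 tt1075)))
      (cov1 48
       (cov1 40
        (cov_of_check cc1076 tt1076)
        (cov3 56
         (cov_of_check cc1077 tt1077)
         (cov_of_check cc1078 tt1078)))
       (cov3 56
        (cov0 24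
         (cov_of_check cc1079 tt1079)
         (cov_of_check cc1080 tt1080))
        (cov_of_check cc1081 tt1081)))))
    (cov_of_check cc1082 tt1082))
   (cov5 112
    root54
    (cov4 112
     (cov4 104
      (cov_of_check cc1107 tt1107)
      (cov5 120
       (cov2 112
        (cov2 104
         (cov_of_check cc1108 tt1108)
         (cov_of_check cc1109 tt1109))
        (cov_of_check cc1110 tt1110))
       (cov_of_check cc1111 tt1111)))
     (cov1 48
      (cov_of_check cc1112 tt1112)
      (cov0 16
       (cov_of_check cc1113 tt1113)
       (cov_of_check cc1114 tt1114))))))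

theorem root56 : Cov 32 48 16 32 64 96 0 32 96 128 64 96 :=
  (cov1 24
   (cov0 40
    (cov5 80
     (cov2 80
      (cov_of_check cc1117 tt1117)
      (cov3 16
       (cov_of_check cc1118 tt1118)
       (cov2 88
        (cov_of_check cc1119 tt1119)
        (cov_of_check cc1120 tt1120))))
     (cov5 88
      (cov3 16
       (cov_of_check cc1121 tt1121)
       (cov2 80
        (cov_of_check cc1122 tt1122)
        (cov2 88
         (cov_of_check cc1123 tt1123)
         (cov_of_check cc1124 tt1124))))
      (cov4 112
       (cov_of_check cc1125 tt1125)
       (cov2 80
        (cov_of_check cc1126 tt1126)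
        (cov_of_check cc1127 tt1127)))))
    (cov5 80
     (cov_of_check cc1128 tt1128)
     (cov5 88
      (cov_of_check cc1129 tt1129)
      (cov_of_check cc1130 tt1130))))
   (cov0 40
    (cov_of_check cc1131 tt1131)
    (cov4 112
     (cov5 80
      (cov2 80
       (cov4 104
        (cov_of_check cc1132 tt1132)
        (cov3 16
         (cov_of_check cc1133 tt1133)
         (cov5 72
          (cov_of_check cc1134 tt1134)
          (cov_of_check cc1135 tt1135))))
       (cov3 16
        (cov_of_check cc1136 tt1136)
        (cov_of_check cc1137 tt1137)))
      (cov_of_check cc1138 tt1138))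
     (cov2 80
      (cov5 80
       (cov_of_check cc1139 tt1139)
       (cov_of_check cc1140 tt1140))
      (cov5 80
       (cov_of_check cc1141 tt1141)
       (cov5 88
        (cov3 16
         (cov_of_check cc1142 tt1142)
         (cov_of_check cc1143 tt1143))
        (cov_of_check cc1144 tt1144)))))))

theorem root57 : Cov 32 64 16 32 80 96 0 32 112 128 96 104 :=
  (cov0 48
   (cov_of_check cc1166 tt1166)
   (cov3 16
    (cov4 120
     (cov_of_check cc1167 tt1167)
     (cov4 124
      (cov2 88
       (cov_of_check cc1168 tt1168)
       (cov_of_check cc1169 tt1169))
      (cov3 8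
       (cov_of_check cc1170 tt1170)
       (cov5 100
        (cov_of_check cc1171 tt1171)
        (cov2 88
         (cov3 12
          (cov_of_check cc1172 tt1172)
          (cov2 84
           (cov_of_check cc1173 tt1173)
           (cov_of_check cc1174 tt1174)))
         (cov3 12
          (cov_of_check cc1175 tt1175)
          (cov_of_check cc1176 tt1176)))))))
    (cov5 100
     (cov_of_check cc1177 tt1177)
     (cov4 120
      (cov_of_check cc1178 tt1178)
      (cov1 24
       (cov_of_check cc1179 tt1179)
       (cov2 88
        (cov4 124
         (cov_of_check cc1180 tt1180)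
         (cov_of_check cc1181 tt1181))
        (cov_of_check cc1182 tt1182)))))))

theorem root58 : Cov 32 64 0 32 64 96 0 32 96 128 64 128 :=
  (cov5 96
   (cov1 16
    (cov_of_check cc1116 tt1116)
    (cov0 48
     root56
     (cov4 112
      (cov5 80
       (cov0 56
        (cov4 104
         (cov_of_check cc1145 tt1145)
         (cov_of_check cc1146 tt1146))
        (cov_of_check cc1147 tt1147))
       (cov_of_check cc1148 tt1148))
      (cov5 80
       (cov5 72
        (cov_of_check cc1149 tt1149)
        (cov1 24
         (cov_of_check cc1150 tt1150)
         (cov0 56
          (cov2 80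
           (cov_of_check cc1151 tt1151)
           (cov_of_check cc1152 tt1152))
          (cov_of_check cc1153 tt1153))))
       (cov5 88
        (cov4 120
         (cov_of_check cc1154 tt1154)
         (cov_of_check cc1155 tt1155))
        (cov_of_check cc1156 tt1156))))))
   (cov1 16
    (cov3 16
     (cov_of_check cc1157 tt1157)
     (cov_of_check cc1158 tt1158))
    (cov4 112
     (cov5 112
      (cov5 104
       (cov0 48
        (cov_of_check cc1159 tt1159)
        (cov2 80
         (cov_of_check cc1160 tt1160)
         (cov_of_check cc1161 tt1161)))
       (cov_of_check cc1162 tt1162))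
      (cov_of_check cc1163 tt1163))
     (cov2 80
      (cov5 112
       (cov_of_check cc1164 tt1164)
       (cov_of_check cc1165 tt1165))
      (cov5 112
       (cov5 104
        root57
        (cov2 88
         (cov4 120
          (cov_of_check cc1183 tt1183)
          (cov0 48
           (cov_of_check cc1184 tt1184)
           (cov3 16
            (cov_of_check cc1185 tt1185)
            (cov_of_check cc1186 tt1186))))
         (cov_of_check cc1187 tt1187)))
       (cov_of_check cc1188 tt1188))))))

theorem root59 : Cov 32 64 16 32 96 128 0 32 96 128 64 96 :=
  (cov2 112
   (cov4 112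
    (cov0 48
     (cov0 40
      (cov1 24
       (cov3 16
        (cov_of_check cc1196 tt1196)
        (cov2 104
         (cov_of_check cc1197 tt1197)
         (cov_of_check cc1198 tt1198)))
       (cov5 80
        (cov_of_check cc1199 tt1199)
        (cov_of_check cc1200 tt1200)))
      (cov3 16
       (cov_of_check cc1201 tt1201)
       (cov_of_check cc1202 tt1202)))
     (cov_of_check cc1203 tt1203))
    (cov3 16
     (cov1 24
      (cov_of_check cc1204 tt1204)
      (cov_of_check cc1205 tt1205))
     (cov0 48
      (cov2 104
       (cov_of_check cc1206 tt1206)
       (cov5 80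
        (cov_of_check cc1207 tt1207)
        (cov_of_check cc1208 tt1208)))
      (cov_of_check cc1209 tt1209))))
   (cov3 16
    (cov3 8
     (cov_of_check cc1210 tt1210)
     (cov1 24
      (cov_of_check cc1211 tt1211)
      (cov0 48
       (cov_of_check cc1212 tt1212)
       (cov_of_check cc1213 tt1213))))
    (cov4 112
     (cov_of_check cc1214 tt1214)
     (cov5 80
      (cov5 72
       (cov_of_check cc1215 tt1215)
       (cov2 120
        (cov4 120
         (cov_of_check cc1216 tt1216)
         (cov_of_check cc1217 tt1217))
        (cov_of_check cc1218 tt1218)))
      (cov2 120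
       (cov1 24
        (cov_of_check cc1219 tt1219)
        (cov0 48
         (cov0 40
          (cov_of_check cc1220 tt1220)
          (cov_of_check cc1221 tt1221))
         (cov_of_check cc1222 tt1222)))
       (cov5 88
        (cov4 120
         (cov_of_check cc1223 tt1223)
         (cov_of_check cc1224 tt1224))
        (cov_of_check cc1225 tt1225)))))))

theorem root60 : Cov 32 64 0 32 112 128 0 32 96 128 96 128 :=
  (cov1 16
   (cov5 112
    (cov4 112
     (cov_of_check cc1237 tt1237)
     (cov5 104
      (cov4 120
       (cov_of_check cc1238 tt1238)
       (cov0 48
        (cov_of_check cc1239 tt1239)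
        (cov3 16
         (cov_of_check cc1240 tt1240)
         (cov5 100
          (cov_of_check cc1241 tt1241)
          (cov2 120
           (cov_of_check cc1242 tt1242)
           (cov_of_check cc1243 tt1243))))))
      (cov4 120
       (cov_of_check cc1244 tt1244)
       (cov0 48
        (cov_of_check cc1245 tt1245)
        (cov_of_check cc1246 tt1246)))))
    (cov_of_check cc1247 tt1247))
   (cov4 112
    (cov_of_check cc1248 tt1248)
    (cov4 120
     (cov_of_check cc1249 tt1249)
     (cov3 16
      (cov_of_check cc1250 tt1250)
      (cov5 112
       (cov5 104
        (cov0 48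
         (cov_of_check cc1251 tt1251)
         (cov_of_check cc1252 tt1252))
        (cov_of_check cc1253 tt1253))
       (cov_of_check cc1254 tt1254))))))

theorem root61 : Cov 32 64 0 32 96 128 0 32 96 128 64 128 :=
  (cov5 96
   (cov1 16
    (cov2 112
     (cov0 48
      (cov2 104
       (cov_of_check cc1189 tt1189)
       (cov_of_check cc1190 tt1190))
      (cov_of_check cc1191 tt1191))
     (cov3 16
      (cov_of_check cc1192 tt1192)
      (cov3 24
       (cov_of_check cc1193 tt1193)
       (cov5 80
        (cov_of_check cc1194 tt1194)
        (cov_of_check cc1195 tt1195)))))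
    root59)
   (cov2 112
    (cov1 16
     (cov5 112
      (cov0 48
       (cov_of_check cc1226 tt1226)
       (cov_of_check cc1227 tt1227))
      (cov_of_check cc1228 tt1228))
     (cov4 112
      (cov_of_check cc1229 tt1229)
      (cov5 112
       (cov5 104
        (cov0 48
         (cov_of_check cc1230 tt1230)
         (cov4 120
          (cov_of_check cc1231 tt1231)
          (cov3 16
           (cov_of_check cc1232 tt1232)
           (cov2 104
            (cov_of_check cc1233 tt1233)
            (cov_of_check cc1234 tt1234)))))
        (cov_of_check cc1235 tt1235))
       (cov_of_check cc1236 tt1236))))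
    root60))

theorem root62 : Cov 32 48 32 64 64 96 0 32 96 112 64 96 :=
  (cov2 80
   (cov1 48
    (cov0 40
     (cov_of_check cc1256 tt1256)
     (cov4 104
      (cov_of_check cc1257 tt1257)
      (cov1 40
       (cov5 80
        (cov5 72
         (cov_of_check cc1258 tt1258)
         (cov_of_check cc1259 tt1259))
        (cov_of_check cc1260 tt1260))
       (cov_of_check cc1261 tt1261))))
    (cov_of_check cc1262 tt1262))
   (cov1 48
    (cov0 40
     (cov1 40
      (cov_of_check cc1263 tt1263)
      (cov_of_check cc1264 tt1264))
     (cov1 40
      (cov5 80
       (cov_of_check cc1265 tt1265)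
       (cov_of_check cc1266 tt1266))
      (cov_of_check cc1267 tt1267)))
    (cov0 40
     (cov3 16
      (cov_of_check cc1268 tt1268)
      (cov5 80
       (cov_of_check cc1269 tt1269)
       (cov4 104
        (cov_of_check cc1270 tt1270)
        (cov2 88
         (cov_of_check cc1271 tt1271)
         (cov_of_check cc1272 tt1272)))))
     (cov5 80
      (cov_of_check cc1273 tt1273)
      (cov4 104
       (cov_of_check cc1274 tt1274)
       (cov1 56
        (cov5 88
         (cov_of_check cc1275 tt1275)
         (cov_of_check cc1276 tt1276))
        (cov_of_check cc1277 tt1277)))))))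

theorem root63 : Cov 32 48 32 64 64 80 0 32 112 128 80 96 :=
  (cov4 120
   (cov3 16
    (cov2 72
     (cov_of_check cc1284 tt1284)
     (cov_of_check cc1285 tt1285))
    (cov2 72
     (cov0 40
      (cov1 48
       (cov_of_check cc1286 tt1286)
       (cov3 24
        (cov3 20
         (cov_of_check cc1287 tt1287)
         (cov0 36
          (cov1 56
           (cov_of_check cc1288 tt1288)
           (cov_of_check cc1289 tt1289))
          (cov_of_check cc1290 tt1290)))
        (cov0 36
         (cov3 28
          (cov4 116
           (cov_of_check cc1291 tt1291)
           (cov5 88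
            (cov_of_check cc1292 tt1292)
            (cov_of_check cc1293 tt1293)))
          (cov_of_check cc1294 tt1294))
         (cov_of_check cc1295 tt1295))))
      (cov_of_check cc1296 tt1296))
     (cov3 24
      (cov_of_check cc1297 tt1297)
      (cov_of_check cc1298 tt1298))))
   (cov1 48
    (cov3 16
     (cov_of_check cc1299 tt1299)
     (cov_of_check cc1300 tt1300))
    (cov3 16
     (cov_of_check cc1301 tt1301)
     (cov2 72
      (cov5 88
       (cov_of_check cc1302 tt1302)
       (cov4 124
        (cov0 40
         (cov3 24
          (cov3 20
           (cov_of_check cc1303 tt1303)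
           (cov2 68
            (cov_of_check cc1304 tt1304)
            (cov0 36
             (cov1 56
              (cov_of_check cc1305 tt1305)
              (cov_of_check cc1306 tt1306))
             (cov_of_check cc1307 tt1307))))
          (cov0 36
           (cov3 28
            (cov1 56
             (cov_of_check cc1308 tt1308)
             (cov_of_check cc1309 tt1309))
            (cov_of_check cc1310 tt1310))
           (cov_of_check cc1311 tt1311)))
         (cov_of_check cc1312 tt1312))
        (cov_of_check cc1313 tt1313)))
      (cov_of_check cc1314 tt1314)))))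

theorem root64 : Cov 32 48 32 64 80 96 0 16 112 128 64 96 :=
  (cov1 48
   (cov5 80
    (cov5 72
     (cov_of_check cc1315 tt1315)
     (cov4 120
      (cov3 8
       (cov_of_check cc1316 tt1316)
       (cov2 88
        (cov_of_check cc1317 tt1317)
        (cov_of_check cc1318 tt1318)))
      (cov_of_check cc1319 tt1319)))
    (cov3 8
     (cov_of_check cc1320 tt1320)
     (cov2 88
      (cov3 12
       (cov2 84
        (cov_of_check cc1321 tt1321)
        (cov_of_check cc1322 tt1322))
       (cov_of_check cc1323 tt1323))
      (cov5 88
       (cov_of_check cc1324 tt1324)
       (cov_of_check cc1325 tt1325)))))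
   (cov5 80
    (cov_of_check cc1326 tt1326)
    (cov4 120
     (cov1 56
      (cov0 40
       (cov5 88
        (cov_of_check cc1327 tt1327)
        (cov3 8
         (cov_of_check cc1328 tt1328)
         (cov2 88
          (cov_of_check cc1329 tt1329)
          (cov4 116
           (cov_of_check cc1330 tt1330)
           (cov_of_check cc1331 tt1331)))))
       (cov_of_check cc1332 tt1332))
      (cov0 40
       (cov2 88
        (cov_of_check cc1333 tt1333)
        (cov_of_check cc1334 tt1334))
       (cov_of_check cc1335 tt1335)))
     (cov_of_check cc1336 tt1336))))

theorem root65 : Cov 32 64 32 64 64 96 0 32 112 128 64 96 :=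
  (cov0 48
   (cov2 80
    (cov5 80
     (cov3 16
      (cov_of_check cc1281 tt1281)
      (cov2 72
       (cov_of_check cc1282 tt1282)
       (cov_of_check cc1283 tt1283)))
     root63)
    (cov3 16
     root64
     (cov5 80
      (cov1 48
       (cov5 72
        (cov_of_check cc1337 tt1337)
        (cov_of_check cc1338 tt1338))
       (cov_of_check cc1339 tt1339))
      (cov1 48
       (cov2 88
        (cov_of_check cc1340 tt1340)
        (cov_of_check cc1341 tt1341))
       (cov3 24
        (cov1 56
         (cov_of_check cc1342 tt1342)
         (cov_of_check cc1343 tt1343))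
        (cov_of_check cc1344 tt1344))))))
   (cov1 48
    (cov1 40
     (cov0 56
      (cov5 80
       (cov3 16
        (cov_of_check cc1345 tt1345)
        (cov_of_check cc1346 tt1346))
       (cov_of_check cc1347 tt1347))
      (cov_of_check cc1348 tt1348))
     (cov5 80
      (cov_of_check cc1349 tt1349)
      (cov_of_check cc1350 tt1350)))
    (cov_of_check cc1351 tt1351)))

theorem root66 : Cov 32 64 32 64 96 112 16 32 96 112 64 96 :=
  (cov2 104
   (cov3 24
    (cov0 48
     (cov1 48
      (cov_of_check cc1356 tt1356)
      (cov4 104
       (cov_of_check cc1357 tt1357)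
       (cov5 80
        (cov_of_check cc1358 tt1358)
        (cov5 88
         (cov_of_check cc1359 tt1359)
         (cov_of_check cc1360 tt1360)))))
     (cov_of_check cc1361 tt1361))
    (cov5 80
     (cov_of_check cc1362 tt1362)
     (cov1 48
      (cov_of_check cc1363 tt1363)
      (cov0 48
       (cov3 28
        (cov5 88
         (cov_of_check cc1364 tt1364)
         (cov_of_check cc1365 tt1365))
        (cov_of_check cc1366 tt1366))
       (cov_of_check cc1367 tt1367)))))
   (cov0 48
    (cov1 48
     (cov4 104
      (cov_of_check cc1368 tt1368)
      (cov1 40
       (cov_of_check cc1369 tt1369)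
       (cov_of_check cc1370 tt1370)))
     (cov_of_check cc1371 tt1371))
    (cov_of_check cc1372 tt1372)))

theorem root67 : Cov 32 64 32 64 96 128 0 32 112 128 64 96 :=
  (cov3 16
   (cov2 112
    (cov1 48
     (cov0 48
      (cov_of_check cc1374 tt1374)
      (cov_of_check cc1375 tt1375))
     (cov0 48
      (cov1 56
       (cov_of_check cc1376 tt1376)
       (cov_of_check cc1377 tt1377))
      (cov_of_check cc1378 tt1378)))
    (cov_of_check cc1379 tt1379))
   (cov2 112
    (cov2 104
     (cov3 24
      (cov5 80
       (cov_of_check cc1380 tt1380)
       (cov1 48
        (cov_of_check cc1381 tt1381)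
        (cov5 88
         (cov_of_check cc1382 tt1382)
         (cov_of_check cc1383 tt1383))))
      (cov_of_check cc1384 tt1384))
     (cov1 48
      (cov1 40
       (cov_of_check cc1385 tt1385)
       (cov_of_check cc1386 tt1386))
      (cov_of_check cc1387 tt1387)))
    (cov1 48
     (cov2 120
      (cov1 40
       (cov_of_check cc1388 tt1388)
       (cov4 120
        (cov_of_check cc1389 tt1389)
        (cov_of_check cc1390 tt1390)))
      (cov_of_check cc1391 tt1391))
     (cov_of_check cc1392 tt1392))))

theorem root68 : Cov 32 48 48 64 64 96 0 32 96 128 96 112 :=
  (cov4 112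
   (cov5 104
    (cov2 80
     (cov_of_check cc1400 tt1400)
     (cov0 40
      (cov4 104
       (cov_of_check cc1401 tt1401)
       (cov3 16
        (cov_of_check cc1402 tt1402)
        (cov2 88
         (cov_of_check cc1403 tt1403)
         (cov2 92
          (cov3 24
           (cov_of_check cc1404 tt1404)
           (cov3 28
            (cov4 108
             (cov0 36
              (cov_of_check cc1405 tt1405)
              (cov_of_check cc1406 tt1406))
             (cov_of_check cc1407 tt1407))
            (cov1 56
             (cov_of_check cc1408 tt1408)
             (cov_of_check cc1409 tt1409))))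
          (cov_of_check cc1410 tt1410)))))
      (cov4 104
       (cov_of_check cc1411 tt1411)
       (cov2 88
        (cov_of_check cc1412 tt1412)
        (cov1 56
         (cov_of_check cc1413 tt1413)
         (cov_of_check cc1414 tt1414))))))
    (cov_of_check cc1415 tt1415))
   (cov2 80
    (cov_of_check cc1416 tt1416)
    (cov2 88
     (cov_of_check cc1417 tt1417)
     (cov3 16
      (cov_of_check cc1418 tt1418)
      (cov3 24
       (cov_of_check cc1419 tt1419)
       (cov_of_check cc1420 tt1420))))))

theorem root69 : Cov 32 64 32 64 64 128 0 32 64 128 96 128 :=
  (cov2 96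
   (cov4 96
    (cov_of_check cc1393 tt1393)
    (cov1 48
     (cov4 112
      (cov0 48
       (cov1 40
        (cov_of_check cc1394 tt1394)
        (cov_of_check cc1395 tt1395))
       (cov_of_check cc1396 tt1396))
      (cov5 112
       (cov0 48
        (cov_of_check cc1397 tt1397)
        (cov_of_check cc1398 tt1398))
       (cov_of_check cc1399 tt1399)))
     (cov0 48
      (cov5 112
       root68
       (cov_of_check cc1421 tt1421))
      (cov_of_check cc1422 tt1422))))
   (cov4 96
    (cov_of_check cc1423 tt1423)
    (cov2 112
     (cov4 112
      (cov0 48
       (cov1 48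
        (cov_of_check cc1424 tt1424)
        (cov_of_check cc1425 tt1425))
       (cov_of_check cc1426 tt1426))
      (cov1 48
       (cov_of_check cc1427 tt1427)
       (cov5 112
        (cov5 104
         (cov2 104
          (cov3 16
           (cov_of_check cc1428 tt1428)
           (cov_of_check cc1429 tt1429))
          (cov_of_check cc1430 tt1430))
         (cov_of_check cc1431 tt1431))
        (cov_of_check cc1432 tt1432))))
     (cov_of_check cc1433 tt1433))))

theorem root70 : Cov 32 64 0 64 64 128 0 32 64 128 64 128 :=
  (cov1 32
   (cov4 96
    (cov_of_check cc1115 tt1115)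
    (cov2 96
     root58
     root61))
   (cov5 96
    (cov2 96
     (cov4 96
      (cov_of_check cc1255 tt1255)
      (cov4 112
       (cov0 48
        root62
        (cov1 48
         (cov4 104
          (cov_of_check cc1278 tt1278)
          (cov_of_check cc1279 tt1279))
         (cov_of_check cc1280 tt1280)))
       root65))
     (cov4 96
      (cov_of_check cc1352 tt1352)
      (cov4 112
       (cov3 16
        (cov2 112
         (cov0 48
          (cov_of_check cc1353 tt1353)
          (cov_of_check cc1354 tt1354))
         (cov_of_check cc1355 tt1355))
        (cov2 112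
         root66
         (cov_of_check cc1373 tt1373)))
       root67)))
    root69))

theorem root71 : Cov 32 64 16 32 64 96 32 64 96 128 64 96 :=
  (cov4 112
   (cov3 48
    (cov0 48
     (cov0 40
      (cov1 24
       (cov2 80
        (cov_of_check cc1437 tt1437)
        (cov_of_check cc1438 tt1438))
       (cov5 80
        (cov2 80
         (cov_of_check cc1439 tt1439)
         (cov_of_check cc1440 tt1440))
        (cov5 88
         (cov_of_check cc1441 tt1441)
         (cov_of_check cc1442 tt1442))))
      (cov4 104
       (cov_of_check cc1443 tt1443)
       (cov2 80
        (cov_of_check cc1444 tt1444)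
        (cov_of_check cc1445 tt1445))))
     (cov_of_check cc1446 tt1446))
    (cov_of_check cc1447 tt1447))
   (cov3 48
    (cov0 48
     (cov4 120
      (cov2 80
       (cov5 80
        (cov_of_check cc1448 tt1448)
        (cov_of_check cc1449 tt1449))
       (cov2 88
        (cov5 80
         (cov_of_check cc1450 tt1450)
         (cov5 88
          (cov_of_check cc1451 tt1451)
          (cov_of_check cc1452 tt1452)))
        (cov_of_check cc1453 tt1453)))
      (cov_of_check cc1454 tt1454))
     (cov0 56
      (cov4 120
       (cov_of_check cc1455 tt1455)
       (cov_of_check cc1456 tt1456))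
      (cov_of_check cc1457 tt1457)))
    (cov_of_check cc1458 tt1458)))

theorem root72 : Cov 32 64 16 32 96 128 32 64 96 112 64 96 :=
  (cov0 48
   (cov0 40
    (cov3 48
     (cov1 24
      (cov2 112
       (cov_of_check cc1463 tt1463)
       (cov_of_check cc1464 tt1464))
      (cov5 80
       (cov_of_check cc1465 tt1465)
       (cov_of_check cc1466 tt1466)))
     (cov1 24
      (cov5 80
       (cov3 56
        (cov2 112
         (cov2 104
          (cov_of_check cc1467 tt1467)
          (cov_of_check cc1468 tt1468))
         (cov_of_check cc1469 tt1469))
        (cov_of_check cc1470 tt1470))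
       (cov3 56
        (cov5 88
         (cov_of_check cc1471 tt1471)
         (cov_of_check cc1472 tt1472))
        (cov_of_check cc1473 tt1473)))
      (cov3 56
       (cov_of_check cc1474 tt1474)
       (cov_of_check cc1475 tt1475))))
    (cov5 80
     (cov3 48
      (cov_of_check cc1476 tt1476)
      (cov_of_check cc1477 tt1477))
     (cov_of_check cc1478 tt1478)))
   (cov5 80
    (cov_of_check cc1479 tt1479)
    (cov_of_check cc1480 tt1480)))

theorem root73 : Cov 32 64 0 32 96 128 32 64 96 128 64 96 :=
  (cov4 112
   (cov1 16
    (cov0 48
     (cov0 40
      (cov_of_check cc1460 tt1460)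
      (cov_of_check cc1461 tt1461))
     (cov_of_check cc1462 tt1462))
    root72)
   (cov1 16
    (cov3 48
     (cov2 112
      (cov3 40
       (cov_of_check cc1481 tt1481)
       (cov_of_check cc1482 tt1482))
      (cov_of_check cc1483 tt1483))
     (cov_of_check cc1484 tt1484))
    (cov5 80
     (cov3 48
      (cov0 48
       (cov4 120
        (cov_of_check cc1485 tt1485)
        (cov_of_check cc1486 tt1486))
       (cov_of_check cc1487 tt1487))
      (cov2 112
       (cov0 48
        (cov3 56
         (cov_of_check cc1488 tt1488)
         (cov_of_check cc1489 tt1489))
        (cov_of_check cc1490 tt1490))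
       (cov_of_check cc1491 tt1491)))
     (cov3 48
      (cov2 112
       (cov0 48
        (cov_of_check cc1492 tt1492)
        (cov_of_check cc1493 tt1493))
       (cov_of_check cc1494 tt1494))
      (cov_of_check cc1495 tt1495)))))

theorem root74 : Cov 32 64 0 32 64 96 32 64 96 128 96 128 :=
  (cov3 48
   (cov4 112
    (cov5 112
     (cov5 104
      (cov0 48
       (cov_of_check cc1497 tt1497)
       (cov4 104
        (cov_of_check cc1498 tt1498)
        (cov_of_check cc1499 tt1499)))
      (cov2 80
       (cov0 48
        (cov_of_check cc1500 tt1500)
        (cov4 104
         (cov_of_check cc1501 tt1501)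
         (cov1 16
          (cov_of_check cc1502 tt1502)
          (cov3 40
           (cov2 72
            (cov_of_check cc1503 tt1503)
            (cov_of_check cc1504 tt1504))
           (cov_of_check cc1505 tt1505)))))
       (cov_of_check cc1506 tt1506)))
     (cov_of_check cc1507 tt1507))
    (cov5 112
     (cov0 48
      (cov_of_check cc1508 tt1508)
      (cov1 16
       (cov_of_check cc1509 tt1509)
       (cov5 104
        (cov_of_check cc1510 tt1510)
        (cov_of_check cc1511 tt1511))))
     (cov_of_check cc1512 tt1512)))
   (cov2 80
    (cov_of_check cc1513 tt1513)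
    (cov1 16
     (cov_of_check cc1514 tt1514)
     (cov_of_check cc1515 tt1515))))

theorem root75 : Cov 32 64 0 16 96 128 32 48 112 128 96 112 :=
  (cov5 104
   (cov2 112
    (cov0 48
     (cov0 40
      (cov_of_check cc1520 tt1520)
      (cov_of_check cc1521 tt1521))
     (cov5 100
      (cov_of_check cc1522 tt1522)
      (cov2 104
       (cov_of_check cc1523 tt1523)
       (cov3 40
        (cov2 108
         (cov_of_check cc1524 tt1524)
         (cov4 120
          (cov_of_check cc1525 tt1525)
          (cov_of_check cc1526 tt1526)))
        (cov_of_check cc1527 tt1527)))))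
    (cov2 120
     (cov0 48
      (cov_of_check cc1528 tt1528)
      (cov_of_check cc1529 tt1529))
     (cov_of_check cc1530 tt1530)))
   (cov2 112
    (cov0 48
     (cov5 108
      (cov1 8
       (cov_of_check cc1531 tt1531)
       (cov0 40
        (cov_of_check cc1532 tt1532)
        (cov0 44
         (cov_of_check cc1533 tt1533)
         (cov2 104
          (cov_of_check cc1534 tt1534)
          (cov_of_check cc1535 tt1535)))))
      (cov_of_check cc1536 tt1536))
     (cov5 108
      (cov0 56
       (cov1 8
        (cov_of_check cc1537 tt1537)
        (cov2 104
         (cov_of_check cc1538 tt1538)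
         (cov_of_check cc1539 tt1539)))
       (cov_of_check cc1540 tt1540))
      (cov_of_check cc1541 tt1541)))
    (cov2 120
     (cov3 40
      (cov_of_check cc1542 tt1542)
      (cov_of_check cc1543 tt1543))
     (cov_of_check cc1544 tt1544))))

theorem root76 : Cov 32 64 0 32 96 128 32 64 112 128 96 112 :=
  (cov1 16
   (cov3 48
    root75
    (cov2 112
     (cov3 56
      (cov2 104
       (cov5 104
        (cov0 48
         (cov_of_check cc1545 tt1545)
         (cov_of_check cc1546 tt1546))
        (cov0 48
         (cov_of_check cc1547 tt1547)
         (cov_of_check cc1548 tt1548)))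
       (cov_of_check cc1549 tt1549))
      (cov_of_check cc1550 tt1550))
     (cov_of_check cc1551 tt1551)))
   (cov5 104
    (cov3 48
     (cov2 112
      (cov3 40
       (cov_of_check cc1552 tt1552)
       (cov_of_check cc1553 tt1553))
      (cov_of_check cc1554 tt1554))
     (cov_of_check cc1555 tt1555))
    (cov3 48
     (cov2 112
      (cov2 104
       (cov_of_check cc1556 tt1556)
       (cov1 24
        (cov0 48
         (cov_of_check cc1557 tt1557)
         (cov_of_check cc1558 tt1558))
        (cov_of_check cc1559 tt1559)))
      (cov_of_check cc1560 tt1560))
     (cov_of_check cc1561 tt1561))))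

theorem root77 : Cov 32 64 32 64 64 96 32 64 96 128 64 128 :=
  (cov5 96
   (cov0 48
    (cov3 48
     (cov3 40
      (cov2 80
       (cov5 80
        (cov_of_check cc1564 tt1564)
        (cov_of_check cc1565 tt1565))
       (cov2 88
        (cov5 80
         (cov_of_check cc1566 tt1566)
         (cov1 48
          (cov_of_check cc1567 tt1567)
          (cov_of_check cc1568 tt1568)))
        (cov_of_check cc1569 tt1569)))
      (cov_of_check cc1570 tt1570))
     (cov_of_check cc1571 tt1571))
    (cov_of_check cc1572 tt1572))
   (cov4 112
    (cov3 48
     (cov3 40
      (cov0 48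
       (cov5 112
        (cov4 104
         (cov_of_check cc1573 tt1573)
         (cov_of_check cc1574 tt1574))
        (cov_of_check cc1575 tt1575))
       (cov_of_check cc1576 tt1576))
      (cov_of_check cc1577 tt1577))
     (cov_of_check cc1578 tt1578))
    (cov5 112
     (cov0 48
      (cov3 48
       (cov2 80
        (cov_of_check cc1579 tt1579)
        (cov_of_check cc1580 tt1580))
       (cov_of_check cc1581 tt1581))
      (cov_of_check cc1582 tt1582))
     (cov_of_check cc1583 tt1583))))

theorem root78 : Cov 32 64 32 64 96 128 32 64 64 128 96 128 :=
  (cov4 96
   (cov_of_check cc1600 tt1600)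
   (cov0 48
    (cov4 112
     (cov5 112
      (cov5 104
       (cov4 104
        (cov_of_check cc1601 tt1601)
        (cov1 48
         (cov_of_check cc1602 tt1602)
         (cov3 48
          (cov2 112
           (cov3 40
            (cov2 104
             (cov_of_check cc1603 tt1603)
             (cov_of_check cc1604 tt1604))
            (cov_of_check cc1605 tt1605))
           (cov_of_check cc1606 tt1606))
          (cov_of_check cc1607 tt1607))))
       (cov_of_check cc1608 tt1608))
      (cov_of_check cc1609 tt1609))
     (cov5 112
      (cov3 48
       (cov1 48
        (cov_of_check cc1610 tt1610)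
        (cov2 112
         (cov3 40
          (cov_of_check cc1611 tt1611)
          (cov_of_check cc1612 tt1612))
         (cov_of_check cc1613 tt1613)))
       (cov_of_check cc1614 tt1614))
      (cov_of_check cc1615 tt1615)))
    (cov_of_check cc1616 tt1616)))

theorem root79 : Cov 32 64 32 64 96 128 32 64 64 128 64 128 :=
  (cov5 96
   (cov4 96
    (cov_of_check cc1584 tt1584)
    (cov4 112
     (cov0 48
      (cov2 112
       (cov3 48
        (cov1 48
         (cov3 40
          (cov1 40
           (cov_of_check cc1585 tt1585)
           (cov_of_check cc1586 tt1586))
          (cov_of_check cc1587 tt1587))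
         (cov5 80
          (cov_of_check cc1588 tt1588)
          (cov5 88
           (cov_of_check cc1589 tt1589)
           (cov_of_check cc1590 tt1590))))
        (cov_of_check cc1591 tt1591))
       (cov_of_check cc1592 tt1592))
      (cov_of_check cc1593 tt1593))
     (cov5 80
      (cov_of_check cc1594 tt1594)
      (cov3 48
       (cov0 48
        (cov2 112
         (cov1 48
          (cov_of_check cc1595 tt1595)
          (cov_of_check cc1596 tt1596))
         (cov_of_check cc1597 tt1597))
        (cov_of_check cc1598 tt1598))
       (cov_of_check cc1599 tt1599)))))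
   root78)

theorem root80 : Cov 32 64 0 64 64 128 32 64 64 128 64 128 :=
  (cov1 32
   (cov5 96
    (cov2 96
     (cov4 96
      (cov_of_check cc1434 tt1434)
      (cov1 16
       (cov3 48
        (cov_of_check cc1435 tt1435)
        (cov_of_check cc1436 tt1436))
       root71))
     (cov4 96
      (cov_of_check cc1459 tt1459)
      root73))
    (cov2 96
     (cov4 96
      (cov_of_check cc1496 tt1496)
      root74)
     (cov4 96
      (cov_of_check cc1516 tt1516)
      (cov4 112
       (cov5 112
        (cov5 104
         (cov_of_check cc1517 tt1517)
         (cov_of_check cc1518 tt1518))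
        (cov_of_check cc1519 tt1519))
       (cov5 112
        root76
        (cov_of_check cc1562 tt1562))))))
   (cov2 96
    (cov4 96
     (cov_of_check cc1563 tt1563)
     root77)
    root79))

theorem root81 : Cov 0 64 0 64 64 128 0 64 64 128 0 128 :=
  (cov5 64
   (cov2 96
    root18
    (cov3 32
     root22
     (cov4 96
      (cov_of_check cc449 tt449)
      (cov5 32
       root25
       (cov0 32
        root27
        (cov1 32
         (cov0 48
          (cov2 112
           (cov5 48
            (cov3 48
             (cov3 40
              (cov_of_check cc553 tt553)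
              (cov_of_check cc554 tt554))
             (cov_of_check cc555 tt555))
            (cov3 48
             (cov_of_check cc556 tt556)
             (cov_of_check cc557 tt557)))
           (cov5 48
            (cov3 48
             (cov_of_check cc558 tt558)
             (cov_of_check cc559 tt559))
            (cov_of_check cc560 tt560)))
          (cov2 112
           (cov_of_check cc561 tt561)
           (cov_of_check cc562 tt562)))
         (cov_of_check cc563 tt563)))))))
   (cov0 32
    (cov1 32
     (cov2 96
      (cov4 96
       (cov_of_check cc564 tt564)
       root32)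
      (cov5 96
       root34
       (cov3 32
        root35
        (cov4 96
         (cov_of_check cc721 tt721)
         (cov0 16
          (cov5 112
           (cov4 112
            (cov_of_check cc722 tt722)
            (cov_of_check cc723 tt723))
           (cov_of_check cc724 tt724))
          (cov4 112
           (cov_of_check cc725 tt725)
           (cov_of_check cc726 tt726)))))))
     (cov3 32
      root46
      (cov4 96
       (cov_of_check cc940 tt940)
       (cov2 96
        root52
        root55))))
    (cov3 32
     root70
     root80)))

theorem root82 : Cov 0 32 0 32 64 128 64 128 96 128 0 32 :=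
  (cov2 96
   (cov3 96
    (cov2 80
     (cov3 80
      (cov_of_check cc1620 tt1620)
      (cov_of_check cc1621 tt1621))
     (cov3 80
      (cov_of_check cc1622 tt1622)
      (cov5 16
       (cov_of_check cc1623 tt1623)
       (cov0 16
        (cov_of_check cc1624 tt1624)
        (cov_of_check cc1625 tt1625)))))
    (cov5 16
     (cov_of_check cc1626 tt1626)
     (cov1 16
      (cov_of_check cc1627 tt1627)
      (cov4 112
       (cov4 104
        (cov_of_check cc1628 tt1628)
        (cov_of_check cc1629 tt1629))
       (cov0 16
        (cov_of_check cc1630 tt1630)
        (cov0 24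
         (cov_of_check cc1631 tt1631)
         (cov_of_check cc1632 tt1632)))))))
   (cov3 96
    (cov2 112
     (cov0 16
      (cov_of_check cc1633 tt1633)
      (cov5 16
       (cov_of_check cc1634 tt1634)
       (cov_of_check cc1635 tt1635)))
     (cov4 112
      (cov_of_check cc1636 tt1636)
      (cov_of_check cc1637 tt1637)))
    (cov2 112
     (cov1 16
      (cov_of_check cc1638 tt1638)
      (cov_of_check cc1639 tt1639))
     (cov_of_check cc1640 tt1640))))

theorem root83 : Cov 16 32 0 16 64 96 96 128 112 128 32 64 :=
  (cov0 24
   (cov3 112
    (cov2 80
     (cov3 104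
      (cov2 72
       (cov_of_check cc1660 tt1660)
       (cov_of_check cc1661 tt1661))
      (cov_of_check cc1662 tt1662))
     (cov5 48
      (cov0 20
       (cov_of_check cc1663 tt1663)
       (cov4 120
        (cov_of_check cc1664 tt1664)
        (cov_of_check cc1665 tt1665)))
      (cov0 20
       (cov_of_check cc1666 tt1666)
       (cov5 56
        (cov4 120
         (cov3 104
          (cov_of_check cc1667 tt1667)
          (cov_of_check cc1668 tt1668))
         (cov_of_check cc1669 tt1669))
        (cov_of_check cc1670 tt1670)))))
    (cov2 80
     (cov_of_check cc1671 tt1671)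
     (cov3 120
      (cov2 88
       (cov_of_check cc1672 tt1672)
       (cov_of_check cc1673 tt1673))
      (cov_of_check cc1674 tt1674))))
   (cov5 48
    (cov2 80
     (cov_of_check cc1675 tt1675)
     (cov_of_check cc1676 tt1676))
    (cov2 80
     (cov_of_check cc1677 tt1677)
     (cov3 112
      (cov0 28
       (cov3 104
        (cov_of_check cc1678 tt1678)
        (cov_of_check cc1679 tt1679))
       (cov_of_check cc1680 tt1680))
      (cov_of_check cc1681 tt1681)))))

theorem root84 : Cov 0 32 0 32 64 96 64 128 96 128 32 64 :=
  (cov3 96
   (cov2 80
    (cov3 80
     (cov_of_check cc1641 tt1641)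
     (cov4 112
      (cov_of_check cc1642 tt1642)
      (cov_of_check cc1643 tt1643)))
    (cov1 16
     (cov_of_check cc1644 tt1644)
     (cov0 16
      (cov_of_check cc1645 tt1645)
      (cov0 24
       (cov3 80
        (cov1 24
         (cov5 48
          (cov_of_check cc1646 tt1646)
          (cov4 112
           (cov_of_check cc1647 tt1647)
           (cov_of_check cc1648 tt1648)))
         (cov4 112
          (cov5 48
           (cov_of_check cc1649 tt1649)
           (cov2 88
            (cov_of_check cc1650 tt1650)
            (cov_of_check cc1651 tt1651)))
          (cov_of_check cc1652 tt1652)))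
        (cov_of_check cc1653 tt1653))
       (cov5 48
        (cov_of_check cc1654 tt1654)
        (cov1 24
         (cov_of_check cc1655 tt1655)
         (cov_of_check cc1656 tt1656)))))))
   (cov1 16
    (cov0 16
     (cov_of_check cc1657 tt1657)
     (cov4 112
      (cov0 24
       (cov_of_check cc1658 tt1658)
       (cov_of_check cc1659 tt1659))
      root83))
    (cov0 16
     (cov_of_check cc1682 tt1682)
     (cov0 24
      (cov4 112
       (cov_of_check cc1683 tt1683)
       (cov1 24
        (cov3 112
         (cov3 104
          (cov_of_check cc1684 tt1684)
          (cov_of_check cc1685 tt1685))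
         (cov_of_check cc1686 tt1686))
        (cov_of_check cc1687 tt1687)))
      (cov1 24
       (cov_of_check cc1688 tt1688)
       (cov4 112
        (cov_of_check cc1689 tt1689)
        (cov_of_check cc1690 tt1690)))))))

theorem root85 : Cov 16 32 0 32 96 128 64 96 96 112 32 64 :=
  (cov1 16
   (cov_of_check cc1692 tt1692)
   (cov1 24
    (cov3 80
     (cov_of_check cc1693 tt1693)
     (cov_of_check cc1694 tt1694))
    (cov0 24
     (cov4 104
      (cov_of_check cc1695 tt1695)
      (cov5 48
       (cov_of_check cc1696 tt1696)
       (cov3 80
        (cov2 112
         (cov_of_check cc1697 tt1697)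
         (cov_of_check cc1698 tt1698))
        (cov5 56
         (cov3 88
          (cov2 112
           (cov0 20
            (cov_of_check cc1699 tt1699)
            (cov1 28
             (cov_of_check cc1700 tt1700)
             (cov5 52
              (cov_of_check cc1701 tt1701)
              (cov_of_check cc1702 tt1702))))
           (cov_of_check cc1703 tt1703))
          (cov_of_check cc1704 tt1704))
         (cov_of_check cc1705 tt1705)))))
     (cov5 48
      (cov_of_check cc1706 tt1706)
      (cov3 80
       (cov_of_check cc1707 tt1707)
       (cov_of_check cc1708 tt1708))))))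

theorem root86 : Cov 0 32 0 32 96 128 64 128 96 128 32 64 :=
  (cov3 96
   (cov4 112
    (cov0 16
     (cov_of_check cc1691 tt1691)
     root85)
    (cov2 112
     (cov0 16
      (cov1 16
       (cov_of_check cc1709 tt1709)
       (cov5 48
        (cov_of_check cc1710 tt1710)
        (cov_of_check cc1711 tt1711)))
      (cov5 48
       (cov4 120
        (cov2 104
         (cov_of_check cc1712 tt1712)
         (cov_of_check cc1713 tt1713))
        (cov_of_check cc1714 tt1714))
       (cov_of_check cc1715 tt1715)))
     (cov0 16
      (cov1 16
       (cov_of_check cc1716 tt1716)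
       (cov5 48
        (cov_of_check cc1717 tt1717)
        (cov_of_check cc1718 tt1718)))
      (cov5 48
       (cov_of_check cc1719 tt1719)
       (cov_of_check cc1720 tt1720)))))
   (cov2 112
    (cov1 16
     (cov4 112
      (cov_of_check cc1721 tt1721)
      (cov0 16
       (cov_of_check cc1722 tt1722)
       (cov0 24
        (cov3 112
         (cov_of_check cc1723 tt1723)
         (cov1 8
          (cov_of_check cc1724 tt1724)
          (cov_of_check cc1725 tt1725)))
        (cov3 112
         (cov_of_check cc1726 tt1726)
         (cov1 8
          (cov5 48
           (cov_of_check cc1727 tt1727)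
           (cov_of_check cc1728 tt1728))
          (cov_of_check cc1729 tt1729))))))
     (cov4 112
      (cov3 112
       (cov3 104
        (cov_of_check cc1730 tt1730)
        (cov_of_check cc1731 tt1731))
       (cov_of_check cc1732 tt1732))
      (cov_of_check cc1733 tt1733)))
    (cov_of_check cc1734 tt1734)))

theorem root87 : Cov 32 64 0 32 64 96 64 96 96 128 0 32 :=
  (cov3 80
   (cov2 80
    (cov_of_check cc1735 tt1735)
    (cov4 112
     (cov5 16
      (cov_of_check cc1736 tt1736)
      (cov4 104
       (cov0 48
        (cov2 88
         (cov5 24
          (cov_of_check cc1737 tt1737)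
          (cov_of_check cc1738 tt1738))
         (cov5 24
          (cov_of_check cc1739 tt1739)
          (cov_of_check cc1740 tt1740)))
        (cov_of_check cc1741 tt1741))
       (cov0 48
        (cov2 88
         (cov_of_check cc1742 tt1742)
         (cov_of_check cc1743 tt1743))
        (cov_of_check cc1744 tt1744))))
     (cov_of_check cc1745 tt1745)))
   (cov5 16
    (cov_of_check cc1746 tt1746)
    (cov2 80
     (cov4 112
      (cov4 104
       (cov_of_check cc1747 tt1747)
       (cov_of_check cc1748 tt1748))
      (cov_of_check cc1749 tt1749))
     (cov3 88
      (cov_of_check cc1750 tt1750)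
      (cov_of_check cc1751 tt1751)))))

theorem root88 : Cov 32 64 0 32 64 96 96 112 112 128 16 32 :=
  (cov2 80
   (cov0 48
    (cov2 72
     (cov_of_check cc1765 tt1765)
     (cov5 24
      (cov_of_check cc1766 tt1766)
      (cov1 16
       (cov_of_check cc1767 tt1767)
       (cov0 40
        (cov_of_check cc1768 tt1768)
        (cov3 104
         (cov_of_check cc1769 tt1769)
         (cov_of_check cc1770 tt1770))))))
    (cov_of_check cc1771 tt1771))
   (cov5 24
    (cov_of_check cc1772 tt1772)
    (cov2 88
     (cov1 16
      (cov_of_check cc1773 tt1773)
      (cov3 104
       (cov_of_check cc1774 tt1774)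
       (cov4 120
        (cov_of_check cc1775 tt1775)
        (cov_of_check cc1776 tt1776))))
     (cov3 104
      (cov_of_check cc1777 tt1777)
      (cov0 48
       (cov1 16
        (cov_of_check cc1778 tt1778)
        (cov5 28
         (cov_of_check cc1779 tt1779)
         (cov0 40
          (cov_of_check cc1780 tt1780)
          (cov4 120
           (cov3 108
            (cov_of_check cc1781 tt1781)
            (cov_of_check cc1782 tt1782))
           (cov_of_check cc1783 tt1783)))))
       (cov_of_check cc1784 tt1784))))))

theorem root89 : Cov 32 64 0 32 64 96 96 128 96 128 16 32 :=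
  (cov3 112
   (cov4 112
    (cov5 24
     (cov_of_check cc1753 tt1753)
     (cov0 48
      (cov4 104
       (cov2 80
        (cov_of_check cc1754 tt1754)
        (cov_of_check cc1755 tt1755))
       (cov0 40
        (cov_of_check cc1756 tt1756)
        (cov3 104
         (cov_of_check cc1757 tt1757)
         (cov2 80
          (cov_of_check cc1758 tt1758)
          (cov_of_check cc1759 tt1759)))))
      (cov4 104
       (cov_of_check cc1760 tt1760)
       (cov3 104
        (cov_of_check cc1761 tt1761)
        (cov1 16
         (cov_of_check cc1762 tt1762)
         (cov0 56
          (cov_of_check cc1763 tt1763)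
          (cov_of_check cc1764 tt1764)))))))
    root88)
   (cov4 112
    (cov_of_check cc1785 tt1785)
    (cov2 80
     (cov_of_check cc1786 tt1786)
     (cov0 48
      (cov5 24
       (cov_of_check cc1787 tt1787)
       (cov_of_check cc1788 tt1788))
      (cov_of_check cc1789 tt1789)))))

theorem root90 : Cov 32 64 16 32 64 96 96 128 96 112 32 48 :=
  (cov5 40
   (cov2 80
    (cov4 104
     (cov_of_check cc1812 tt1812)
     (cov2 72
      (cov_of_check cc1813 tt1813)
      (cov3 112
       (cov3 104
        (cov1 24
         (cov_of_check cc1814 tt1814)
         (cov_of_check cc1815 tt1815))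
        (cov1 24
         (cov_of_check cc1816 tt1816)
         (cov0 48
          (cov2 76
           (cov_of_check cc1817 tt1817)
           (cov_of_check cc1818 tt1818))
          (cov_of_check cc1819 tt1819))))
       (cov_of_check cc1820 tt1820))))
    (cov4 104
     (cov_of_check cc1821 tt1821)
     (cov3 112
      (cov3 104
       (cov_of_check cc1822 tt1822)
       (cov2 88
        (cov_of_check cc1823 tt1823)
        (cov_of_check cc1824 tt1824)))
      (cov_of_check cc1825 tt1825))))
   (cov4 104
    (cov_of_check cc1826 tt1826)
    (cov2 80
     (cov_of_check cc1827 tt1827)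
     (cov_of_check cc1828 tt1828))))

theorem root91 : Cov 32 64 0 32 64 96 96 128 96 128 32 64 :=
  (cov1 16
   (cov4 112
    (cov0 48
     (cov_of_check cc1805 tt1805)
     (cov_of_check cc1806 tt1806))
    (cov2 80
     (cov_of_check cc1807 tt1807)
     (cov5 48
      (cov3 112
       (cov2 88
        (cov_of_check cc1808 tt1808)
        (cov_of_check cc1809 tt1809))
       (cov_of_check cc1810 tt1810))
      (cov_of_check cc1811 tt1811))))
   (cov4 112
    (cov5 48
     root90
     (cov0 48
      (cov_of_check cc1829 tt1829)
      (cov_of_check cc1830 tt1830)))
    (cov5 48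
     (cov2 80
      (cov3 112
       (cov_of_check cc1831 tt1831)
       (cov_of_check cc1832 tt1832))
      (cov0 48
       (cov0 40
        (cov_of_check cc1833 tt1833)
        (cov4 120
         (cov5 40
          (cov3 112
           (cov_of_check cc1834 tt1834)
           (cov_of_check cc1835 tt1835))
          (cov_of_check cc1836 tt1836))
         (cov_of_check cc1837 tt1837)))
       (cov5 40
        (cov_of_check cc1838 tt1838)
        (cov_of_check cc1839 tt1839))))
     (cov2 80
      (cov_of_check cc1840 tt1840)
      (cov5 56
       (cov_of_check cc1841 tt1841)
       (cov_of_check cc1842 tt1842))))))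

theorem root92 : Cov 32 64 0 32 64 96 64 128 96 128 0 64 :=
  (cov5 32
   (cov3 96
    root87
    (cov5 16
     (cov_of_check cc1752 tt1752)
     root89))
   (cov3 96
    (cov1 16
     (cov2 80
      (cov_of_check cc1790 tt1790)
      (cov5 48
       (cov_of_check cc1791 tt1791)
       (cov_of_check cc1792 tt1792)))
     (cov2 80
      (cov4 112
       (cov_of_check cc1793 tt1793)
       (cov_of_check cc1794 tt1794))
      (cov5 48
       (cov0 48
        (cov5 40
         (cov4 112
          (cov0 40
           (cov_of_check cc1795 tt1795)
           (cov4 104
            (cov_of_check cc1796 tt1796)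
            (cov_of_check cc1797 tt1797)))
          (cov_of_check cc1798 tt1798))
         (cov_of_check cc1799 tt1799))
        (cov4 112
         (cov5 40
          (cov3 80
           (cov_of_check cc1800 tt1800)
           (cov_of_check cc1801 tt1801))
          (cov_of_check cc1802 tt1802))
         (cov_of_check cc1803 tt1803)))
       (cov_of_check cc1804 tt1804))))
    root91))

theorem root93 : Cov 32 64 0 32 96 128 64 96 96 128 0 32 :=
  (cov2 112
   (cov3 80
    (cov2 104
     (cov4 112
      (cov5 16
       (cov_of_check cc1843 tt1843)
       (cov4 104
        (cov_of_check cc1844 tt1844)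
        (cov_of_check cc1845 tt1845)))
      (cov_of_check cc1846 tt1846))
     (cov3 72
      (cov_of_check cc1847 tt1847)
      (cov_of_check cc1848 tt1848)))
    (cov5 16
     (cov_of_check cc1849 tt1849)
     (cov2 104
      (cov3 88
       (cov1 16
        (cov_of_check cc1850 tt1850)
        (cov_of_check cc1851 tt1851))
       (cov_of_check cc1852 tt1852))
      (cov3 88
       (cov0 48
        (cov_of_check cc1853 tt1853)
        (cov_of_check cc1854 tt1854))
       (cov5 24
        (cov_of_check cc1855 tt1855)
        (cov_of_check cc1856 tt1856))))))
   (cov5 16
    (cov_of_check cc1857 tt1857)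
    (cov4 112
     (cov4 104
      (cov_of_check cc1858 tt1858)
      (cov0 48
       (cov_of_check cc1859 tt1859)
       (cov_of_check cc1860 tt1860)))
     (cov0 48
      (cov0 40
       (cov4 120
        (cov2 120
         (cov3 80
          (cov_of_check cc1861 tt1861)
          (cov_of_check cc1862 tt1862))
         (cov_of_check cc1863 tt1863))
        (cov3 80
         (cov_of_check cc1864 tt1864)
         (cov5 24
          (cov1 16
           (cov_of_check cc1865 tt1865)
           (cov_of_check cc1866 tt1866))
          (cov_of_check cc1867 tt1867))))
       (cov4 120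
        (cov2 120
         (cov3 80
          (cov_of_check cc1868 tt1868)
          (cov_of_check cc1869 tt1869))
         (cov_of_check cc1870 tt1870))
        (cov_of_check cc1871 tt1871)))
      (cov_of_check cc1872 tt1872)))))

theorem root94 : Cov 32 64 0 32 96 128 64 96 96 112 32 64 :=
  (cov5 48
   (cov4 104
    (cov1 16
     (cov_of_check cc1873 tt1873)
     (cov5 40
      (cov_of_check cc1874 tt1874)
      (cov_of_check cc1875 tt1875)))
    (cov5 40
     (cov0 48
      (cov0 40
       (cov_of_check cc1876 tt1876)
       (cov2 112
        (cov3 80
         (cov_of_check cc1877 tt1877)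
         (cov3 88
          (cov_of_check cc1878 tt1878)
          (cov_of_check cc1879 tt1879)))
        (cov_of_check cc1880 tt1880)))
      (cov3 80
       (cov_of_check cc1881 tt1881)
       (cov2 112
        (cov0 56
         (cov3 88
          (cov_of_check cc1882 tt1882)
          (cov_of_check cc1883 tt1883))
         (cov_of_check cc1884 tt1884))
        (cov_of_check cc1885 tt1885))))
     (cov0 48
      (cov_of_check cc1886 tt1886)
      (cov_of_check cc1887 tt1887))))
   (cov1 16
    (cov_of_check cc1888 tt1888)
    (cov0 48
     (cov_of_check cc1889 tt1889)
     (cov_of_check cc1890 tt1890))))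

theorem root95 : Cov 32 64 0 32 96 128 96 128 96 128 32 64 :=
  (cov3 112
   (cov2 112
    (cov5 48
     (cov4 112
      (cov3 104
       (cov2 104
        (cov_of_check cc1898 tt1898)
        (cov4 104
         (cov_of_check cc1899 tt1899)
         (cov5 40
          (cov0 48
           (cov0 40
            (cov_of_check cc1900 tt1900)
            (cov_of_check cc1901 tt1901))
           (cov_of_check cc1902 tt1902))
          (cov_of_check cc1903 tt1903))))
       (cov1 16
        (cov_of_check cc1904 tt1904)
        (cov0 48
         (cov_of_check cc1905 tt1905)
         (cov_of_check cc1906 tt1906))))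
      (cov3 104
       (cov_of_check cc1907 tt1907)
       (cov_of_check cc1908 tt1908)))
     (cov5 56
      (cov4 112
       (cov_of_check cc1909 tt1909)
       (cov_of_check cc1910 tt1910))
      (cov_of_check cc1911 tt1911)))
    (cov_of_check cc1912 tt1912))
   (cov2 112
    (cov4 112
     (cov_of_check cc1913 tt1913)
     (cov4 120
      (cov2 104
       (cov0 48
        (cov3 120
         (cov_of_check cc1914 tt1914)
         (cov_of_check cc1915 tt1915))
        (cov_of_check cc1916 tt1916))
       (cov0 48
        (cov_of_check cc1917 tt1917)
        (cov_of_check cc1918 tt1918)))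
      (cov_of_check cc1919 tt1919)))
    (cov_of_check cc1920 tt1920)))

theorem root96 : Cov 0 64 0 32 64 128 64 128 64 128 0 64 :=
  (cov4 96
   (cov0 32
    (cov_of_check cc1617 tt1617)
    (cov3 96
     (cov_of_check cc1618 tt1618)
     (cov_of_check cc1619 tt1619)))
   (cov0 32
    (cov5 32
     root82
     (cov2 96
      root84
      root86))
    (cov2 96
     root92
     (cov3 96
      (cov5 32
       root93
       (cov4 112
        root94
        (cov_of_check cc1891 tt1891)))
      (cov5 32
       (cov5 16
        (cov_of_check cc1892 tt1892)
        (cov2 112
         (cov3 112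
          (cov3 104
           (cov_of_check cc1893 tt1893)
           (cov1 16
            (cov_of_check cc1894 tt1894)
            (cov_of_check cc1895 tt1895)))
          (cov_of_check cc1896 tt1896))
         (cov_of_check cc1897 tt1897)))
       root95)))))

theorem root97 : Cov 0 32 32 64 64 96 64 128 64 128 0 32 :=
  (cov3 96
   (cov4 96
    (cov_of_check cc1921 tt1921)
    (cov1 48
     (cov2 80
      (cov_of_check cc1922 tt1922)
      (cov4 112
       (cov5 16
        (cov_of_check cc1923 tt1923)
        (cov4 104
         (cov0 16
          (cov_of_check cc1924 tt1924)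
          (cov1 40
           (cov_of_check cc1925 tt1925)
           (cov_of_check cc1926 tt1926)))
         (cov5 24
          (cov_of_check cc1927 tt1927)
          (cov3 80
           (cov2 88
            (cov_of_check cc1928 tt1928)
            (cov_of_check cc1929 tt1929))
           (cov2 88
            (cov_of_check cc1930 tt1930)
            (cov_of_check cc1931 tt1931))))))
       (cov3 80
        (cov5 16
         (cov_of_check cc1932 tt1932)
         (cov_of_check cc1933 tt1933))
        (cov_of_check cc1934 tt1934))))
     (cov3 80
      (cov_of_check cc1935 tt1935)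
      (cov_of_check cc1936 tt1936))))
   (cov4 96
    (cov_of_check cc1937 tt1937)
    (cov5 16
     (cov4 112
      (cov_of_check cc1938 tt1938)
      (cov_of_check cc1939 tt1939))
     (cov4 112
      (cov4 104
       (cov_of_check cc1940 tt1940)
       (cov0 16
        (cov_of_check cc1941 tt1941)
        (cov_of_check cc1942 tt1942)))
      (cov_of_check cc1943 tt1943)))))

theorem root98 : Cov 32 64 32 48 64 96 96 128 112 128 16 32 :=
  (cov0 48
   (cov0 40
    (cov_of_check cc1970 tt1970)
    (cov3 112
     (cov2 80
      (cov1 40
       (cov5 24
        (cov_of_check cc1971 tt1971)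
        (cov2 72
         (cov_of_check cc1972 tt1972)
         (cov3 104
          (cov_of_check cc1973 tt1973)
          (cov_of_check cc1974 tt1974))))
       (cov_of_check cc1975 tt1975))
      (cov1 40
       (cov5 24
        (cov_of_check cc1976 tt1976)
        (cov5 28
         (cov_of_check cc1977 tt1977)
         (cov_of_check cc1978 tt1978)))
       (cov_of_check cc1979 tt1979)))
     (cov_of_check cc1980 tt1980)))
   (cov2 80
    (cov3 112
     (cov1 40
      (cov_of_check cc1981 tt1981)
      (cov3 104
       (cov_of_check cc1982 tt1982)
       (cov_of_check cc1983 tt1983)))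
     (cov_of_check cc1984 tt1984))
    (cov3 112
     (cov5 24
      (cov_of_check cc1985 tt1985)
      (cov4 120
       (cov1 40
        (cov_of_check cc1986 tt1986)
        (cov0 56
         (cov_of_check cc1987 tt1987)
         (cov_of_check cc1988 tt1988)))
       (cov_of_check cc1989 tt1989)))
     (cov_of_check cc1990 tt1990))))

theorem root99 : Cov 32 64 32 48 64 96 96 128 96 128 0 32 :=
  (cov5 16
   (cov_of_check cc1954 tt1954)
   (cov4 112
    (cov4 104
     (cov2 80
      (cov5 24
       (cov_of_check cc1955 tt1955)
       (cov_of_check cc1956 tt1956))
      (cov_of_check cc1957 tt1957))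
     (cov0 48
      (cov_of_check cc1958 tt1958)
      (cov5 24
       (cov2 80
        (cov3 112
         (cov1 40
          (cov0 56
           (cov_of_check cc1959 tt1959)
           (cov_of_check cc1960 tt1960))
          (cov_of_check cc1961 tt1961))
         (cov_of_check cc1962 tt1962))
        (cov_of_check cc1963 tt1963))
       (cov3 112
        (cov2 80
         (cov1 40
          (cov0 56
           (cov_of_check cc1964 tt1964)
           (cov_of_check cc1965 tt1965))
          (cov_of_check cc1966 tt1966))
         (cov0 56
          (cov_of_check cc1967 tt1967)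
          (cov_of_check cc1968 tt1968)))
        (cov_of_check cc1969 tt1969)))))
    root98))

theorem root100 : Cov 0 64 32 64 64 96 96 128 64 128 32 64 :=
  (cov0 32
   (cov4 96
    (cov_of_check cc2007 tt2007)
    (cov1 48
     (cov2 80
      (cov_of_check cc2008 tt2008)
      (cov5 48
       (cov1 40
        (cov2 88
         (cov_of_check cc2009 tt2009)
         (cov_of_check cc2010 tt2010))
        (cov_of_check cc2011 tt2011))
       (cov_of_check cc2012 tt2012)))
     (cov_of_check cc2013 tt2013)))
   (cov4 96
    (cov_of_check cc2014 tt2014)
    (cov1 48
     (cov4 112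
      (cov3 112
       (cov5 48
        (cov5 40
         (cov2 80
          (cov_of_check cc2015 tt2015)
          (cov1 40
           (cov3 104
            (cov_of_check cc2016 tt2016)
            (cov_of_check cc2017 tt2017))
           (cov_of_check cc2018 tt2018)))
         (cov_of_check cc2019 tt2019))
        (cov_of_check cc2020 tt2020))
       (cov_of_check cc2021 tt2021))
      (cov3 112
       (cov2 80
        (cov_of_check cc2022 tt2022)
        (cov2 88
         (cov_of_check cc2023 tt2023)
         (cov_of_check cc2024 tt2024)))
       (cov_of_check cc2025 tt2025)))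
     (cov_of_check cc2026 tt2026))))

theorem root101 : Cov 0 64 32 64 64 96 64 128 64 128 0 64 :=
  (cov5 32
   (cov0 32
    root97
    (cov3 96
     (cov4 96
      (cov_of_check cc1944 tt1944)
      (cov5 16
       (cov_of_check cc1945 tt1945)
       (cov1 48
        (cov1 40
         (cov2 80
          (cov_of_check cc1946 tt1946)
          (cov4 112
           (cov5 24
            (cov_of_check cc1947 tt1947)
            (cov0 48
             (cov_of_check cc1948 tt1948)
             (cov_of_check cc1949 tt1949)))
           (cov_of_check cc1950 tt1950)))
         (cov_of_check cc1951 tt1951))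
        (cov_of_check cc1952 tt1952))))
     (cov4 96
      (cov_of_check cc1953 tt1953)
      (cov1 48
       root99
       (cov0 48
        (cov3 112
         (cov_of_check cc1991 tt1991)
         (cov_of_check cc1992 tt1992))
        (cov_of_check cc1993 tt1993))))))
   (cov3 96
    (cov0 32
     (cov4 96
      (cov_of_check cc1994 tt1994)
      (cov2 80
       (cov_of_check cc1995 tt1995)
       (cov0 16
        (cov_of_check cc1996 tt1996)
        (cov4 112
         (cov1 48
          (cov1 40
           (cov5 48
            (cov2 88
             (cov_of_check cc1997 tt1997)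
             (cov5 40
              (cov_of_check cc1998 tt1998)
              (cov_of_check cc1999 tt1999)))
            (cov_of_check cc2000 tt2000))
           (cov_of_check cc2001 tt2001))
          (cov_of_check cc2002 tt2002))
         (cov_of_check cc2003 tt2003)))))
     (cov4 96
      (cov_of_check cc2004 tt2004)
      (cov2 80
       (cov_of_check cc2005 tt2005)
       (cov_of_check cc2006 tt2006))))
    root100))

theorem root102 : Cov 0 32 32 64 96 112 64 96 96 128 0 32 :=
  (cov4 112
   (cov0 16
    (cov_of_check cc2028 tt2028)
    (cov1 48
     (cov1 40
      (cov0 24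
       (cov_of_check cc2029 tt2029)
       (cov3 80
        (cov_of_check cc2030 tt2030)
        (cov3 88
         (cov5 16
          (cov_of_check cc2031 tt2031)
          (cov_of_check cc2032 tt2032))
         (cov_of_check cc2033 tt2033))))
      (cov5 16
       (cov_of_check cc2034 tt2034)
       (cov0 24
        (cov_of_check cc2035 tt2035)
        (cov3 80
         (cov_of_check cc2036 tt2036)
         (cov_of_check cc2037 tt2037)))))
     (cov3 80
      (cov_of_check cc2038 tt2038)
      (cov_of_check cc2039 tt2039))))
   (cov5 16
    (cov3 80
     (cov_of_check cc2040 tt2040)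
     (cov_of_check cc2041 tt2041))
    (cov3 80
     (cov4 120
      (cov2 104
       (cov1 48
        (cov0 16
         (cov_of_check cc2042 tt2042)
         (cov4 116
          (cov_of_check cc2043 tt2043)
          (cov_of_check cc2044 tt2044)))
        (cov_of_check cc2045 tt2045))
       (cov_of_check cc2046 tt2046))
      (cov_of_check cc2047 tt2047))
     (cov3 88
      (cov4 120
       (cov1 48
        (cov2 104
         (cov5 24
          (cov_of_check cc2048 tt2048)
          (cov_of_check cc2049 tt2049))
         (cov_of_check cc2050 tt2050))
        (cov_of_check cc2051 tt2051))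
       (cov_of_check cc2052 tt2052))
      (cov_of_check cc2053 tt2053)))))

theorem root103 : Cov 0 32 32 64 112 128 64 96 112 128 0 32 :=
  (cov0 16
   (cov5 16
    (cov_of_check cc2055 tt2055)
    (cov4 120
     (cov_of_check cc2056 tt2056)
     (cov2 120
      (cov_of_check cc2057 tt2057)
      (cov_of_check cc2058 tt2058))))
   (cov5 16
    (cov5 8
     (cov_of_check cc2059 tt2059)
     (cov4 120
      (cov_of_check cc2060 tt2060)
      (cov_of_check cc2061 tt2061)))
    (cov3 80
     (cov3 72
      (cov_of_check cc2062 tt2062)
      (cov4 120
       (cov2 120
        (cov_of_check cc2063 tt2063)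
        (cov_of_check cc2064 tt2064))
       (cov2 120
        (cov5 24
         (cov_of_check cc2065 tt2065)
         (cov_of_check cc2066 tt2066))
        (cov_of_check cc2067 tt2067))))
     (cov4 120
      (cov0 24
       (cov_of_check cc2068 tt2068)
       (cov_of_check cc2069 tt2069))
      (cov3 88
       (cov2 120
        (cov_of_check cc2070 tt2070)
        (cov_of_check cc2071 tt2071))
       (cov_of_check cc2072 tt2072))))))

theorem root104 : Cov 16 32 32 48 96 112 64 96 96 128 32 64 :=
  (cov1 40
   (cov4 112
    (cov5 48
     (cov0 24
      (cov_of_check cc2083 tt2083)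
      (cov_of_check cc2084 tt2084))
     (cov0 24
      (cov3 80
       (cov5 56
        (cov_of_check cc2085 tt2085)
        (cov_of_check cc2086 tt2086))
       (cov5 56
        (cov0 20
         (cov_of_check cc2087 tt2087)
         (cov4 104
          (cov_of_check cc2088 tt2088)
          (cov1 36
           (cov5 52
            (cov_of_check cc2089 tt2089)
            (cov_of_check cc2090 tt2090))
           (cov_of_check cc2091 tt2091))))
        (cov_of_check cc2092 tt2092)))
      (cov3 80
       (cov_of_check cc2093 tt2093)
       (cov_of_check cc2094 tt2094))))
    (cov0 24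
     (cov_of_check cc2095 tt2095)
     (cov_of_check cc2096 tt2096)))
   (cov3 80
    (cov5 48
     (cov0 24
      (cov_of_check cc2097 tt2097)
      (cov_of_check cc2098 tt2098))
     (cov_of_check cc2099 tt2099))
    (cov3 88
     (cov5 48
      (cov2 104
       (cov_of_check cc2100 tt2100)
       (cov_of_check cc2101 tt2101))
      (cov_of_check cc2102 tt2102))
     (cov_of_check cc2103 tt2103))))

theorem root105 : Cov 0 32 32 64 96 128 64 96 96 128 32 64 :=
  (cov0 16
   (cov5 48
    (cov1 48
     (cov2 112
      (cov3 80
       (cov_of_check cc2073 tt2073)
       (cov3 88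
        (cov4 112
         (cov_of_check cc2074 tt2074)
         (cov_of_check cc2075 tt2075))
        (cov_of_check cc2076 tt2076)))
      (cov5 40
       (cov_of_check cc2077 tt2077)
       (cov_of_check cc2078 tt2078)))
     (cov_of_check cc2079 tt2079))
    (cov1 48
     (cov2 112
      (cov_of_check cc2080 tt2080)
      (cov_of_check cc2081 tt2081))
     (cov_of_check cc2082 tt2082)))
   (cov2 112
    (cov1 48
     root104
     (cov3 80
      (cov_of_check cc2104 tt2104)
      (cov3 88
       (cov5 48
        (cov_of_check cc2105 tt2105)
        (cov_of_check cc2106 tt2106))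
       (cov_of_check cc2107 tt2107))))
    (cov3 80
     (cov5 48
      (cov_of_check cc2108 tt2108)
      (cov4 112
       (cov_of_check cc2109 tt2109)
       (cov_of_check cc2110 tt2110)))
     (cov5 48
      (cov_of_check cc2111 tt2111)
      (cov_of_check cc2112 tt2112)))))

theorem root106 : Cov 0 32 32 64 96 128 96 128 96 128 0 64 :=
  (cov5 32
   (cov4 112
    (cov5 16
     (cov_of_check cc2114 tt2114)
     (cov4 104
      (cov_of_check cc2115 tt2115)
      (cov_of_check cc2116 tt2116)))
    (cov2 112
     (cov0 16
      (cov_of_check cc2117 tt2117)
      (cov_of_check cc2118 tt2118))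
     (cov3 112
      (cov3 104
       (cov0 16
        (cov5 16
         (cov_of_check cc2119 tt2119)
         (cov2 120
          (cov_of_check cc2120 tt2120)
          (cov1 48
           (cov_of_check cc2121 tt2121)
           (cov_of_check cc2122 tt2122))))
        (cov_of_check cc2123 tt2123))
       (cov0 16
        (cov2 120
         (cov_of_check cc2124 tt2124)
         (cov_of_check cc2125 tt2125))
        (cov_of_check cc2126 tt2126)))
      (cov_of_check cc2127 tt2127))))
   (cov2 112
    (cov1 48
     (cov3 112
      (cov3 104
       (cov2 104
        (cov0 16
         (cov_of_check cc2128 tt2128)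
         (cov_of_check cc2129 tt2129))
        (cov_of_check cc2130 tt2130))
       (cov_of_check cc2131 tt2131))
      (cov_of_check cc2132 tt2132))
     (cov_of_check cc2133 tt2133))
    (cov0 16
     (cov3 112
      (cov3 104
       (cov1 48
        (cov_of_check cc2134 tt2134)
        (cov_of_check cc2135 tt2135))
       (cov4 112
        (cov_of_check cc2136 tt2136)
        (cov5 48
         (cov_of_check cc2137 tt2137)
         (cov_of_check cc2138 tt2138))))
      (cov_of_check cc2139 tt2139))
     (cov3 112
      (cov3 104
       (cov_of_check cc2140 tt2140)
       (cov5 48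
        (cov_of_check cc2141 tt2141)
        (cov_of_check cc2142 tt2142)))
      (cov_of_check cc2143 tt2143)))))

theorem root107 : Cov 32 64 32 64 96 128 64 96 96 128 0 32 :=
  (cov2 112
   (cov5 16
    (cov_of_check cc2145 tt2145)
    (cov4 112
     (cov4 104
      (cov1 48
       (cov0 48
        (cov_of_check cc2146 tt2146)
        (cov_of_check cc2147 tt2147))
       (cov_of_check cc2148 tt2148))
      (cov1 48
       (cov0 48
        (cov0 40
         (cov_of_check cc2149 tt2149)
         (cov5 24
          (cov_of_check cc2150 tt2150)
          (cov3 80
           (cov_of_check cc2151 tt2151)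
           (cov_of_check cc2152 tt2152))))
        (cov_of_check cc2153 tt2153))
       (cov_of_check cc2154 tt2154)))
     (cov0 48
      (cov0 40
       (cov_of_check cc2155 tt2155)
       (cov_of_check cc2156 tt2156))
      (cov_of_check cc2157 tt2157))))
   (cov5 16
    (cov_of_check cc2158 tt2158)
    (cov4 112
     (cov4 104
      (cov_of_check cc2159 tt2159)
      (cov0 48
       (cov_of_check cc2160 tt2160)
       (cov_of_check cc2161 tt2161)))
     (cov0 48
      (cov0 40
       (cov1 48
        (cov1 40
         (cov_of_check cc2162 tt2162)
         (cov_of_check cc2163 tt2163))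
        (cov_of_check cc2164 tt2164))
       (cov4 120
        (cov2 120
         (cov1 48
          (cov_of_check cc2165 tt2165)
          (cov_of_check cc2166 tt2166))
         (cov_of_check cc2167 tt2167))
        (cov_of_check cc2168 tt2168)))
      (cov_of_check cc2169 tt2169)))))

theorem root108 : Cov 32 64 32 64 96 128 64 96 96 128 32 64 :=
  (cov2 112
   (cov1 48
    (cov4 112
     (cov5 48
      (cov0 48
       (cov5 40
        (cov0 40
         (cov_of_check cc2170 tt2170)
         (cov1 40
          (cov4 104
           (cov_of_check cc2171 tt2171)
           (cov3 80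
            (cov_of_check cc2172 tt2172)
            (cov0 44
             (cov_of_check cc2173 tt2173)
             (cov1 36
              (cov_of_check cc2174 tt2174)
              (cov_of_check cc2175 tt2175)))))
          (cov_of_check cc2176 tt2176)))
        (cov_of_check cc2177 tt2177))
       (cov3 80
        (cov_of_check cc2178 tt2178)
        (cov3 88
         (cov_of_check cc2179 tt2179)
         (cov_of_check cc2180 tt2180))))
      (cov_of_check cc2181 tt2181))
     (cov_of_check cc2182 tt2182))
    (cov_of_check cc2183 tt2183))
   (cov5 48
    (cov1 48
     (cov_of_check cc2184 tt2184)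
     (cov_of_check cc2185 tt2185))
    (cov_of_check cc2186 tt2186)))

theorem root109 : Cov 32 64 32 64 96 128 96 128 96 128 32 64 :=
  (cov1 48
   (cov3 112
    (cov2 112
     (cov3 104
      (cov2 104
       (cov_of_check cc2194 tt2194)
       (cov4 112
        (cov0 48
         (cov_of_check cc2195 tt2195)
         (cov5 48
          (cov5 40
           (cov4 104
            (cov_of_check cc2196 tt2196)
            (cov_of_check cc2197 tt2197))
           (cov_of_check cc2198 tt2198))
          (cov_of_check cc2199 tt2199)))
        (cov_of_check cc2200 tt2200)))
      (cov0 48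
       (cov5 48
        (cov_of_check cc2201 tt2201)
        (cov_of_check cc2202 tt2202))
       (cov5 48
        (cov2 104
         (cov1 40
          (cov_of_check cc2203 tt2203)
          (cov_of_check cc2204 tt2204))
         (cov_of_check cc2205 tt2205))
        (cov_of_check cc2206 tt2206))))
     (cov_of_check cc2207 tt2207))
    (cov0 48
     (cov_of_check cc2208 tt2208)
     (cov_of_check cc2209 tt2209)))
   (cov_of_check cc2210 tt2210))

theorem root110 : Cov 0 64 32 64 96 128 64 128 64 128 0 64 :=
  (cov0 32
   (cov3 96
    (cov4 96
     (cov_of_check cc2027 tt2027)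
     (cov5 32
      (cov2 112
       root102
       (cov4 112
        (cov_of_check cc2054 tt2054)
        root103))
      root105))
    (cov4 96
     (cov_of_check cc2113 tt2113)
     root106))
   (cov3 96
    (cov4 96
     (cov_of_check cc2144 tt2144)
     (cov5 32
      root107
      root108))
    (cov4 96
     (cov_of_check cc2187 tt2187)
     (cov5 32
      (cov2 112
       (cov1 48
        (cov3 112
         (cov3 104
          (cov_of_check cc2188 tt2188)
          (cov4 112
           (cov_of_check cc2189 tt2189)
           (cov_of_check cc2190 tt2190)))
         (cov_of_check cc2191 tt2191))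
        (cov_of_check cc2192 tt2192))
       (cov_of_check cc2193 tt2193))
      root109))))

theorem root111 : Cov 0 32 0 64 64 128 64 96 64 128 64 128 :=
  (cov2 96
   (cov1 32
    (cov4 96
     (cov_of_check cc2211 tt2211)
     (cov5 96
      (cov1 16
       (cov_of_check cc2212 tt2212)
       (cov3 80
        (cov2 80
         (cov_of_check cc2213 tt2213)
         (cov_of_check cc2214 tt2214))
        (cov_of_check cc2215 tt2215)))
      (cov_of_check cc2216 tt2216)))
    (cov_of_check cc2217 tt2217))
   (cov1 32
    (cov4 96
     (cov_of_check cc2218 tt2218)
     (cov5 96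
      (cov2 112
       (cov4 112
        (cov3 80
         (cov5 80
          (cov0 16
           (cov_of_check cc2219 tt2219)
           (cov1 16
            (cov_of_check cc2220 tt2220)
            (cov_of_check cc2221 tt2221)))
          (cov_of_check cc2222 tt2222))
         (cov_of_check cc2223 tt2223))
        (cov_of_check cc2224 tt2224))
       (cov_of_check cc2225 tt2225))
      (cov_of_check cc2226 tt2226)))
    (cov5 96
     (cov4 96
      (cov_of_check cc2227 tt2227)
      (cov2 112
       (cov4 112
        (cov_of_check cc2228 tt2228)
        (cov_of_check cc2229 tt2229))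
       (cov_of_check cc2230 tt2230)))
     (cov_of_check cc2231 tt2231))))

theorem root112 : Cov 64 96 0 32 64 96 64 96 64 128 0 32 :=
  (cov4 96
   (cov_of_check cc2248 tt2248)
   (cov1 16
    (cov3 80
     (cov3 72
      (cov_of_check cc2249 tt2249)
      (cov_of_check cc2250 tt2250))
     (cov4 112
      (cov_of_check cc2251 tt2251)
      (cov_of_check cc2252 tt2252)))
    (cov5 16
     (cov0 80
      (cov_of_check cc2253 tt2253)
      (cov_of_check cc2254 tt2254))
     (cov4 112
      (cov2 80
       (cov3 80
        (cov_of_check cc2255 tt2255)
        (cov_of_check cc2256 tt2256))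
       (cov0 80
        (cov_of_check cc2257 tt2257)
        (cov4 104
         (cov_of_check cc2258 tt2258)
         (cov0 88
          (cov_of_check cc2259 tt2259)
          (cov5 24
           (cov_of_check cc2260 tt2260)
           (cov_of_check cc2261 tt2261))))))
      (cov2 80
       (cov_of_check cc2262 tt2262)
       (cov3 80
        (cov_of_check cc2263 tt2263)
        (cov_of_check cc2264 tt2264)))))))

theorem root113 : Cov 96 128 0 32 80 96 64 96 96 128 0 32 :=
  (cov5 16
   (cov0 112
    (cov_of_check cc2272 tt2272)
    (cov_of_check cc2273 tt2273))
   (cov1 16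
    (cov3 80
     (cov_of_check cc2274 tt2274)
     (cov3 88
      (cov2 88
       (cov_of_check cc2275 tt2275)
       (cov_of_check cc2276 tt2276))
      (cov_of_check cc2277 tt2277)))
    (cov0 112
     (cov3 80
      (cov1 24
       (cov3 72
        (cov_of_check cc2278 tt2278)
        (cov0 104
         (cov2 88
          (cov_of_check cc2279 tt2279)
          (cov4 112
           (cov_of_check cc2280 tt2280)
           (cov_of_check cc2281 tt2281)))
         (cov_of_check cc2282 tt2282)))
       (cov_of_check cc2283 tt2283))
      (cov0 104
       (cov1 24
        (cov2 88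
         (cov_of_check cc2284 tt2284)
         (cov3 88
          (cov_of_check cc2285 tt2285)
          (cov_of_check cc2286 tt2286)))
        (cov_of_check cc2287 tt2287))
       (cov_of_check cc2288 tt2288)))
     (cov_of_check cc2289 tt2289))))

theorem root114 : Cov 64 128 0 64 64 96 64 96 64 128 0 32 :=
  (cov1 32
   (cov0 96
    root112
    (cov4 96
     (cov_of_check cc2265 tt2265)
     (cov2 80
      (cov5 16
       (cov_of_check cc2266 tt2266)
       (cov3 80
        (cov_of_check cc2267 tt2267)
        (cov0 112
         (cov5 24
          (cov_of_check cc2268 tt2268)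
          (cov4 112
           (cov_of_check cc2269 tt2269)
           (cov_of_check cc2270 tt2270)))
         (cov_of_check cc2271 tt2271))))
      root113)))
   (cov0 96
    (cov4 96
     (cov_of_check cc2290 tt2290)
     (cov1 48
      (cov5 16
       (cov_of_check cc2291 tt2291)
       (cov3 80
        (cov_of_check cc2292 tt2292)
        (cov2 80
         (cov_of_check cc2293 tt2293)
         (cov_of_check cc2294 tt2294))))
      (cov_of_check cc2295 tt2295)))
    (cov4 96
     (cov_of_check cc2296 tt2296)
     (cov2 80
      (cov4 112
       (cov0 112
        (cov_of_check cc2297 tt2297)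
        (cov_of_check cc2298 tt2298))
       (cov_of_check cc2299 tt2299))
      (cov3 80
       (cov_of_check cc2300 tt2300)
       (cov3 88
        (cov_of_check cc2301 tt2301)
        (cov_of_check cc2302 tt2302)))))))

theorem root115 : Cov 64 96 0 32 64 96 96 104 104 112 16 32 :=
  (cov5 24
   (cov2 80
    (cov0 80
     (cov0 72
      (cov1 16
       (cov_of_check cc2311 tt2311)
       (cov2 72
        (cov_of_check cc2312 tt2312)
        (cov_of_check cc2313 tt2313)))
      (cov1 16
       (cov_of_check cc2314 tt2314)
       (cov4 108
        (cov_of_check cc2315 tt2315)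
        (cov_of_check cc2316 tt2316))))
     (cov_of_check cc2317 tt2317))
    (cov_of_check cc2318 tt2318))
   (cov0 80
    (cov2 80
     (cov1 16
      (cov_of_check cc2319 tt2319)
      (cov0 72
       (cov5 28
        (cov2 72
         (cov_of_check cc2320 tt2320)
         (cov_of_check cc2321 tt2321))
        (cov_of_check cc2322 tt2322))
       (cov5 28
        (cov0 76
         (cov1 24
          (cov_of_check cc2323 tt2323)
          (cov_of_check cc2324 tt2324))
         (cov_of_check cc2325 tt2325))
        (cov_of_check cc2326 tt2326))))
     (cov_of_check cc2327 tt2327))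
    (cov_of_check cc2328 tt2328)))

theorem root116 : Cov 64 96 0 32 64 96 96 128 96 112 16 32 :=
  (cov4 104
   (cov1 16
    (cov_of_check cc2305 tt2305)
    (cov3 112
     (cov2 80
      (cov0 80
       (cov5 24
        (cov_of_check cc2306 tt2306)
        (cov_of_check cc2307 tt2307))
       (cov_of_check cc2308 tt2308))
      (cov_of_check cc2309 tt2309))
     (cov_of_check cc2310 tt2310)))
   (cov3 112
    (cov3 104
     root115
     (cov2 80
      (cov0 80
       (cov5 24
        (cov1 16
         (cov_of_check cc2329 tt2329)
         (cov0 72
          (cov2 72
           (cov_of_check cc2330 tt2330)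
           (cov_of_check cc2331 tt2331))
          (cov_of_check cc2332 tt2332)))
        (cov1 16
         (cov_of_check cc2333 tt2333)
         (cov5 28
          (cov0 72
           (cov2 72
            (cov_of_check cc2334 tt2334)
            (cov_of_check cc2335 tt2335))
           (cov_of_check cc2336 tt2336))
          (cov_of_check cc2337 tt2337))))
       (cov_of_check cc2338 tt2338))
      (cov_of_check cc2339 tt2339)))
    (cov_of_check cc2340 tt2340)))

theorem root117 : Cov 80 96 32 64 64 96 96 112 96 128 0 32 :=
  (cov4 112
   (cov2 80
    (cov1 48
     (cov_of_check cc2358 tt2358)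
     (cov1 56
      (cov4 104
       (cov_of_check cc2359 tt2359)
       (cov5 16
        (cov_of_check cc2360 tt2360)
        (cov0 88
         (cov_of_check cc2361 tt2361)
         (cov5 24
          (cov_of_check cc2362 tt2362)
          (cov2 72
           (cov_of_check cc2363 tt2363)
           (cov_of_check cc2364 tt2364))))))
      (cov_of_check cc2365 tt2365)))
    (cov3 104
     (cov_of_check cc2366 tt2366)
     (cov1 48
      (cov_of_check cc2367 tt2367)
      (cov4 104
       (cov_of_check cc2368 tt2368)
       (cov2 88
        (cov_of_check cc2369 tt2369)
        (cov1 56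
         (cov_of_check cc2370 tt2370)
         (cov_of_check cc2371 tt2371)))))))
   (cov2 80
    (cov5 16
     (cov_of_check cc2372 tt2372)
     (cov0 88
      (cov_of_check cc2373 tt2373)
      (cov1 48
       (cov_of_check cc2374 tt2374)
       (cov5 24
        (cov_of_check cc2375 tt2375)
        (cov4 120
         (cov1 56
          (cov5 28
           (cov_of_check cc2376 tt2376)
           (cov2 72
            (cov_of_check cc2377 tt2377)
            (cov_of_check cc2378 tt2378)))
          (cov_of_check cc2379 tt2379))
         (cov_of_check cc2380 tt2380))))))
    (cov4 120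
     (cov3 104
      (cov_of_check cc2381 tt2381)
      (cov1 48
       (cov_of_check cc2382 tt2382)
       (cov2 88
        (cov_of_check cc2383 tt2383)
        (cov1 56
         (cov_of_check cc2384 tt2384)
         (cov_of_check cc2385 tt2385)))))
     (cov_of_check cc2386 tt2386))))

theorem root118 : Cov 64 96 0 64 64 96 96 128 96 128 0 32 :=
  (cov1 32
   (cov4 112
    (cov5 16
     (cov_of_check cc2304 tt2304)
     root116)
    (cov1 16
     (cov_of_check cc2341 tt2341)
     (cov0 80
      (cov5 16
       (cov_of_check cc2342 tt2342)
       (cov0 72
        (cov3 112
         (cov2 80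
          (cov_of_check cc2343 tt2343)
          (cov_of_check cc2344 tt2344))
         (cov_of_check cc2345 tt2345))
        (cov2 80
         (cov_of_check cc2346 tt2346)
         (cov_of_check cc2347 tt2347))))
      (cov0 88
       (cov_of_check cc2348 tt2348)
       (cov_of_check cc2349 tt2349)))))
   (cov0 80
    (cov1 48
     (cov4 112
      (cov0 72
       (cov_of_check cc2350 tt2350)
       (cov_of_check cc2351 tt2351))
      (cov5 16
       (cov_of_check cc2352 tt2352)
       (cov0 72
        (cov5 24
         (cov_of_check cc2353 tt2353)
         (cov_of_check cc2354 tt2354))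
        (cov_of_check cc2355 tt2355))))
     (cov4 112
      (cov_of_check cc2356 tt2356)
      (cov_of_check cc2357 tt2357)))
    (cov3 112
     root117
     (cov1 48
      (cov0 88
       (cov_of_check cc2387 tt2387)
       (cov_of_check cc2388 tt2388))
      (cov2 80
       (cov_of_check cc2389 tt2389)
       (cov1 56
        (cov0 88
         (cov_of_check cc2390 tt2390)
         (cov4 112
          (cov_of_check cc2391 tt2391)
          (cov_of_check cc2392 tt2392)))
        (cov_of_check cc2393 tt2393)))))))

theorem root119 : Cov 96 112 32 64 64 96 96 128 112 128 16 32 :=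
  (cov2 80
   (cov3 112
    (cov1 48
     (cov_of_check cc2424 tt2424)
     (cov2 72
      (cov3 104
       (cov_of_check cc2425 tt2425)
       (cov_of_check cc2426 tt2426))
      (cov1 56
       (cov0 104
        (cov5 24
         (cov_of_check cc2427 tt2427)
         (cov_of_check cc2428 tt2428))
        (cov_of_check cc2429 tt2429))
       (cov_of_check cc2430 tt2430))))
    (cov_of_check cc2431 tt2431))
   (cov2 88
    (cov_of_check cc2432 tt2432)
    (cov1 48
     (cov3 112
      (cov_of_check cc2433 tt2433)
      (cov_of_check cc2434 tt2434))
     (cov1 56
      (cov0 104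
       (cov3 112
        (cov3 104
         (cov_of_check cc2435 tt2435)
         (cov4 120
          (cov5 24
           (cov_of_check cc2436 tt2436)
           (cov_of_check cc2437 tt2437))
          (cov_of_check cc2438 tt2438)))
        (cov_of_check cc2439 tt2439))
       (cov_of_check cc2440 tt2440))
      (cov_of_check cc2441 tt2441)))))

theorem root120 : Cov 96 128 32 64 64 96 96 128 96 128 0 32 :=
  (cov5 16
   (cov4 112
    (cov_of_check cc2410 tt2410)
    (cov_of_check cc2411 tt2411))
   (cov4 112
    (cov0 112
     (cov3 112
      (cov2 80
       (cov1 48
        (cov_of_check cc2412 tt2412)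
        (cov5 24
         (cov_of_check cc2413 tt2413)
         (cov4 104
          (cov_of_check cc2414 tt2414)
          (cov2 72
           (cov_of_check cc2415 tt2415)
           (cov_of_check cc2416 tt2416)))))
       (cov4 104
        (cov_of_check cc2417 tt2417)
        (cov5 24
         (cov_of_check cc2418 tt2418)
         (cov3 104
          (cov_of_check cc2419 tt2419)
          (cov1 48
           (cov_of_check cc2420 tt2420)
           (cov_of_check cc2421 tt2421))))))
      (cov_of_check cc2422 tt2422))
     (cov_of_check cc2423 tt2423))
    (cov0 112
     root119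
     (cov3 112
      (cov_of_check cc2442 tt2442)
      (cov_of_check cc2443 tt2443)))))

theorem root121 : Cov 96 128 0 64 64 96 96 128 96 128 0 32 :=
  (cov1 32
   (cov4 112
    (cov3 112
     (cov3 104
      (cov1 16
       (cov_of_check cc2394 tt2394)
       (cov0 112
        (cov2 80
         (cov_of_check cc2395 tt2395)
         (cov_of_check cc2396 tt2396))
        (cov_of_check cc2397 tt2397)))
      (cov_of_check cc2398 tt2398))
     (cov_of_check cc2399 tt2399))
    (cov2 80
     (cov_of_check cc2400 tt2400)
     (cov3 112
      (cov3 104
       (cov_of_check cc2401 tt2401)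
       (cov5 16
        (cov_of_check cc2402 tt2402)
        (cov0 112
         (cov2 88
          (cov_of_check cc2403 tt2403)
          (cov_of_check cc2404 tt2404))
         (cov_of_check cc2405 tt2405))))
      (cov5 16
       (cov_of_check cc2406 tt2406)
       (cov0 112
        (cov1 16
         (cov_of_check cc2407 tt2407)
         (cov_of_check cc2408 tt2408))
        (cov_of_check cc2409 tt2409))))))
   root120)

theorem root122 : Cov 96 128 0 32 64 96 64 96 96 128 32 64 :=
  (cov2 80
   (cov3 80
    (cov_of_check cc2451 tt2451)
    (cov5 48
     (cov4 112
      (cov4 104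
       (cov_of_check cc2452 tt2452)
       (cov3 88
        (cov_of_check cc2453 tt2453)
        (cov2 72
         (cov_of_check cc2454 tt2454)
         (cov_of_check cc2455 tt2455))))
      (cov_of_check cc2456 tt2456))
     (cov_of_check cc2457 tt2457)))
   (cov0 112
    (cov5 48
     (cov1 16
      (cov5 40
       (cov3 80
        (cov_of_check cc2458 tt2458)
        (cov_of_check cc2459 tt2459))
       (cov3 80
        (cov3 72
         (cov_of_check cc2460 tt2460)
         (cov2 88
          (cov_of_check cc2461 tt2461)
          (cov0 104
           (cov_of_check cc2462 tt2462)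
           (cov_of_check cc2463 tt2463))))
        (cov_of_check cc2464 tt2464)))
      (cov_of_check cc2465 tt2465))
     (cov_of_check cc2466 tt2466))
    (cov_of_check cc2467 tt2467)))

theorem root123 : Cov 88 96 48 64 64 80 96 112 112 128 32 48 :=
  (cov1 56
   (cov5 40
    (cov2 72
     (cov5 36
      (cov4 120
       (cov2 68
        (cov_of_check cc2493 tt2493)
        (cov_of_check cc2494 tt2494))
       (cov_of_check cc2495 tt2495))
      (cov2 68
       (cov4 120
        (cov_of_check cc2496 tt2496)
        (cov_of_check cc2497 tt2497))
       (cov4 120
        (cov_of_check cc2498 tt2498)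
        (cov_of_check cc2499 tt2499))))
     (cov_of_check cc2500 tt2500))
    (cov2 72
     (cov5 44
      (cov_of_check cc2501 tt2501)
      (cov_of_check cc2502 tt2502))
     (cov_of_check cc2503 tt2503)))
   (cov3 104
    (cov_of_check cc2504 tt2504)
    (cov5 40
     (cov2 72
      (cov0 92
       (cov_of_check cc2505 tt2505)
       (cov1 60
        (cov2 68
         (cov_of_check cc2506 tt2506)
         (cov3 108
          (cov_of_check cc2507 tt2507)
          (cov_of_check cc2508 tt2508)))
        (cov_of_check cc2509 tt2509)))
      (cov_of_check cc2510 tt2510))
     (cov_of_check cc2511 tt2511))))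

theorem root124 : Cov 64 96 32 64 64 80 96 128 96 128 32 64 :=
  (cov3 112
   (cov5 48
    (cov0 80
     (cov_of_check cc2481 tt2481)
     (cov1 48
      (cov5 40
       (cov4 112
        (cov_of_check cc2482 tt2482)
        (cov_of_check cc2483 tt2483))
       (cov4 112
        (cov_of_check cc2484 tt2484)
        (cov_of_check cc2485 tt2485)))
      (cov4 112
       (cov1 56
        (cov_of_check cc2486 tt2486)
        (cov_of_check cc2487 tt2487))
       (cov0 88
        (cov5 40
         (cov3 104
          (cov_of_check cc2488 tt2488)
          (cov1 56
           (cov2 72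
            (cov_of_check cc2489 tt2489)
            (cov_of_check cc2490 tt2490))
           (cov_of_check cc2491 tt2491)))
         (cov_of_check cc2492 tt2492))
        root123))))
    (cov_of_check cc2512 tt2512))
   (cov5 48
    (cov1 48
     (cov0 80
      (cov_of_check cc2513 tt2513)
      (cov_of_check cc2514 tt2514))
     (cov4 112
      (cov_of_check cc2515 tt2515)
      (cov3 120
       (cov0 80
        (cov_of_check cc2516 tt2516)
        (cov0 88
         (cov_of_check cc2517 tt2517)
         (cov_of_check cc2518 tt2518)))
       (cov_of_check cc2519 tt2519))))
    (cov_of_check cc2520 tt2520)))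

theorem root125 : Cov 64 96 32 64 80 96 96 128 96 128 32 48 :=
  (cov3 112
   (cov1 48
    (cov5 40
     (cov_of_check cc2521 tt2521)
     (cov_of_check cc2522 tt2522))
    (cov_of_check cc2523 tt2523))
   (cov1 48
    (cov0 80
     (cov_of_check cc2524 tt2524)
     (cov0 88
      (cov_of_check cc2525 tt2525)
      (cov1 40
       (cov_of_check cc2526 tt2526)
       (cov5 40
        (cov4 112
         (cov_of_check cc2527 tt2527)
         (cov4 120
          (cov1 44
           (cov_of_check cc2528 tt2528)
           (cov_of_check cc2529 tt2529))
          (cov_of_check cc2530 tt2530)))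
        (cov_of_check cc2531 tt2531)))))
    (cov0 80
     (cov_of_check cc2532 tt2532)
     (cov1 56
      (cov0 88
       (cov_of_check cc2533 tt2533)
       (cov2 88
        (cov5 40
         (cov_of_check cc2534 tt2534)
         (cov_of_check cc2535 tt2535))
        (cov_of_check cc2536 tt2536)))
      (cov_of_check cc2537 tt2537)))))

theorem root126 : Cov 96 128 0 32 64 96 96 128 96 128 32 64 :=
  (cov3 112
   (cov2 80
    (cov0 112
     (cov1 16
      (cov_of_check cc2539 tt2539)
      (cov5 48
       (cov3 104
        (cov4 112
         (cov0 104
          (cov_of_check cc2540 tt2540)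
          (cov5 40
           (cov_of_check cc2541 tt2541)
           (cov_of_check cc2542 tt2542)))
         (cov_of_check cc2543 tt2543))
        (cov_of_check cc2544 tt2544))
       (cov_of_check cc2545 tt2545)))
     (cov_of_check cc2546 tt2546))
    (cov2 88
     (cov_of_check cc2547 tt2547)
     (cov1 16
      (cov_of_check cc2548 tt2548)
      (cov_of_check cc2549 tt2549))))
   (cov5 48
    (cov2 80
     (cov_of_check cc2550 tt2550)
     (cov5 40
      (cov0 112
       (cov4 112
        (cov_of_check cc2551 tt2551)
        (cov0 104
         (cov_of_check cc2552 tt2552)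
         (cov_of_check cc2553 tt2553)))
       (cov1 16
        (cov_of_check cc2554 tt2554)
        (cov4 112
         (cov_of_check cc2555 tt2555)
         (cov1 24
          (cov_of_check cc2556 tt2556)
          (cov2 88
           (cov_of_check cc2557 tt2557)
           (cov3 120
            (cov_of_check cc2558 tt2558)
            (cov_of_check cc2559 tt2559)))))))
      (cov2 88
       (cov_of_check cc2560 tt2560)
       (cov3 120
        (cov_of_check cc2561 tt2561)
        (cov_of_check cc2562 tt2562)))))
    (cov_of_check cc2563 tt2563)))

theorem root127 : Cov 96 112 32 64 64 96 112 128 96 128 32 48 :=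
  (cov1 48
   (cov2 80
    (cov_of_check cc2578 tt2578)
    (cov0 104
     (cov1 40
      (cov_of_check cc2579 tt2579)
      (cov5 40
       (cov2 88
        (cov_of_check cc2580 tt2580)
        (cov3 120
         (cov4 112
          (cov_of_check cc2581 tt2581)
          (cov2 92
           (cov_of_check cc2582 tt2582)
           (cov0 100
            (cov_of_check cc2583 tt2583)
            (cov1 44
             (cov_of_check cc2584 tt2584)
             (cov_of_check cc2585 tt2585)))))
         (cov_of_check cc2586 tt2586)))
       (cov_of_check cc2587 tt2587)))
     (cov_of_check cc2588 tt2588)))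
   (cov2 80
    (cov_of_check cc2589 tt2589)
    (cov1 56
     (cov5 40
      (cov0 104
       (cov4 112
        (cov_of_check cc2590 tt2590)
        (cov4 120
         (cov1 52
          (cov_of_check cc2591 tt2591)
          (cov_of_check cc2592 tt2592))
         (cov_of_check cc2593 tt2593)))
       (cov_of_check cc2594 tt2594))
      (cov_of_check cc2595 tt2595))
     (cov_of_check cc2596 tt2596))))

theorem root128 : Cov 96 128 32 64 64 96 96 128 96 128 32 64 :=
  (cov3 112
   (cov5 48
    (cov0 112
     (cov2 80
      (cov1 48
       (cov0 104
        (cov_of_check cc2564 tt2564)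
        (cov_of_check cc2565 tt2565))
       (cov4 112
        (cov_of_check cc2566 tt2566)
        (cov2 72
         (cov5 40
          (cov0 104
           (cov3 104
            (cov_of_check cc2567 tt2567)
            (cov2 68
             (cov_of_check cc2568 tt2568)
             (cov_of_check cc2569 tt2569)))
           (cov_of_check cc2570 tt2570))
          (cov_of_check cc2571 tt2571))
         (cov_of_check cc2572 tt2572))))
      (cov3 104
       (cov_of_check cc2573 tt2573)
       (cov1 48
        (cov_of_check cc2574 tt2574)
        (cov_of_check cc2575 tt2575))))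
     (cov_of_check cc2576 tt2576))
    (cov_of_check cc2577 tt2577))
   (cov0 112
    (cov5 48
     root127
     (cov_of_check cc2597 tt2597))
    (cov5 48
     (cov1 48
      (cov2 80
       (cov_of_check cc2598 tt2598)
       (cov5 40
        (cov_of_check cc2599 tt2599)
        (cov_of_check cc2600 tt2600)))
      (cov_of_check cc2601 tt2601))
     (cov_of_check cc2602 tt2602))))

theorem root129 : Cov 64 128 0 64 64 96 64 128 64 128 32 64 :=
  (cov3 96
   (cov0 96
    (cov1 32
     (cov4 96
      (cov_of_check cc2444 tt2444)
      (cov3 80
       (cov_of_check cc2445 tt2445)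
       (cov1 16
        (cov_of_check cc2446 tt2446)
        (cov0 80
         (cov_of_check cc2447 tt2447)
         (cov_of_check cc2448 tt2448)))))
     (cov_of_check cc2449 tt2449))
    (cov1 32
     (cov4 96
      (cov_of_check cc2450 tt2450)
      root122)
     (cov4 96
      (cov_of_check cc2468 tt2468)
      (cov3 80
       (cov_of_check cc2469 tt2469)
       (cov0 112
        (cov_of_check cc2470 tt2470)
        (cov_of_check cc2471 tt2471))))))
   (cov4 96
    (cov_of_check cc2472 tt2472)
    (cov0 96
     (cov1 32
      (cov5 48
       (cov3 112
        (cov0 80
         (cov2 80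
          (cov_of_check cc2473 tt2473)
          (cov_of_check cc2474 tt2474))
         (cov2 80
          (cov_of_check cc2475 tt2475)
          (cov_of_check cc2476 tt2476)))
        (cov0 80
         (cov_of_check cc2477 tt2477)
         (cov_of_check cc2478 tt2478)))
       (cov2 80
        (cov_of_check cc2479 tt2479)
        (cov_of_check cc2480 tt2480)))
      (cov2 80
       root124
       (cov5 48
        root125
        (cov_of_check cc2538 tt2538))))
     (cov1 32
      root126
      root128))))

theorem root130 : Cov 64 96 0 64 96 128 64 96 96 128 0 32 :=
  (cov1 32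
   (cov4 112
    (cov5 16
     (cov_of_check cc2604 tt2604)
     (cov2 112
      (cov1 16
       (cov_of_check cc2605 tt2605)
       (cov0 80
        (cov_of_check cc2606 tt2606)
        (cov1 24
         (cov5 24
          (cov_of_check cc2607 tt2607)
          (cov_of_check cc2608 tt2608))
         (cov_of_check cc2609 tt2609))))
      (cov_of_check cc2610 tt2610)))
    (cov5 16
     (cov_of_check cc2611 tt2611)
     (cov0 80
      (cov_of_check cc2612 tt2612)
      (cov3 80
       (cov_of_check cc2613 tt2613)
       (cov_of_check cc2614 tt2614)))))
   (cov4 112
    (cov2 112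
     (cov1 48
      (cov5 16
       (cov_of_check cc2615 tt2615)
       (cov_of_check cc2616 tt2616))
      (cov_of_check cc2617 tt2617))
     (cov_of_check cc2618 tt2618))
    (cov4 120
     (cov5 16
      (cov_of_check cc2619 tt2619)
      (cov1 48
       (cov3 80
        (cov_of_check cc2620 tt2620)
        (cov0 80
         (cov_of_check cc2621 tt2621)
         (cov_of_check cc2622 tt2622)))
       (cov_of_check cc2623 tt2623)))
     (cov0 80
      (cov_of_check cc2624 tt2624)
      (cov_of_check cc2625 tt2625)))))

theorem root131 : Cov 96 128 0 32 96 128 64 96 96 128 0 32 :=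
  (cov1 16
   (cov0 112
    (cov3 80
     (cov3 72
      (cov_of_check cc2627 tt2627)
      (cov0 104
       (cov_of_check cc2628 tt2628)
       (cov_of_check cc2629 tt2629)))
     (cov0 104
      (cov5 16
       (cov_of_check cc2630 tt2630)
       (cov3 88
        (cov_of_check cc2631 tt2631)
        (cov_of_check cc2632 tt2632)))
      (cov2 112
       (cov_of_check cc2633 tt2633)
       (cov_of_check cc2634 tt2634))))
    (cov_of_check cc2635 tt2635))
   (cov5 16
    (cov0 112
     (cov0 104
      (cov_of_check cc2636 tt2636)
      (cov_of_check cc2637 tt2637))
     (cov_of_check cc2638 tt2638))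
    (cov0 112
     (cov0 104
      (cov3 80
       (cov3 72
        (cov_of_check cc2639 tt2639)
        (cov1 24
         (cov2 112
          (cov2 104
           (cov4 112
            (cov_of_check cc2640 tt2640)
            (cov3 76
             (cov_of_check cc2641 tt2641)
             (cov_of_check cc2642 tt2642)))
           (cov_of_check cc2643 tt2643))
          (cov_of_check cc2644 tt2644))
         (cov_of_check cc2645 tt2645)))
       (cov2 112
        (cov1 24
         (cov5 24
          (cov_of_check cc2646 tt2646)
          (cov_of_check cc2647 tt2647))
         (cov_of_check cc2648 tt2648))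
        (cov_of_check cc2649 tt2649)))
      (cov_of_check cc2650 tt2650))
     (cov_of_check cc2651 tt2651))))

theorem root132 : Cov 96 112 0 16 96 128 64 96 96 128 32 48 :=
  (cov3 80
   (cov3 72
    (cov_of_check cc2662 tt2662)
    (cov2 112
     (cov2 104
      (cov0 104
       (cov5 40
        (cov_of_check cc2663 tt2663)
        (cov4 112
         (cov_of_check cc2664 tt2664)
         (cov5 44
          (cov_of_check cc2665 tt2665)
          (cov_of_check cc2666 tt2666))))
       (cov4 112
        (cov_of_check cc2667 tt2667)
        (cov3 76
         (cov_of_check cc2668 tt2668)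
         (cov2 100
          (cov_of_check cc2669 tt2669)
          (cov_of_check cc2670 tt2670)))))
      (cov_of_check cc2671 tt2671))
     (cov_of_check cc2672 tt2672)))
   (cov3 88
    (cov2 112
     (cov2 104
      (cov4 112
       (cov_of_check cc2673 tt2673)
       (cov5 40
        (cov_of_check cc2674 tt2674)
        (cov_of_check cc2675 tt2675)))
      (cov_of_check cc2676 tt2676))
     (cov_of_check cc2677 tt2677))
    (cov_of_check cc2678 tt2678)))

theorem root133 : Cov 64 128 0 64 96 128 64 96 64 128 32 64 :=
  (cov0 96
   (cov4 96
    (cov_of_check cc2653 tt2653)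
    (cov1 32
     (cov2 112
      (cov1 16
       (cov5 48
        (cov0 80
         (cov_of_check cc2654 tt2654)
         (cov3 80
          (cov_of_check cc2655 tt2655)
          (cov_of_check cc2656 tt2656)))
        (cov_of_check cc2657 tt2657))
       (cov_of_check cc2658 tt2658))
      (cov_of_check cc2659 tt2659))
     (cov_of_check cc2660 tt2660)))
   (cov4 96
    (cov_of_check cc2661 tt2661)
    (cov1 32
     (cov1 16
      (cov0 112
       (cov5 48
        root132
        (cov_of_check cc2679 tt2679))
       (cov_of_check cc2680 tt2680))
      (cov3 80
       (cov4 112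
        (cov_of_check cc2681 tt2681)
        (cov0 112
         (cov0 104
          (cov_of_check cc2682 tt2682)
          (cov_of_check cc2683 tt2683))
         (cov_of_check cc2684 tt2684)))
       (cov4 112
        (cov_of_check cc2685 tt2685)
        (cov0 112
         (cov0 104
          (cov2 112
           (cov_of_check cc2686 tt2686)
           (cov_of_check cc2687 tt2687))
          (cov_of_check cc2688 tt2688))
         (cov_of_check cc2689 tt2689)))))
     (cov_of_check cc2690 tt2690))))

theorem root134 : Cov 64 128 0 32 96 128 96 128 96 128 0 32 :=
  (cov0 96
   (cov1 16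
    (cov5 16
     (cov_of_check cc2692 tt2692)
     (cov3 112
      (cov_of_check cc2693 tt2693)
      (cov_of_check cc2694 tt2694)))
    (cov3 112
     (cov2 112
      (cov0 80
       (cov_of_check cc2695 tt2695)
       (cov0 88
        (cov_of_check cc2696 tt2696)
        (cov_of_check cc2697 tt2697)))
      (cov_of_check cc2698 tt2698))
     (cov0 80
      (cov0 72
       (cov_of_check cc2699 tt2699)
       (cov_of_check cc2700 tt2700))
      (cov_of_check cc2701 tt2701))))
   (cov1 16
    (cov2 112
     (cov0 112
      (cov0 104
       (cov_of_check cc2702 tt2702)
       (cov_of_check cc2703 tt2703))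
      (cov_of_check cc2704 tt2704))
     (cov_of_check cc2705 tt2705))
    (cov3 112
     (cov2 112
      (cov2 104
       (cov0 112
        (cov0 104
         (cov_of_check cc2706 tt2706)
         (cov_of_check cc2707 tt2707))
        (cov_of_check cc2708 tt2708))
       (cov_of_check cc2709 tt2709))
      (cov_of_check cc2710 tt2710))
     (cov0 112
      (cov_of_check cc2711 tt2711)
      (cov_of_check cc2712 tt2712)))))

theorem root135 : Cov 64 128 0 32 96 128 96 128 96 128 32 64 :=
  (cov0 96
   (cov2 112
    (cov0 80
     (cov3 112
      (cov_of_check cc2713 tt2713)
      (cov_of_check cc2714 tt2714))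
     (cov5 48
      (cov3 112
       (cov_of_check cc2715 tt2715)
       (cov_of_check cc2716 tt2716))
      (cov_of_check cc2717 tt2717)))
    (cov_of_check cc2718 tt2718))
   (cov3 112
    (cov2 112
     (cov5 48
      (cov2 104
       (cov1 16
        (cov_of_check cc2719 tt2719)
        (cov_of_check cc2720 tt2720))
       (cov_of_check cc2721 tt2721))
      (cov_of_check cc2722 tt2722))
     (cov5 48
      (cov0 112
       (cov1 16
        (cov_of_check cc2723 tt2723)
        (cov_of_check cc2724 tt2724))
       (cov_of_check cc2725 tt2725))
      (cov_of_check cc2726 tt2726)))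
    (cov2 112
     (cov5 48
      (cov2 104
       (cov_of_check cc2727 tt2727)
       (cov_of_check cc2728 tt2728))
      (cov_of_check cc2729 tt2729))
     (cov_of_check cc2730 tt2730))))

theorem root136 : Cov 64 96 32 64 96 128 96 128 96 128 0 32 :=
  (cov3 112
   (cov2 112
    (cov2 104
     (cov1 48
      (cov0 80
       (cov_of_check cc2732 tt2732)
       (cov3 104
        (cov_of_check cc2733 tt2733)
        (cov0 88
         (cov_of_check cc2734 tt2734)
         (cov_of_check cc2735 tt2735))))
      (cov0 80
       (cov_of_check cc2736 tt2736)
       (cov3 104
        (cov_of_check cc2737 tt2737)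
        (cov1 56
         (cov0 88
          (cov_of_check cc2738 tt2738)
          (cov4 112
           (cov_of_check cc2739 tt2739)
           (cov_of_check cc2740 tt2740)))
         (cov_of_check cc2741 tt2741)))))
     (cov1 48
      (cov0 80
       (cov_of_check cc2742 tt2742)
       (cov_of_check cc2743 tt2743))
      (cov_of_check cc2744 tt2744)))
    (cov1 48
     (cov5 16
      (cov_of_check cc2745 tt2745)
      (cov_of_check cc2746 tt2746))
     (cov_of_check cc2747 tt2747)))
   (cov2 112
    (cov1 48
     (cov0 80
      (cov4 112
       (cov_of_check cc2748 tt2748)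
       (cov5 16
        (cov_of_check cc2749 tt2749)
        (cov5 24
         (cov_of_check cc2750 tt2750)
         (cov_of_check cc2751 tt2751))))
      (cov0 88
       (cov_of_check cc2752 tt2752)
       (cov_of_check cc2753 tt2753)))
     (cov_of_check cc2754 tt2754))
    (cov_of_check cc2755 tt2755)))

theorem root137 : Cov 96 128 32 64 96 128 96 128 96 128 0 32 :=
  (cov3 112
   (cov4 112
    (cov2 112
     (cov2 104
      (cov1 48
       (cov3 104
        (cov_of_check cc2756 tt2756)
        (cov0 112
         (cov_of_check cc2757 tt2757)
         (cov_of_check cc2758 tt2758)))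
       (cov_of_check cc2759 tt2759))
      (cov_of_check cc2760 tt2760))
     (cov_of_check cc2761 tt2761))
    (cov2 112
     (cov2 104
      (cov0 112
       (cov3 104
        (cov_of_check cc2762 tt2762)
        (cov1 48
         (cov_of_check cc2763 tt2763)
         (cov_of_check cc2764 tt2764)))
       (cov_of_check cc2765 tt2765))
      (cov_of_check cc2766 tt2766))
     (cov_of_check cc2767 tt2767)))
   (cov2 112
    (cov1 48
     (cov2 104
      (cov0 112
       (cov_of_check cc2768 tt2768)
       (cov_of_check cc2769 tt2769))
      (cov_of_check cc2770 tt2770))
     (cov1 56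
      (cov2 104
       (cov_of_check cc2771 tt2771)
       (cov_of_check cc2772 tt2772))
      (cov_of_check cc2773 tt2773)))
    (cov_of_check cc2774 tt2774)))

theorem root138 : Cov 96 128 32 64 96 128 112 128 96 128 32 64 :=
  (cov5 48
   (cov2 112
    (cov1 48
     (cov0 112
      (cov0 104
       (cov1 40
        (cov_of_check cc2797 tt2797)
        (cov5 40
         (cov4 112
          (cov_of_check cc2798 tt2798)
          (cov4 120
           (cov2 104
            (cov0 100
             (cov_of_check cc2799 tt2799)
             (cov_of_check cc2800 tt2800))
            (cov_of_check cc2801 tt2801))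
           (cov_of_check cc2802 tt2802)))
         (cov_of_check cc2803 tt2803)))
       (cov_of_check cc2804 tt2804))
      (cov_of_check cc2805 tt2805))
     (cov0 112
      (cov1 56
       (cov2 104
        (cov4 112
         (cov_of_check cc2806 tt2806)
         (cov2 100
          (cov_of_check cc2807 tt2807)
          (cov_of_check cc2808 tt2808)))
        (cov_of_check cc2809 tt2809))
       (cov_of_check cc2810 tt2810))
      (cov_of_check cc2811 tt2811)))
    (cov_of_check cc2812 tt2812))
   (cov_of_check cc2813 tt2813))

theorem root139 : Cov 64 128 32 64 96 128 96 128 96 128 32 64 :=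
  (cov0 96
   (cov3 112
    (cov4 112
     (cov2 112
      (cov5 48
       (cov1 48
        (cov5 40
         (cov_of_check cc2775 tt2775)
         (cov_of_check cc2776 tt2776))
        (cov_of_check cc2777 tt2777))
       (cov_of_check cc2778 tt2778))
      (cov_of_check cc2779 tt2779))
     (cov_of_check cc2780 tt2780))
    (cov5 48
     (cov2 112
      (cov1 48
       (cov0 80
        (cov_of_check cc2781 tt2781)
        (cov0 88
         (cov_of_check cc2782 tt2782)
         (cov1 40
          (cov_of_check cc2783 tt2783)
          (cov2 104
           (cov5 40
            (cov4 112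
             (cov_of_check cc2784 tt2784)
             (cov_of_check cc2785 tt2785))
            (cov_of_check cc2786 tt2786))
           (cov_of_check cc2787 tt2787)))))
       (cov_of_check cc2788 tt2788))
      (cov_of_check cc2789 tt2789))
     (cov_of_check cc2790 tt2790)))
   (cov3 112
    (cov2 112
     (cov5 48
      (cov1 48
       (cov2 104
        (cov0 112
         (cov_of_check cc2791 tt2791)
         (cov_of_check cc2792 tt2792))
        (cov_of_check cc2793 tt2793))
       (cov_of_check cc2794 tt2794))
      (cov_of_check cc2795 tt2795))
     (cov_of_check cc2796 tt2796))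
    root138))

theorem root140 : Cov 64 128 0 64 64 128 64 128 64 128 0 64 :=
  (cov2 96
   (cov5 32
    (cov3 96
     root114
     (cov4 96
      (cov_of_check cc2303 tt2303)
      (cov0 96
       root118
       root121)))
    root129)
   (cov3 96
    (cov5 32
     (cov0 96
      (cov4 96
       (cov_of_check cc2603 tt2603)
       root130)
      (cov1 32
       (cov4 96
        (cov_of_check cc2626 tt2626)
        root131)
       (cov_of_check cc2652 tt2652)))
     root133)
    (cov1 32
     (cov4 96
      (cov_of_check cc2691 tt2691)
      (cov5 32
       root134
       root135))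
     (cov4 96
      (cov_of_check cc2731 tt2731)
      (cov5 32
       (cov0 96
        root136
        root137)
       root139)))))

theorem root141 : Cov 64 96 0 64 64 96 0 64 64 128 96 128 :=
  (cov1 32
   (cov3 32
    (cov4 96
     (cov_of_check cc2823 tt2823)
     (cov5 112
      (cov3 16
       (cov_of_check cc2824 tt2824)
       (cov4 112
        (cov2 80
         (cov1 16
          (cov_of_check cc2825 tt2825)
          (cov0 80
           (cov_of_check cc2826 tt2826)
           (cov_of_check cc2827 tt2827)))
         (cov_of_check cc2828 tt2828))
        (cov_of_check cc2829 tt2829)))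
      (cov_of_check cc2830 tt2830)))
    (cov4 96
     (cov_of_check cc2831 tt2831)
     (cov4 112
      (cov1 16
       (cov_of_check cc2832 tt2832)
       (cov3 48
        (cov2 80
         (cov5 112
          (cov_of_check cc2833 tt2833)
          (cov_of_check cc2834 tt2834))
         (cov_of_check cc2835 tt2835))
        (cov_of_check cc2836 tt2836)))
      (cov_of_check cc2837 tt2837))))
   (cov3 32
    (cov4 96
     (cov_of_check cc2838 tt2838)
     (cov0 80
      (cov0 72
       (cov2 80
        (cov_of_check cc2839 tt2839)
        (cov_of_check cc2840 tt2840))
       (cov_of_check cc2841 tt2841))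
      (cov_of_check cc2842 tt2842)))
    (cov_of_check cc2843 tt2843)))

theorem root142 : Cov 64 128 0 64 64 128 0 64 64 128 64 128 :=
  (cov5 96
   (cov0 96
    (cov2 96
     (cov4 96
      (cov_of_check cc2814 tt2814)
      (cov3 32
       (cov1 32
        (cov1 16
         (cov_of_check cc2815 tt2815)
         (cov3 16
          (cov_of_check cc2816 tt2816)
          (cov_of_check cc2817 tt2817)))
        (cov_of_check cc2818 tt2818))
       (cov_of_check cc2819 tt2819)))
     (cov3 32
      (cov_of_check cc2820 tt2820)
      (cov_of_check cc2821 tt2821)))
    (cov_of_check cc2822 tt2822))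
   (cov0 96
    (cov2 96
     root141
     (cov3 32
      (cov4 96
       (cov_of_check cc2844 tt2844)
       (cov1 32
        (cov0 80
         (cov0 72
          (cov5 112
           (cov_of_check cc2845 tt2845)
           (cov_of_check cc2846 tt2846))
          (cov_of_check cc2847 tt2847))
         (cov_of_check cc2848 tt2848))
        (cov_of_check cc2849 tt2849)))
      (cov_of_check cc2850 tt2850)))
    (cov2 96
     (cov_of_check cc2851 tt2851)
     (cov_of_check cc2852 tt2852))))

theorem root143 : Cov 0 128 0 64 64 128 0 128 64 128 0 128 :=
  (cov0 64
   (cov3 64
    root81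
    (cov5 64
     (cov1 32
      root96
      (cov2 96
       root101
       root110))
     (cov0 32
      (cov3 96
       root111
       (cov_of_check cc2232 tt2232))
      (cov2 96
       (cov_of_check cc2233 tt2233)
       (cov1 32
        (cov3 96
         (cov4 96
          (cov_of_check cc2234 tt2234)
          (cov5 96
           (cov4 112
            (cov_of_check cc2235 tt2235)
            (cov_of_check cc2236 tt2236))
           (cov_of_check cc2237 tt2237)))
         (cov_of_check cc2238 tt2238))
        (cov_of_check cc2239 tt2239))))))
   (cov5 64
    (cov3 64
     (cov3 32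
      (cov_of_check cc2240 tt2240)
      (cov2 96
       (cov_of_check cc2241 tt2241)
       (cov0 96
        (cov4 96
         (cov_of_check cc2242 tt2242)
         (cov5 32
          (cov1 32
           (cov0 80
            (cov_of_check cc2243 tt2243)
            (cov_of_check cc2244 tt2244))
           (cov_of_check cc2245 tt2245))
          (cov_of_check cc2246 tt2246)))
        (cov_of_check cc2247 tt2247))))
     root140)
    (cov3 64
     root142
     (cov1 32
      (cov5 96
       (cov0 96
        (cov_of_check cc2853 tt2853)
        (cov_of_check cc2854 tt2854))
       (cov_of_check cc2855 tt2855))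
      (cov_of_check cc2856 tt2856)))))

theorem root144 : Cov 0 32 64 96 64 128 0 32 96 128 64 96 :=
  (cov2 96
   (cov4 112
    (cov0 16
     (cov_of_check cc2866 tt2866)
     (cov1 80
      (cov5 80
       (cov_of_check cc2867 tt2867)
       (cov4 104
        (cov_of_check cc2868 tt2868)
        (cov_of_check cc2869 tt2869)))
      (cov_of_check cc2870 tt2870)))
    (cov1 80
     (cov3 16
      (cov_of_check cc2871 tt2871)
      (cov_of_check cc2872 tt2872))
     (cov2 80
      (cov_of_check cc2873 tt2873)
      (cov2 88
       (cov_of_check cc2874 tt2874)
       (cov_of_check cc2875 tt2875)))))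
   (cov2 112
    (cov3 16
     (cov4 112
      (cov_of_check cc2876 tt2876)
      (cov0 16
       (cov_of_check cc2877 tt2877)
       (cov_of_check cc2878 tt2878)))
     (cov4 112
      (cov3 24
       (cov1 80
        (cov_of_check cc2879 tt2879)
        (cov_of_check cc2880 tt2880))
       (cov0 16
        (cov_of_check cc2881 tt2881)
        (cov_of_check cc2882 tt2882)))
      (cov2 104
       (cov_of_check cc2883 tt2883)
       (cov_of_check cc2884 tt2884))))
    (cov_of_check cc2885 tt2885)))

theorem root145 : Cov 0 32 96 128 96 128 0 32 96 128 64 96 :=
  (cov0 16
   (cov1 112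
    (cov5 80
     (cov_of_check cc2894 tt2894)
     (cov1 104
      (cov_of_check cc2895 tt2895)
      (cov4 112
       (cov_of_check cc2896 tt2896)
       (cov_of_check cc2897 tt2897))))
    (cov_of_check cc2898 tt2898))
   (cov1 112
    (cov1 104
     (cov4 112
      (cov5 80
       (cov_of_check cc2899 tt2899)
       (cov_of_check cc2900 tt2900))
      (cov5 80
       (cov_of_check cc2901 tt2901)
       (cov4 120
        (cov0 24
         (cov5 88
          (cov_of_check cc2902 tt2902)
          (cov3 16
           (cov_of_check cc2903 tt2903)
           (cov_of_check cc2904 tt2904)))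
         (cov_of_check cc2905 tt2905))
        (cov0 24
         (cov3 16
          (cov_of_check cc2906 tt2906)
          (cov3 24
           (cov_of_check cc2907 tt2907)
           (cov_of_check cc2908 tt2908)))
         (cov_of_check cc2909 tt2909)))))
     (cov_of_check cc2910 tt2910))
    (cov_of_check cc2911 tt2911)))

theorem root146 : Cov 32 64 64 96 96 128 0 32 96 128 64 96 :=
  (cov2 112
   (cov4 112
    (cov0 48
     (cov3 16
      (cov_of_check cc2917 tt2917)
      (cov3 24
       (cov_of_check cc2918 tt2918)
       (cov_of_check cc2919 tt2919)))
     (cov_of_check cc2920 tt2920))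
    (cov0 48
     (cov3 16
      (cov_of_check cc2921 tt2921)
      (cov5 80
       (cov_of_check cc2922 tt2922)
       (cov5 88
        (cov_of_check cc2923 tt2923)
        (cov4 120
         (cov2 104
          (cov_of_check cc2924 tt2924)
          (cov_of_check cc2925 tt2925))
         (cov_of_check cc2926 tt2926)))))
     (cov_of_check cc2927 tt2927)))
   (cov2 120
    (cov3 16
     (cov_of_check cc2928 tt2928)
     (cov0 48
      (cov5 80
       (cov_of_check cc2929 tt2929)
       (cov5 88
        (cov_of_check cc2930 tt2930)
        (cov_of_check cc2931 tt2931)))
      (cov_of_check cc2932 tt2932)))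
    (cov_of_check cc2933 tt2933)))

theorem root147 : Cov 0 64 64 128 64 128 0 32 96 128 64 96 :=
  (cov0 32
   (cov1 96
    root144
    (cov2 96
     (cov0 16
      (cov2 80
       (cov_of_check cc2886 tt2886)
       (cov1 112
        (cov5 80
         (cov_of_check cc2887 tt2887)
         (cov4 112
          (cov_of_check cc2888 tt2888)
          (cov_of_check cc2889 tt2889)))
        (cov_of_check cc2890 tt2890)))
      (cov3 16
       (cov_of_check cc2891 tt2891)
       (cov1 112
        (cov_of_check cc2892 tt2892)
        (cov_of_check cc2893 tt2893))))
     root145))
   (cov1 96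
    (cov2 96
     (cov0 48
      (cov1 80
       (cov2 80
        (cov_of_check cc2912 tt2912)
        (cov4 112
         (cov_of_check cc2913 tt2913)
         (cov_of_check cc2914 tt2914)))
       (cov_of_check cc2915 tt2915))
      (cov_of_check cc2916 tt2916))
     root146)
    (cov_of_check cc2934 tt2934)))

theorem root148 : Cov 0 64 64 128 64 128 32 64 96 128 64 96 :=
  (cov0 32
   (cov1 96
    (cov2 96
     (cov_of_check cc2935 tt2935)
     (cov4 112
      (cov0 16
       (cov_of_check cc2936 tt2936)
       (cov_of_check cc2937 tt2937))
      (cov_of_check cc2938 tt2938)))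
    (cov2 96
     (cov_of_check cc2939 tt2939)
     (cov0 16
      (cov2 112
       (cov_of_check cc2940 tt2940)
       (cov1 112
        (cov5 80
         (cov_of_check cc2941 tt2941)
         (cov_of_check cc2942 tt2942))
        (cov_of_check cc2943 tt2943)))
      (cov2 112
       (cov_of_check cc2944 tt2944)
       (cov5 80
        (cov_of_check cc2945 tt2945)
        (cov1 112
         (cov1 104
          (cov4 112
           (cov_of_check cc2946 tt2946)
           (cov_of_check cc2947 tt2947))
          (cov_of_check cc2948 tt2948))
         (cov_of_check cc2949 tt2949)))))))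
   (cov2 96
    (cov_of_check cc2950 tt2950)
    (cov1 96
     (cov_of_check cc2951 tt2951)
     (cov_of_check cc2952 tt2952))))

theorem root149 : Cov 16 32 64 80 64 96 0 32 96 128 96 128 :=
  (cov1 72
   (cov4 112
    (cov5 112
     (cov0 24
      (cov_of_check cc2965 tt2965)
      (cov2 80
       (cov_of_check cc2966 tt2966)
       (cov3 16
        (cov_of_check cc2967 tt2967)
        (cov0 28
         (cov_of_check cc2968 tt2968)
         (cov1 68
          (cov_of_check cc2969 tt2969)
          (cov4 104
           (cov_of_check cc2970 tt2970)
           (cov5 104
            (cov_of_check cc2971 tt2971)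
            (cov_of_check cc2972 tt2972))))))))
     (cov_of_check cc2973 tt2973))
    (cov5 112
     (cov3 16
      (cov_of_check cc2974 tt2974)
      (cov3 24
       (cov_of_check cc2975 tt2975)
       (cov_of_check cc2976 tt2976)))
     (cov_of_check cc2977 tt2977)))
   (cov2 80
    (cov_of_check cc2978 tt2978)
    (cov3 16
     (cov_of_check cc2979 tt2979)
     (cov3 24
      (cov2 88
       (cov_of_check cc2980 tt2980)
       (cov0 24
        (cov_of_check cc2981 tt2981)
        (cov4 112
         (cov_of_check cc2982 tt2982)
         (cov_of_check cc2983 tt2983))))
      (cov_of_check cc2984 tt2984)))))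

theorem root150 : Cov 0 32 64 128 64 96 0 32 96 128 96 128 :=
  (cov1 96
   (cov0 16
    (cov2 80
     (cov_of_check cc2954 tt2954)
     (cov1 80
      (cov_of_check cc2955 tt2955)
      (cov2 88
       (cov1 88
        (cov_of_check cc2956 tt2956)
        (cov0 8
         (cov_of_check cc2957 tt2957)
         (cov_of_check cc2958 tt2958)))
       (cov4 112
        (cov_of_check cc2959 tt2959)
        (cov5 112
         (cov3 16
          (cov5 104
           (cov1 88
            (cov_of_check cc2960 tt2960)
            (cov_of_check cc2961 tt2961))
           (cov_of_check cc2962 tt2962))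
          (cov_of_check cc2963 tt2963))
         (cov_of_check cc2964 tt2964))))))
    (cov1 80
     root149
     (cov1 88
      (cov5 112
       (cov_of_check cc2985 tt2985)
       (cov_of_check cc2986 tt2986))
      (cov5 112
       (cov_of_check cc2987 tt2987)
       (cov_of_check cc2988 tt2988)))))
   (cov0 16
    (cov1 112
     (cov2 80
      (cov_of_check cc2989 tt2989)
      (cov1 104
       (cov_of_check cc2990 tt2990)
       (cov_of_check cc2991 tt2991)))
     (cov_of_check cc2992 tt2992))
    (cov3 16
     (cov_of_check cc2993 tt2993)
     (cov1 112
      (cov2 80
       (cov_of_check cc2994 tt2994)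
       (cov1 104
        (cov3 24
         (cov_of_check cc2995 tt2995)
         (cov_of_check cc2996 tt2996))
        (cov_of_check cc2997 tt2997)))
      (cov_of_check cc2998 tt2998)))))

theorem root151 : Cov 32 64 64 96 64 96 0 32 64 128 96 128 :=
  (cov4 96
   (cov_of_check cc2999 tt2999)
   (cov1 80
    (cov0 48
     (cov2 80
      (cov_of_check cc3000 tt3000)
      (cov3 16
       (cov_of_check cc3001 tt3001)
       (cov3 24
        (cov0 40
         (cov1 72
          (cov2 88
           (cov_of_check cc3002 tt3002)
           (cov_of_check cc3003 tt3003))
          (cov2 88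
           (cov_of_check cc3004 tt3004)
           (cov_of_check cc3005 tt3005)))
         (cov_of_check cc3006 tt3006))
        (cov2 88
         (cov_of_check cc3007 tt3007)
         (cov_of_check cc3008 tt3008)))))
     (cov_of_check cc3009 tt3009))
    (cov5 112
     (cov2 80
      (cov_of_check cc3010 tt3010)
      (cov2 88
       (cov_of_check cc3011 tt3011)
       (cov_of_check cc3012 tt3012)))
     (cov2 80
      (cov_of_check cc3013 tt3013)
      (cov0 48
       (cov_of_check cc3014 tt3014)
       (cov_of_check cc3015 tt3015))))))

theorem root152 : Cov 0 32 64 128 96 128 0 32 96 128 96 128 :=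
  (cov1 96
   (cov3 16
    (cov1 80
     (cov_of_check cc3027 tt3027)
     (cov4 112
      (cov_of_check cc3028 tt3028)
      (cov5 112
       (cov0 16
        (cov5 104
         (cov2 112
          (cov5 100
           (cov_of_check cc3029 tt3029)
           (cov_of_check cc3030 tt3030))
          (cov_of_check cc3031 tt3031))
         (cov_of_check cc3032 tt3032))
        (cov_of_check cc3033 tt3033))
       (cov_of_check cc3034 tt3034))))
    (cov0 16
     (cov_of_check cc3035 tt3035)
     (cov0 24
      (cov_of_check cc3036 tt3036)
      (cov5 112
       (cov4 112
        (cov1 80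
         (cov_of_check cc3037 tt3037)
         (cov_of_check cc3038 tt3038))
        (cov1 80
         (cov_of_check cc3039 tt3039)
         (cov_of_check cc3040 tt3040)))
       (cov_of_check cc3041 tt3041)))))
   (cov0 16
    (cov4 112
     (cov_of_check cc3042 tt3042)
     (cov1 112
      (cov5 112
       (cov1 104
        (cov_of_check cc3043 tt3043)
        (cov_of_check cc3044 tt3044))
       (cov_of_check cc3045 tt3045))
      (cov_of_check cc3046 tt3046)))
    (cov5 112
     (cov4 112
      (cov4 104
       (cov_of_check cc3047 tt3047)
       (cov_of_check cc3048 tt3048))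
      (cov1 112
       (cov1 104
        (cov0 24
         (cov5 104
          (cov2 112
           (cov3 16
            (cov_of_check cc3049 tt3049)
            (cov0 20
             (cov_of_check cc3050 tt3050)
             (cov_of_check cc3051 tt3051)))
           (cov_of_check cc3052 tt3052))
          (cov_of_check cc3053 tt3053))
         (cov_of_check cc3054 tt3054))
        (cov_of_check cc3055 tt3055))
       (cov_of_check cc3056 tt3056)))
     (cov_of_check cc3057 tt3057))))

theorem root153 : Cov 32 64 64 96 96 128 0 32 96 128 96 128 :=
  (cov5 112
   (cov4 112
    (cov4 104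
     (cov_of_check cc3058 tt3058)
     (cov0 48
      (cov1 80
       (cov2 112
        (cov2 104
         (cov_of_check cc3059 tt3059)
         (cov_of_check cc3060 tt3060))
        (cov_of_check cc3061 tt3061))
       (cov_of_check cc3062 tt3062))
      (cov_of_check cc3063 tt3063)))
    (cov0 48
     (cov3 16
      (cov_of_check cc3064 tt3064)
      (cov1 80
       (cov4 120
        (cov5 104
         (cov2 112
          (cov3 24
           (cov2 104
            (cov0 40
             (cov_of_check cc3065 tt3065)
             (cov_of_check cc3066 tt3066))
            (cov_of_check cc3067 tt3067))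
           (cov_of_check cc3068 tt3068))
          (cov_of_check cc3069 tt3069))
         (cov_of_check cc3070 tt3070))
        (cov_of_check cc3071 tt3071))
       (cov_of_check cc3072 tt3072)))
     (cov_of_check cc3073 tt3073)))
   (cov_of_check cc3074 tt3074))

theorem root154 : Cov 0 64 64 128 96 128 32 64 96 128 96 128 :=
  (cov1 96
   (cov0 32
    (cov5 112
     (cov1 80
      (cov2 112
       (cov_of_check cc3077 tt3077)
       (cov_of_check cc3078 tt3078))
      (cov_of_check cc3079 tt3079))
     (cov4 112
      (cov_of_check cc3080 tt3080)
      (cov_of_check cc3081 tt3081)))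
    (cov5 112
     (cov2 112
      (cov0 48
       (cov4 112
        (cov_of_check cc3082 tt3082)
        (cov_of_check cc3083 tt3083))
       (cov_of_check cc3084 tt3084))
      (cov_of_check cc3085 tt3085))
     (cov3 48
      (cov4 112
       (cov_of_check cc3086 tt3086)
       (cov_of_check cc3087 tt3087))
      (cov_of_check cc3088 tt3088))))
   (cov0 32
    (cov5 112
     (cov2 112
      (cov4 112
       (cov_of_check cc3089 tt3089)
       (cov_of_check cc3090 tt3090))
      (cov4 112
       (cov_of_check cc3091 tt3091)
       (cov1 112
        (cov5 104
         (cov3 48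
          (cov1 104
           (cov_of_check cc3092 tt3092)
           (cov_of_check cc3093 tt3093))
          (cov_of_check cc3094 tt3094))
         (cov_of_check cc3095 tt3095))
        (cov_of_check cc3096 tt3096))))
     (cov_of_check cc3097 tt3097))
    (cov5 112
     (cov_of_check cc3098 tt3098)
     (cov_of_check cc3099 tt3099))))

theorem root155 : Cov 0 64 64 128 64 128 0 64 64 128 96 128 :=
  (cov2 96
   (cov3 32
    (cov0 32
     (cov4 96
      (cov_of_check cc2953 tt2953)
      root150)
     (cov1 96
      root151
      (cov4 96
       (cov_of_check cc3016 tt3016)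
       (cov4 112
        (cov0 48
         (cov_of_check cc3017 tt3017)
         (cov_of_check cc3018 tt3018))
        (cov_of_check cc3019 tt3019)))))
    (cov1 96
     (cov0 32
      (cov4 96
       (cov_of_check cc3020 tt3020)
       (cov0 16
        (cov_of_check cc3021 tt3021)
        (cov1 80
         (cov_of_check cc3022 tt3022)
         (cov_of_check cc3023 tt3023))))
      (cov_of_check cc3024 tt3024))
     (cov_of_check cc3025 tt3025)))
   (cov4 96
    (cov_of_check cc3026 tt3026)
    (cov3 32
     (cov0 32
      root152
      (cov1 96
       root153
       (cov5 112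
        (cov_of_check cc3075 tt3075)
        (cov_of_check cc3076 tt3076))))
     root154)))

theorem root156 : Cov 0 64 64 128 64 128 0 128 64 128 0 128 :=
  (cov3 64
   (cov5 64
    (cov5 32
     (cov_of_check cc2857 tt2857)
     (cov1 96
      (cov2 96
       (cov_of_check cc2858 tt2858)
       (cov3 32
        (cov4 96
         (cov_of_check cc2859 tt2859)
         (cov0 32
          (cov0 16
           (cov_of_check cc2860 tt2860)
           (cov_of_check cc2861 tt2861))
          (cov_of_check cc2862 tt2862)))
        (cov_of_check cc2863 tt2863)))
      (cov_of_check cc2864 tt2864)))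
    (cov5 96
     (cov4 96
      (cov_of_check cc2865 tt2865)
      (cov3 32
       root147
       root148))
     root155))
   (cov5 64
    (cov2 96
     (cov_of_check cc3100 tt3100)
     (cov3 96
      (cov_of_check cc3101 tt3101)
      (cov5 32
       (cov_of_check cc3102 tt3102)
       (cov_of_check cc3103 tt3103))))
    (cov_of_check cc3104 tt3104)))

theorem root157 : Cov 64 128 64 128 64 128 0 128 64 128 0 128 :=
  (cov3 64
   (cov5 64
    (cov3 32
     (cov4 96
      (cov_of_check cc3105 tt3105)
      (cov5 32
       (cov0 96
        (cov_of_check cc3106 tt3106)
        (cov_of_check cc3107 tt3107))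
       (cov_of_check cc3108 tt3108)))
     (cov_of_check cc3109 tt3109))
    (cov_of_check cc3110 tt3110))
   (cov5 64
    (cov1 96
     (cov2 96
      (cov3 96
       (cov_of_check cc3111 tt3111)
       (cov0 96
        (cov_of_check cc3112 tt3112)
        (cov4 96
         (cov_of_check cc3113 tt3113)
         (cov5 32
          (cov3 112
           (cov1 80
            (cov4 112
             (cov_of_check cc3114 tt3114)
             (cov5 16
              (cov_of_check cc3115 tt3115)
              (cov_of_check cc3116 tt3116)))
            (cov_of_check cc3117 tt3117))
           (cov_of_check cc3118 tt3118))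
          (cov_of_check cc3119 tt3119)))))
      (cov_of_check cc3120 tt3120))
     (cov_of_check cc3121 tt3121))
    (cov_of_check cc3122 tt3122)))

theorem root158 : Cov 0 128 0 128 64 128 0 128 64 128 0 128 :=
  (cov1 64
   root143
   (cov0 64
    root156
    root157))

theorem root_cov : Cov 0 128 0 128 64 128 0 128 64 128 0 128 := root158

end Pool.Agent.Lib.MP_ddd95a_nt.Sec
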