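import Pool.Agent.Lib.MP_ddd95a_nt.Sec.Cube9
import Pool.Agent.Lib.MP_ddd95a_nt.Sec.Fam7
import Pool.Agent.Lib.MP_ddd95a_nt.Sec.Root
import Pool.Agent.Lib.MP_ddd95a_nt.Final

set_option autoImplicit false

/-!
# The two smallest values

Every lattice is good for `kT`, or equivalent to the heptagonal lattice, or equivalent to the
nonagonal lattice.
-/

namespace Pool.Agent.Lib.MP_ddd95a_nt.Sec

open Pool.Agent.Lib.MP_ddd95a_nt Pool.Agent.Lib.MP_ddd95a_nt.Iso

open scoped BigOperators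

/-- **Trichotomy.** -/
theorem trichotomy (V : Matrix (Fin 3) (Fin 3) ℝ) (hV : V.det ≠ 0) :
    Good kT V ∨ Eqv V (Vs w7 v7) ∨ Eqv V (Vs w9 v9) := by
  rcases good_or_nrm (κ := kT) (by norm_num [kT]) exists_touching V hV with h | ⟨W, hW, hVW⟩
  · exact Or.inl h
  obtain ⟨W2, e2, n2, h01, h02, hs⟩ := exists_sorted W hW
  have hVW2 : Eqv V W2 := hVW.trans e2
  have hle := fun i j => abs_le.1 (n2.le_one i j)
  have hcell : InCell W2 0 128 0 128 64 128 0 128 64 128 0 128 := by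
    refine ⟨?_, ?_, ?_, ?_, ?_, ?_, ?_, ?_, ?_, ?_, ?_, ?_⟩ <;> norm_num <;>
    linarith [(hle 1 0).1, (hle 1 0).2, (hle 2 0).1, (hle 2 0).2, (hle 0 1).2, (hle 2 1).1,
      (hle 2 1).2, (hle 0 2).2, (hle 1 2).1, (hle 1 2).2]
  rcases root_cov W2 n2 hs hcell with hg | h | h | h | h
  · exact Or.inl (hVW2.good hg)
  · rcases (fam7 root_cov).main n2 h with h' | h'
    · right; left
      rw [← h']
      exact hVW2
    · exact Or.inl (hVW2.good h')
  · rcases (fam9 root_cov).main n2 h with h' | h'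
    · right; right
      rw [← h']
      exact hVW2
    · exact Or.inl (hVW2.good h')
  · rcases caseB root_cov n2 h with h' | h'
    · right; right
      exact hVW2.trans h'
    · exact Or.inl (hVW2.good h')
  · rcases caseC root_cov n2 h with h' | h'
    · right; right
      exact hVW2.trans h'
    · exact Or.inl (hVW2.good h')

/-- From open boxes of larger volume to closed boxes of given volume. -/
lemma closed_of_good {A : Matrix (Fin 3) (Fin 3) ℝ} (hA : A.det = 1) {κ κ' : ℝ} (h0 : 0 < κ)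
    (h1 : κ < κ') (hg : Good κ' A.transpose) :
    ∃ τ : Fin 3 → ℝ, (∀ i, 0 < τ i) ∧ ∏ i, τ i = κ ∧
      ∀ u : Fin 3 → ℤ, (∀ i, |∑ j, A i j * (u j : ℝ)| ≤ τ i) → u = 0 := by
  have hdet : A.transpose.det = 1 := by rw [Matrix.det_transpose, hA]
  obtain ⟨T, hT, hE, hp⟩ := hg
  rw [hdet, abs_one, mul_one] at hp
  set P : ℝ := ∏ j, T j with hP
  have hP0 : 0 < P := Finset.prod_pos fun j _ => hT j
  have hx0 : 0 < κ / P := div_pos h0 hP0
  have hx1 : κ / P < 1 := by
    rw [div_lt_one hP0]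
    linarith
  set r : ℝ := (κ / P) ^ ((1 : ℝ) / 3) with hr
  have hr0 : 0 < r := Real.rpow_pos_of_pos hx0 _
  have hr3 : r ^ 3 = κ / P := by
    rw [hr, ← Real.rpow_natCast, ← Real.rpow_mul hx0.le]
    norm_num
  have hr1 : r < 1 := Real.rpow_lt_one hx0.le hx1 (by norm_num)
  refine ⟨fun i => r * T i, fun i => mul_pos hr0 (hT i), ?_, ?_⟩
  · rw [Finset.prod_mul_distrib, Finset.prod_const, Finset.card_univ, Fintype.card_fin, hr3, ← hP]
    field_simp
  · intro u hu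
    by_contra hne
    obtain ⟨j, hj⟩ := hE u hne
    have h2 := hu j
    have e : crd A.transpose u j = ∑ k, A j k * (u k : ℝ) := by
      unfold crd
      apply Finset.sum_congr rfl
      intro k _
      rw [Matrix.transpose_apply]
      ring
    rw [e] at hj
    have h3 : r * T j < T j := by
      have := hT j
      nlinarith
    linarith

/-- The system of linear forms `l_i(u) = u_0 + u_1 ρ_i + u_2 ρ_i ^ 2`. -/
def pw (ρ : Fin 3 → ℝ) : Matrix (Fin 3) (Fin 3) ℝ := Matrix.of fun i j => ρ i ^ (j : ℕ)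

/-- A system whose lattice is equivalent to a normal form of `pw ρ` is equivalent to `pw ρ`. -/
lemma equiv_of_eqv {ρ : Fin 3 → ℝ} {Z : Matrix (Fin 3) (Fin 3) ℝ} {N : Matrix (Fin 3) (Fin 3) ℤ}
    {κ : Equiv.Perm (Fin 3)} (hN : IsUnit N.det)
    (hZ : ∀ k l, Z k l = Z 0 l * ∑ m, pw ρ (κ l) m * (N k m : ℝ)) (h0 : ∀ l, Z 0 l ≠ 0)
    {A : Matrix (Fin 3) (Fin 3) ℝ} (h : Eqv A.transpose Z) :
    ∃ (s : Fin 3 → ℝ) (σ : Equiv.Perm (Fin 3)) (U : Matrix (Fin 3) (Fin 3) ℤ),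
      (∀ i, s i ≠ 0) ∧ IsUnit U.det ∧ ∀ i j, A i j = s i * ∑ k, pw ρ (σ i) k * (U k j : ℝ) := by
  obtain ⟨M, π, s, hM, hs, h⟩ := h.symm
  refine ⟨fun i => s i * Z 0 (π i), π.trans κ, (M * N).transpose,
    fun i => mul_ne_zero (hs i) (h0 _), ?_, fun i j => ?_⟩
  · rw [Matrix.det_transpose, Matrix.det_mul]
    exact hM.mul hN
  · have e := h j i
    rw [Matrix.transpose_apply] at e
    rw [e]
    have h0 := hZ 0 (π i)
    have h1 := hZ 1 (π i)
    have h2 := hZ 2 (π i)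
    unfold crd
    simp only [Fin.sum_univ_three, Matrix.transpose_apply, Matrix.mul_apply,
      Equiv.trans_apply] at h0 h1 h2 ⊢
    push_cast
    linear_combination s i * ((M j 0 : ℝ) * h0 + (M j 1 : ℝ) * h1 + (M j 2 : ℝ) * h2)

/-- The converse. -/
lemma eqv_of_equiv {ρ : Fin 3 → ℝ} {Z : Matrix (Fin 3) (Fin 3) ℝ} {N : Matrix (Fin 3) (Fin 3) ℤ}
    {κ : Equiv.Perm (Fin 3)} (hN : IsUnit N.det)
    (hZ : ∀ k l, Z k l = Z 0 l * ∑ m, pw ρ (κ l) m * (N k m : ℝ)) (h0 : ∀ l, Z 0 l ≠ 0)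
    {A : Matrix (Fin 3) (Fin 3) ℝ} {s : Fin 3 → ℝ} {σ : Equiv.Perm (Fin 3)}
    {U : Matrix (Fin 3) (Fin 3) ℤ} (hs : ∀ i, s i ≠ 0) (hU : IsUnit U.det)
    (h : ∀ i j, A i j = s i * ∑ k, pw ρ (σ i) k * (U k j : ℝ)) : Eqv A.transpose Z := by
  have e1 : Eqv (pw ρ).transpose Z := by
    refine ⟨N, κ, fun l => Z 0 l, hN, h0, fun k l => ?_⟩
    rw [hZ k l]
    congr 1
    unfold crd
    refine Finset.sum_congr rfl fun m _ => ?_
    rw [Matrix.transpose_apply]
    ring
  have e2 : Eqv (pw ρ).transpose A.transpose := by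
    refine ⟨U.transpose, σ, s, by rwa [Matrix.det_transpose], hs, fun i j => ?_⟩
    rw [Matrix.transpose_apply, h]
    congr 1
    unfold crd
    refine Finset.sum_congr rfl fun m _ => ?_
    rw [Matrix.transpose_apply, Matrix.transpose_apply]
    ring
  exact e2.symm.trans e1

lemma det_pw (ρ : Fin 3 → ℝ) :
    (pw ρ).det = (ρ 1 - ρ 0) * (ρ 2 - ρ 0) * (ρ 2 - ρ 1) := by
  rw [Matrix.det_fin_three]
  simp only [pw, Matrix.of_apply, Fin.val_zero, Fin.val_one, Fin.val_two]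
  ring

/-- The boxes of a system equivalent to `pw ρ` have small volume. -/
lemma small_of_core {ρ : Fin 3 → ℝ} {D m : ℝ} (hdet : |(pw ρ).det| = D)
    (hcore : ∀ t : Fin 3 → ℝ, (∀ i, 0 < t i) →
      (∀ u : Fin 3 → ℤ, (∀ i, |(u 0 : ℝ) + u 1 * ρ i + u 2 * ρ i ^ 2| ≤ t i) → u = 0) →
      t 0 * t 1 * t 2 < m)
    {A : Matrix (Fin 3) (Fin 3) ℝ} (hA : A.det = 1) {s : Fin 3 → ℝ}
    {σ : Equiv.Perm (Fin 3)} {U : Matrix (Fin 3) (Fin 3) ℤ} (hs : ∀ i, s i ≠ 0)
    (hU : IsUnit U.det) (h : ∀ i j, A i j = s i * ∑ k, pw ρ (σ i) k * (U k j : ℝ))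
    {τ : Fin 3 → ℝ} (hτ : ∀ i, 0 < τ i)
    (he : ∀ u : Fin 3 → ℤ, (∀ i, |∑ j, A i j * (u j : ℝ)| ≤ τ i) → u = 0) :
    D * ∏ i, τ i < m := by
  have hs' : ∀ i, 0 < |s i| := fun i => abs_pos.2 (hs i)
  -- the product of the scaling factors
  have hprod : (∏ i, |s i|) * D = 1 := by
    have e : A = Matrix.of fun i j =>
        s i * (((pw ρ).submatrix σ id) * U.map (Int.cast : ℤ → ℝ)) i j := by
      ext i j
      rw [h, Matrix.of_apply, Matrix.mul_apply]
      rfl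
    have h2 := Matrix.det_mul_column s (((pw ρ).submatrix σ id) * U.map (Int.cast : ℤ → ℝ))
    have h3 : (U.map (Int.cast : ℤ → ℝ)).det = (U.det : ℝ) := by
      have := (Int.castRingHom ℝ).map_det U
      simpa using this.symm
    have h4 : ((pw ρ).submatrix σ id).det = Equiv.Perm.sign σ * (pw ρ).det :=
      Matrix.det_permute σ (pw ρ)
    have h6 : |A.det| = 1 := by rw [hA, abs_one]
    rw [e, h2, Matrix.det_mul, h3, h4, abs_mul, abs_mul, abs_mul, hdet, abs_isUnit hU,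
      abs_isUnit (Equiv.Perm.sign σ).isUnit, Finset.abs_prod] at h6
    linarith
  have hc := hcore (fun k => τ (σ.symm k) / |s (σ.symm k)|)
    (fun k => div_pos (hτ _) (hs' _)) (by
    intro w hw
    have hU' : U.mulVec (U⁻¹.mulVec w) = w := by
      rw [Matrix.mulVec_mulVec, Matrix.mul_nonsing_inv U hU, Matrix.one_mulVec]
    have h0 : U⁻¹.mulVec w = 0 := by
      apply he
      intro i
      have hi := hw (σ i)
      simp only [Equiv.symm_apply_apply] at hi
      have e1 : ∑ j, A i j * ((U⁻¹.mulVec w) j : ℝ) =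
          s i * ((w 0 : ℝ) + w 1 * ρ (σ i) + w 2 * ρ (σ i) ^ 2) := by
        conv_rhs => rw [← hU']
        unfold Matrix.mulVec dotProduct
        simp only [h, Fin.sum_univ_three, pw, Matrix.of_apply, Fin.val_zero, Fin.val_one,
          Fin.val_two]
        push_cast
        ring
      rw [e1, abs_mul]
      rw [le_div_iff₀ (hs' i)] at hi
      linarith
    rw [← hU', h0, Matrix.mulVec_zero])
  have e2 : (τ (σ.symm 0) / |s (σ.symm 0)|) * (τ (σ.symm 1) / |s (σ.symm 1)|) *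
      (τ (σ.symm 2) / |s (σ.symm 2)|) = (∏ i, τ i) / ∏ i, |s i| := by
    rw [← Finset.prod_div_distrib, ← Equiv.prod_comp σ.symm (fun j => τ j / |s j|),
      Fin.prod_univ_three]
  have e3 : (∏ i, τ i) / ∏ i, |s i| = D * ∏ i, τ i := by
    rw [div_eq_iff (Finset.prod_pos fun j _ => hs' j).ne']
    linear_combination -(∏ i, τ i) * hprod
  rw [← e3, ← e2]
  exact hc

/-! ### The heptagonal system -/

/-- The basis of `Vs w7 v7` in terms of `1, ρ, ρ²`. -/
def N7 : Matrix (Fin 3) (Fin 3) ℤ := !![1, 0, 0; 2, -1, -1; -2, 0, 1]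

lemma N7_unit : IsUnit N7.det := by
  have : N7.det = -1 := by decide
  rw [this]
  decide

lemma V7_N7 (k l : Fin 3) :
    Vs w7 v7 k l = Vs w7 v7 0 l * ∑ m, pw Upper.rho ((1 : Equiv.Perm (Fin 3)) l) m * (N7 k m : ℝ) := by
  have h := Upper.c_root
  rw [Equiv.Perm.one_apply]
  unfold Vs w7 v7 pw N7 Upper.rho
  generalize Upper.c = c at *
  fin_cases k <;> fin_cases l <;>
    simp only [Fin.sum_univ_three, Matrix.of_apply, Matrix.cons_val',
      Matrix.cons_val_zero, Matrix.cons_val_one, Matrix.cons_val, Matrix.cons_val_fin_one,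
      Fin.zero_eta, Fin.mk_one, Fin.reduceFinMk, Fin.isValue, Int.cast_zero,
      Int.cast_one, Int.cast_neg, Fin.val_zero, Fin.val_one, Fin.val_two, Int.cast_ofNat]
  · linear_combination (0) * h
  · linear_combination (0) * h
  · linear_combination (0) * h
  · linear_combination (0) * h
  · linear_combination ((-1) * c ^ 0 + (2) * c ^ 1 + (1) * c ^ 2 + (-1) * c ^ 3) * h
  · linear_combination ((-2) * c ^ 0 + (-2) * c ^ 1 + (2) * c ^ 2 + (1) * c ^ 3) * h
  · linear_combination (0) * h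
  · linear_combination ((2) * c ^ 0 + (-3) * c ^ 1 + (-1) * c ^ 2 + (1) * c ^ 3) * h
  · linear_combination ((1) * c ^ 0 + (1) * c ^ 1 + (-2) * c ^ 2 + (-1) * c ^ 3) * h

lemma V7_zero_ne (l : Fin 3) : Vs w7 v7 0 l ≠ 0 := by
  have h1 := c7_lo
  have h2 := c7_hi
  have h3 := c7_sq_lo
  have h4 := c7_sq_hi
  fin_cases l
  · show (1 : ℝ) ≠ 0
    exact one_ne_zero
  · show w7 ≠ 0
    have h : w7 = (2) * Upper.c ^ 0 + (-1) * Upper.c ^ 2 := rfl
    intro h'
    rw [h'] at h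
    linarith
  · show v7 ≠ 0
    have h : v7 = (-2) * Upper.c ^ 0 + (1) * Upper.c ^ 1 + (1) * Upper.c ^ 2 := rfl
    intro h'
    rw [h'] at h
    linarith

lemma det7 : (pw Upper.rho).det = -7 := by
  rw [det_pw, Upper.rho0, Upper.rho1, Upper.rho2]
  linear_combination ((-1) * Upper.c ^ 0 + (-9) * Upper.c ^ 1 + (1) * Upper.c ^ 2 +
    (2) * Upper.c ^ 3) * Upper.c_root

/-! ### The nonagonal system -/

/-- The basis of `Vs w9 v9` in terms of `1, ρ, ρ²`. -/
def N9 : Matrix (Fin 3) (Fin 3) ℤ := !![1, 0, 0; 1, -1, 0; 2, 0, -1]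

lemma N9_unit : IsUnit N9.det := by
  have : N9.det = 1 := by decide
  rw [this]
  decide

lemma V9_N9 (k l : Fin 3) :
    Vs w9 v9 k l = Vs w9 v9 0 l * ∑ m, pw Up9.rho (Equiv.swap 1 2 l) m * (N9 k m : ℝ) := by
  have h := Up9.c_root
  have s0 : Equiv.swap (1 : Fin 3) 2 0 = 0 := by decide
  have s1 : Equiv.swap (1 : Fin 3) 2 1 = 2 := by decide
  have s2 : Equiv.swap (1 : Fin 3) 2 2 = 1 := by decide
  unfold Vs w9 v9 pw N9 Up9.rho
  generalize Up9.c = c at *
  fin_cases k <;> fin_cases l <;>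
    simp only [Fin.sum_univ_three, Matrix.of_apply, Matrix.cons_val',
      Matrix.cons_val_zero, Matrix.cons_val_one, Matrix.cons_val, Matrix.cons_val_fin_one,
      Fin.zero_eta, Fin.mk_one, Fin.reduceFinMk, Fin.isValue, Int.cast_zero, s0, s1, s2,
      Int.cast_one, Int.cast_neg, Fin.val_zero, Fin.val_one, Fin.val_two, Int.cast_ofNat]
  · linear_combination (0) * h
  · linear_combination (0) * h
  · linear_combination (0) * h
  · linear_combination (0) * h
  · linear_combination ((-1) * c ^ 0 + (-1) * c ^ 1) * h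
  · linear_combination ((1) * c ^ 0) * h
  · linear_combination (0) * h
  · linear_combination ((-3) * c ^ 0 + (-2) * c ^ 1 + (2) * c ^ 2 + (1) * c ^ 3) * h
  · linear_combination ((-1) * c ^ 0 + (-1) * c ^ 1 + (1) * c ^ 2) * h

lemma V9_zero_ne (l : Fin 3) : Vs w9 v9 0 l ≠ 0 := by
  fin_cases l
  · show (1 : ℝ) ≠ 0
    exact one_ne_zero
  · show w9 ≠ 0
    have := w9_lo
    intro h'
    linarith
  · show v9 ≠ 0
    have := v9_lo
    intro h'
    linarith

lemma det9' : (pw Up9.rho).det = -9 := by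
  rw [det_pw, Up9.rho0, Up9.rho1, Up9.rho2]
  linear_combination ((-7) * Up9.c ^ 0 + (-9) * Up9.c ^ 1 + (3) * Up9.c ^ 2 +
    (2) * Up9.c ^ 3) * Up9.c_root

/-! ### The values -/

lemma kap_lt_kap9 : kap < Up9.kap9 := by
  have h1 := Upper.kap_eq
  have h2 := c7_hi
  have h3 := c7_sq_hi
  have h4 := Up9.kap9_eq
  have h5 := Up9.c_lo
  have h6 := Up9.c_sq_lo
  nlinarith

lemma kap9_lt : Up9.kap9 < 601275 / 1000000 := by
  have h4 := Up9.kap9_eq
  have h5 := Up9.c_hi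
  have h6 := Up9.c_sq_hi
  nlinarith

lemma lt_kT : 604 / 1000 < kT := by norm_num [kT]

end Pool.Agent.Lib.MP_ddd95a_nt.Sec
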