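import Pool.Agent.Lib.MP_ddd95a_nt.Mg.G011

set_option autoImplicit false

/-!
# One step of the flow
-/

namespace Pool.Agent.Lib.MP_ddd95a_nt.Sec

open Pool.Agent.Lib.MP_ddd95a_nt Pool.Agent.Lib.MP_ddd95a_nt.Iso

open scoped BigOperators

/-- The emptiness test for a box with one face vector in each direction. -/
lemma box_empty {V : Matrix (Fin 3) (Fin 3) ℝ} {l0 h0 l1 h1 l2 h2 l3 h3 l4 h4 l5 h5 : ℕ}
    (hV : Nrm V) (hc : InCell V l0 h0 l1 h1 l2 h2 l3 h3 l4 h4 l5 h5)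
    (a0 : l0 ≤ 128) (b0 : h0 ≤ 128) (a1 : l1 ≤ 128) (b1 : h1 ≤ 128)
    (a2 : l2 ≤ 128) (b2 : h2 ≤ 128) (a3 : l3 ≤ 128) (b3 : h3 ≤ 128) (a4 : l4 ≤ 128)
    (b4 : h4 ≤ 128) (a5 : l5 ≤ 128) (b5 : h5 ≤ 128) {c w0 w1 w2 : ℕ} {n0 n1 n2 : Fin 3 → ℤ}
    (h : bxOK c l0 h0 l1 h1 l2 h2 l3 h3 l4 h4 l5 h5 = true)
    (e0 : cW1 c = [w0]) (e1 : cW2 c = [w1]) (e2 : cW3 c = [w2])
    (v0 : vecF (cBase c) (fv w0) = n0) (v1 : vecF (cBase c) (fv w1) = n1)
    (v2 : vecF (cBase c) (fv w2) = n2) {x0 x1 x2 : ℝ} (g0 : crd V n0 0 = x0)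
    (g1 : crd V n1 1 = x1) (g2 : crd V n2 2 = x2) (p0 : 0 < x0) (p1 : 0 < x1) (p2 : 0 < x2) :
    EmptyBox V ![x0, x1, x2] := by
  obtain ⟨ω1, ω2, ω3, C⟩ := ctx_of hV hc a0 b0 a1 b1 a2 b2 a3 b3 a4 b4 a5 b5
  obtain ⟨-, q1, -⟩ := bxOK_sound C h
  have t0 : bT V c 0 = x0 := by
    show sideT V (cBase c) (cW1 c) 0 = _
    rw [e0]
    show crd V (vecF (cBase c) (fv w0)) 0 = _
    rw [v0, g0]
  have t1 : bT V c 1 = x1 := by
    show sideT V (cBase c) (cW2 c) 1 = _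
    rw [e1]
    show crd V (vecF (cBase c) (fv w1)) 1 = _
    rw [v1, g1]
  have t2 : bT V c 2 = x2 := by
    show sideT V (cBase c) (cW3 c) 2 = _
    rw [e2]
    show crd V (vecF (cBase c) (fv w2)) 2 = _
    rw [v2, g2]
  have hT : bT V c = ![x0, x1, x2] := by
    funext j
    fin_cases j
    · exact t0
    · exact t1
    · exact t2
  rw [← hT]
  apply q1
  intro j
  fin_cases j
  · show 0 < bT V c 0
    rw [t0]; exact p0
  · show 0 < bT V c 1
    rw [t1]; exact p1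
  · show 0 < bT V c 2
    rw [t2]; exact p2

lemma sg_mul {σ x y : ℝ} (hσ : σ = 1 ∨ σ = -1) (h : σ * y = x) : y = σ * x := by
  rcases hσ with rfl | rfl <;> linarith

lemma sg_abs {σ x y : ℝ} (hσ : σ = 1 ∨ σ = -1) (h : σ * y = x) : |y| = |x| := by
  rcases hσ with rfl | rfl
  · rw [one_mul] at h; rw [h]
  · rw [← h, neg_one_mul, abs_neg]

lemma sg_div {σ x y X Y : ℝ} (hσ : σ = 1 ∨ σ = -1) (h : σ * y = x) (h' : σ * Y = X) :
    y / Y = x / X := by
  rcases hσ with rfl | rfl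
  · rw [← h, ← h', one_mul, one_mul]
  · rw [← h, ← h', neg_one_mul, neg_one_mul, neg_div_neg_eq]

/-- The new matrix is normalised and has the pattern of bounds. -/
lemma step_of {V : Matrix (Fin 3) (Fin 3) ℝ} {M : Matrix (Fin 3) (Fin 3) ℤ} {s b θ : ℝ}
    (hdet : V.det ≠ 0) (hM : IsUnit M.det) (hs1 : s ≤ 1) (hb1 : b ≤ 1) {σ0 σ1 σ2 : ℝ}
    (z0 : σ0 = 1 ∨ σ0 = -1) (z1 : σ1 = 1 ∨ σ1 = -1) (z2 : σ2 = 1 ∨ σ2 = -1)
    {x00 x10 x20 x01 x11 x21 x02 x12 x22 : ℝ}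
    (h00 : σ0 * crd V (M 0) 0 = x00) (h10 : σ0 * crd V (M 1) 0 = x10)
    (h20 : σ0 * crd V (M 2) 0 = x20) (h01 : σ1 * crd V (M 0) 1 = x01)
    (h11 : σ1 * crd V (M 1) 1 = x11) (h21 : σ1 * crd V (M 2) 1 = x21)
    (h02 : σ2 * crd V (M 0) 2 = x02) (h12 : σ2 * crd V (M 1) 2 = x12)
    (h22 : σ2 * crd V (M 2) 2 = x22) (p0 : 0 < x00) (p1 : 0 < x11) (p2 : 0 < x22)
    (hE : EmptyBox V ![x00, x11, x22])
    (c01 : 0 ≤ x01) (d01 : x01 ≤ s * x11) (c12 : 0 ≤ x12) (d12 : x12 ≤ s * x22)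
    (c20 : x20 ≤ 0) (d20 : -(s * x00) ≤ x20) (c02 : 0 ≤ x02) (d02 : x02 ≤ b * x22)
    (c10 : x10 ≤ 0) (d10 : -(b * x00) ≤ x10) (c21 : x21 ≤ 0) (d21 : -(b * x11) ≤ x21)
    (big : θ * x22 ≤ x02 ∨ θ * x00 ≤ -x10 ∨ θ * x11 ≤ -x21) :
    (∀ j, crd V (M j) j ≠ 0) ∧ Nrm (nz V M) ∧ Pat s b (nz V M) ∧ Big θ (nz V M) := by
  have e01 : nz V M 0 1 = x01 / x11 := sg_div z1 h01 h11
  have e12 : nz V M 1 2 = x12 / x22 := sg_div z2 h12 h22
  have e20 : nz V M 2 0 = x20 / x00 := sg_div z0 h20 h00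
  have e02 : nz V M 0 2 = x02 / x22 := sg_div z2 h02 h22
  have e10 : nz V M 1 0 = x10 / x00 := sg_div z0 h10 h00
  have e21 : nz V M 2 1 = x21 / x11 := sg_div z1 h21 h11
  refine ⟨?_, ?_, ?_, ?_⟩
  · intro j
    fin_cases j
    · show crd V (M 0) 0 ≠ 0
      intro h
      rw [h, mul_zero] at h00
      linarith
    · show crd V (M 1) 1 ≠ 0
      intro h
      rw [h, mul_zero] at h11
      linarith
    · show crd V (M 2) 2 ≠ 0
      intro h
      rw [h, mul_zero] at h22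
      linarith
  · refine nrm_nz hdet hM (T := ![x00, x11, x22]) ?_ ?_ ?_ hE
    · intro j
      fin_cases j
      · exact p0
      · exact p1
      · exact p2
    · intro j
      fin_cases j
      · show |crd V (M 0) 0| = x00
        rw [sg_abs z0 h00, abs_of_pos p0]
      · show |crd V (M 1) 1| = x11
        rw [sg_abs z1 h11, abs_of_pos p1]
      · show |crd V (M 2) 2| = x22
        rw [sg_abs z2 h22, abs_of_pos p2]
    · have k0 : s * x00 ≤ 1 * x00 := mul_le_mul_of_nonneg_right hs1 p0.le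
      have k1 : s * x11 ≤ 1 * x11 := mul_le_mul_of_nonneg_right hs1 p1.le
      have k2 : s * x22 ≤ 1 * x22 := mul_le_mul_of_nonneg_right hs1 p2.le
      have l0 : b * x00 ≤ 1 * x00 := mul_le_mul_of_nonneg_right hb1 p0.le
      have l1 : b * x11 ≤ 1 * x11 := mul_le_mul_of_nonneg_right hb1 p1.le
      have l2 : b * x22 ≤ 1 * x22 := mul_le_mul_of_nonneg_right hb1 p2.le
      intro i j
      fin_cases i <;> fin_cases j
      · show |crd V (M 0) 0| ≤ x00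
        rw [sg_abs z0 h00, abs_of_pos p0]
      · show |crd V (M 0) 1| ≤ x11
        rw [sg_abs z1 h01, abs_le]
        constructor <;> linarith
      · show |crd V (M 0) 2| ≤ x22
        rw [sg_abs z2 h02, abs_le]
        constructor <;> linarith
      · show |crd V (M 1) 0| ≤ x00
        rw [sg_abs z0 h10, abs_le]
        constructor <;> linarith
      · show |crd V (M 1) 1| ≤ x11
        rw [sg_abs z1 h11, abs_of_pos p1]
      · show |crd V (M 1) 2| ≤ x22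
        rw [sg_abs z2 h12, abs_le]
        constructor <;> linarith
      · show |crd V (M 2) 0| ≤ x00
        rw [sg_abs z0 h20, abs_le]
        constructor <;> linarith
      · show |crd V (M 2) 1| ≤ x11
        rw [sg_abs z1 h21, abs_le]
        constructor <;> linarith
      · show |crd V (M 2) 2| ≤ x22
        rw [sg_abs z2 h22, abs_of_pos p2]
  · refine ⟨?_, ?_, ?_, ?_, ?_, ?_, ?_, ?_, ?_, ?_, ?_, ?_⟩
    · rw [e01]; exact div_nonneg c01 p1.le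
    · rw [e01, div_le_iff₀ p1]; exact d01
    · rw [e12]; exact div_nonneg c12 p2.le
    · rw [e12, div_le_iff₀ p2]; exact d12
    · rw [e20]; exact div_nonpos_of_nonpos_of_nonneg c20 p0.le
    · rw [e20, le_div_iff₀ p0]; linarith
    · rw [e02]; exact div_nonneg c02 p2.le
    · rw [e02, div_le_iff₀ p2]; exact d02
    · rw [e10]; exact div_nonpos_of_nonpos_of_nonneg c10 p0.le
    · rw [e10, le_div_iff₀ p0]; linarith
    · rw [e21]; exact div_nonpos_of_nonpos_of_nonneg c21 p1.le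
    · rw [e21, le_div_iff₀ p1]; linarith
  · rcases big with h | h | h
    · left
      rw [e02, le_div_iff₀ p2]
      exact h
    · right; left
      rw [e10, ← neg_div, le_div_iff₀ p0]
      exact h
    · right; right
      rw [e21, ← neg_div, le_div_iff₀ p1]
      exact h

/-- The certificate applies to sorted matrices. -/
lemma cov_root (hroot : Cov 0 128 0 128 64 128 0 128 64 128 0 128) {s b : ℝ}
    {W : Matrix (Fin 3) (Fin 3) ℝ} (hN : Nrm W) (hp : Pat s b W)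
    (hs : ∀ i j, i ≠ j → |W i j| ≤ W 0 2) : Good kT W ∨ InLoc W := by
  apply hroot W hN hs
  have hle := fun i j => abs_le.1 (hN.le_one i j)
  have h01 := hp.p01
  have h02 := hp.p02
  refine ⟨?_, ?_, ?_, ?_, ?_, ?_, ?_, ?_, ?_, ?_, ?_, ?_⟩ <;> norm_num <;>
    linarith [(hle 1 0).1, (hle 1 0).2, (hle 2 0).1, (hle 2 0).2, (hle 0 1).2, (hle 2 1).1,
      (hle 2 1).2, (hle 0 2).2, (hle 1 2).1, (hle 1 2).2]

end Pool.Agent.Lib.MP_ddd95a_nt.Sec
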